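import Mathlib

open Cardinal Set

universe u

namespace Pool.Agent.Lib.MP_8f36f1_h17

/-- The standing situation of the problem: `Y` is a closed discrete subspace of `X` with exactly
`ℵ₁` points, and for every `y : Y` the family `B y` is a local base at `y` (consisting of open
sets) whose members contain no point of `Y` other than `y`. -/
structure Setting {X : Type u} [TopologicalSpace X] (Y : Set X) (B : Y → Set (Set X)) :
    Prop where
  closed : IsClosed Y
  discrete : DiscreteTopology Y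
  card : #Y = ℵ_ 1
  isOpen : ∀ (y : Y), ∀ U ∈ B y, IsOpen U
  mem : ∀ (y : Y), ∀ U ∈ B y, (y : X) ∈ U
  only : ∀ (y : Y), ∀ U ∈ B y, ∀ z ∈ Y, z ∈ U → z = y
  base : ∀ (y : Y) (V : Set X), IsOpen V → (y : X) ∈ V → ∃ U ∈ B y, U ⊆ V

/-- `f` witnesses the normality of `Z ⊆ Y`: the union of the sets `f z`, `z ∈ Z`, is disjoint
from the union of the sets `f y`, `y ∈ Y \ Z`. -/
def Witnesses {X : Type u} {Y : Set X} (f : Y → Set X) (Z : Set Y) : Prop :=
  Disjoint (⋃ z ∈ Z, f z) (⋃ y ∈ Zᶜ, f y)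

/-- `F` is a family of basic functions (every `f ∈ F` satisfies `f y ∈ B y` for all `y ∈ Y`)
which witnesses the normality of `Y`: every `Z ⊆ Y` is witnessed by some `f ∈ F`. -/
def WitnessingFamily {X : Type u} {Y : Set X} (B : Y → Set (Set X)) (F : Set (Y → Set X)) :
    Prop :=
  (∀ f ∈ F, ∀ y, f y ∈ B y) ∧ ∀ Z : Set Y, ∃ f ∈ F, Witnesses f Z

/-- `Y` is separated: there are pairwise disjoint open sets `U y ∋ y`, `y ∈ Y`. -/
def Separated {X : Type u} [TopologicalSpace X] (Y : Set X) : Prop :=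
  ∃ U : Y → Set X, (∀ y, IsOpen (U y) ∧ (y : X) ∈ U y) ∧
    ∀ y z : Y, y ≠ z → Disjoint (U y) (U z)

/-- `Y` is weakly separated: some uncountable subset of `Y` is separated. -/
def WeaklySeparated {X : Type u} [TopologicalSpace X] (Y : Set X) : Prop :=
  ∃ W ⊆ Y, ¬ W.Countable ∧ Separated W

end Pool.Agent.Lib.MP_8f36f1_h17
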