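import Mathlib
import Pool.Agent.Lib.MP_8f36f1_h17.Defs

open Cardinal Set

universe u v w

namespace Pool.Agent.Lib.MP_8f36f1_h17

/-- `W` is small for the family `E` of equivalence relations: finite sets `s a` of indices
can be attached to the points of `W` such that any two distinct points of `W` are inequivalent
for some common index. -/
def Small {A : Type u} {I : Type v} (E : I → Setoid A) (W : Set A) : Prop :=
  ∃ s : A → Finset I, ∀ a ∈ W, ∀ b ∈ W, a ≠ b → ∃ i ∈ s a, i ∈ s b ∧ ¬ (E i) a b

/-- every subset of `A` is a union of classes of some `E i`. -/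
def Measures {A : Type u} {I : Type v} (E : I → Setoid A) : Prop :=
  ∀ Z : Set A, ∃ i, ∀ a b, (E i) a b → a ∈ Z → b ∈ Z

theorem Measures.symm {A : Type u} {I : Type v} {E : I → Setoid A}
    (hE : Measures E) (Z : Set A) : ∃ i, ∀ a b, (E i) a b → (a ∈ Z ↔ b ∈ Z) := by
  obtain ⟨i, hi⟩ := hE Z
  exact ⟨i, fun _ _ h => ⟨hi _ _ h, hi _ _ ((E i).symm h)⟩⟩

theorem Small.mono {A : Type u} {I : Type v} {E : I → Setoid A} {W W' : Set A}
    (h : Small E W) (hW : W' ⊆ W) : Small E W' := by
  obtain ⟨s, hs⟩ := h
  exact ⟨s, fun a ha b hb hab => hs a (hW ha) b (hW hb) hab⟩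

theorem small_subsingleton {A : Type u} {I : Type v} (E : I → Setoid A) {W : Set A}
    (h : W.Subsingleton) : Small E W :=
  ⟨fun _ => ∅, fun _ ha _ hb hab => absurd (h ha hb) hab⟩

/-- countable unions of small sets are small. -/
theorem small_iUnion {A : Type u} {I : Type v} {E : I → Setoid A} (hE : Measures E)
    (W : ℕ → Set A) (hW : ∀ n, Small E (W n)) : Small E (⋃ n, W n) := by
  classical
  choose s hs using hW
  -- disjointification
  choose i hi using fun n => hE.symm (disjointed W n)
  have hex : ∀ a ∈ ⋃ n, W n, ∃ n, a ∈ disjointed W n := by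
    intro a ha
    rw [← iUnion_disjointed (f := W)] at ha
    simpa using ha
  let n : A → ℕ := fun a => if h : ∃ n, a ∈ disjointed W n then h.choose else 0
  have hn : ∀ a ∈ ⋃ n, W n, a ∈ disjointed W (n a) := by
    intro a ha
    have h := hex a ha
    simp only [n, dif_pos h]
    exact h.choose_spec
  refine ⟨fun a => s (n a) a ∪ (Finset.range (n a + 1)).image i, ?_⟩
  have key : ∀ a ∈ ⋃ n, W n, ∀ b ∈ ⋃ n, W n, n a < n b → ¬ (E (i (n a))) a b := by
    intro a ha b hb hlt h
    have h1 := (hi (n a) a b h).1 (hn a ha)
    have h2 := hn b hb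
    have := (disjoint_disjointed W) (ne_of_lt hlt)
    exact (Set.disjoint_left.1 this h1 h2)
  intro a ha b hb hab
  rcases lt_trichotomy (n a) (n b) with h | h | h
  · refine ⟨i (n a), ?_, ?_, key a ha b hb h⟩
    · exact Finset.mem_union_right _ (Finset.mem_image_of_mem _ (by simp))
    · exact Finset.mem_union_right _ (Finset.mem_image_of_mem _ (by simp; omega))
  · have h1 : a ∈ W (n a) := disjointed_subset W _ (hn a ha)
    have h2 : b ∈ W (n a) := by rw [h]; exact disjointed_subset W _ (hn b hb)
    obtain ⟨j, hj1, hj2, hj3⟩ := hs (n a) a h1 b h2 hab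
    refine ⟨j, Finset.mem_union_left _ hj1, Finset.mem_union_left _ ?_, hj3⟩
    rw [← h]; exact hj2
  · refine ⟨i (n b), ?_, ?_, fun h' => key b hb a ha h ((E _).symm h')⟩
    · exact Finset.mem_union_right _ (Finset.mem_image_of_mem _ (by simp; omega))
    · exact Finset.mem_union_right _ (Finset.mem_image_of_mem _ (by simp))

/-- countable sets are small. -/
theorem small_countable {A : Type u} {I : Type v} {E : I → Setoid A} (hE : Measures E)
    {W : Set A} (hW : W.Countable) : Small E W := by
  rcases W.eq_empty_or_nonempty with rfl | hne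
  · exact small_subsingleton E subsingleton_empty
  obtain ⟨f, hf⟩ := hW.exists_eq_range hne
  have := small_iUnion hE (fun n => {f n}) (fun n => small_subsingleton E subsingleton_singleton)
  refine this.mono ?_
  rw [hf]
  rintro _ ⟨n, rfl⟩
  exact mem_iUnion.2 ⟨n, rfl⟩

/-- if all classes of one of the relations meet `W` in a small set, the pieces can
be put together: this version is for countable classes. -/
theorem small_of_countable_classes {A : Type u} {I : Type v} {E : I → Setoid A}
    (hE : Measures E) (i : I) (hi : ∀ a, {b | (E i) a b}.Countable) : Small E univ := by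
  classical
  -- in every class choose index families
  choose s hs using fun a => small_countable hE (hi a)
  -- representative of the class
  let r : A → A := fun a => (Quotient.out (Quotient.mk (E i) a))
  have hr : ∀ a, (E i) (r a) a := fun a => Quotient.exact (Quotient.out_eq (Quotient.mk (E i) a))
  have hr' : ∀ a b, (E i) a b → r a = r b := by
    intro a b h
    have : Quotient.mk (E i) a = Quotient.mk (E i) b := Quotient.sound h
    simp only [r, this]
  refine ⟨fun a => insert i (s (r a) a), ?_⟩
  intro a _ b _ hab
  by_cases h : (E i) a b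
  · have hra := hr' a b h
    obtain ⟨j, hj1, hj2, hj3⟩ := hs (r a) a (hr a) b (by rw [hra]; exact hr b) hab
    refine ⟨j, Finset.mem_insert_of_mem hj1, Finset.mem_insert_of_mem ?_, hj3⟩
    rw [← hra]; exact hj2
  · exact ⟨i, Finset.mem_insert_self _ _, Finset.mem_insert_self _ _, h⟩

end Pool.Agent.Lib.MP_8f36f1_h17
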