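import Mathlib
import Pool.Agent.Lib.MP_8f36f1_h17.Comb

open Cardinal Set

universe u v

namespace Pool.Agent.Lib.MP_8f36f1_h17

/-- relative version of `small_of_countable_classes`. -/
theorem small_of_countable_classes' {A : Type u} {I : Type v} {E : I → Setoid A}
    (hE : Measures E) (i : I) (W : Set A) (hi : ∀ a ∈ W, {b | b ∈ W ∧ (E i) a b}.Countable) :
    Small E W := by
  classical
  have h0 : ∀ a, Small E {b | b ∈ W ∧ a ∈ W ∧ (E i) a b} := by
    intro a
    by_cases ha : a ∈ W
    · refine (small_countable hE (hi a ha)).mono ?_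
      rintro b ⟨h1, _, h2⟩
      exact ⟨h1, h2⟩
    · refine (small_subsingleton E subsingleton_empty).mono ?_
      rintro b ⟨_, h, _⟩
      exact absurd h ha
  choose s hs using h0
  -- representative of the class inside `W`
  let q : A → Quotient (E i) := fun a => Quotient.mk (E i) a
  let r : Quotient (E i) → A := fun c => if h : ∃ a ∈ W, q a = c then h.choose else c.out
  have hr : ∀ a ∈ W, r (q a) ∈ W ∧ q (r (q a)) = q a := by
    intro a ha
    have h : ∃ a' ∈ W, q a' = q a := ⟨a, ha, rfl⟩
    simp only [r, dif_pos h]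
    exact h.choose_spec
  refine ⟨fun a => insert i (s (r (q a)) a), ?_⟩
  intro a ha b hb hab
  by_cases h : (E i) a b
  · have hq : q a = q b := Quotient.sound h
    obtain ⟨h1, h2⟩ := hr a ha
    have h3 : (E i) (r (q a)) a := Quotient.exact h2
    have h4 : (E i) (r (q a)) b := (E i).trans h3 h
    obtain ⟨j, hj1, hj2, hj3⟩ := hs (r (q a)) a ⟨ha, h1, h3⟩ b ⟨hb, h1, h4⟩ hab
    refine ⟨j, Finset.mem_insert_of_mem hj1, Finset.mem_insert_of_mem ?_, hj3⟩
    rw [← hq]; exact hj2
  · exact ⟨i, Finset.mem_insert_self _ _, Finset.mem_insert_self _ _, h⟩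

/-- a well order of type `ω₁`. -/
theorem exists_wo {A : Type u} (hA : #A = ℵ_ 1) :
    ∃ r : A → A → Prop, IsWellOrder A r ∧ ∀ a, {b | r b a}.Countable := by
  obtain ⟨r, hr, hr'⟩ := Cardinal.exists_ord_eq A
  refine ⟨r, hr, fun a => ?_⟩
  have h1 := Cardinal.card_typein_lt a hr'
  rw [Ordinal.typein] at h1
  rw [hA] at h1
  have h2 : #{b | r b a} < ℵ_ 1 := by
    simpa using h1
  rw [← Cardinal.le_aleph0_iff_set_countable]
  rwa [← Cardinal.succ_aleph0, Order.lt_succ_iff] at h2

theorem uncountable_of_card {A : Type u} (hA : #A = ℵ_ 1) : ¬ (univ : Set A).Countable := by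
  rw [← Cardinal.le_aleph0_iff_set_countable, Cardinal.mk_univ, hA, not_le]
  exact Cardinal.aleph0_lt_aleph_one

/-- Ulam: there are `ℵ₁` pairwise disjoint non-small sets. -/
theorem ulam {A : Type u} {I : Type v} {E : I → Setoid A} (hA : #A = ℵ_ 1)
    (hE : Measures E) (hs : ¬ Small E univ) :
    ∃ P : A → Set A, (∀ a b, a ≠ b → Disjoint (P a) (P b)) ∧ ∀ a, ¬ Small E (P a) := by
  classical
  obtain ⟨r, hr, hc⟩ := exists_wo hA
  have hinj : ∀ b, ∃ f : A → ℕ, InjOn f {a | r a b} := fun b =>
    Set.countable_iff_exists_injOn.1 (hc b)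
  choose f hf using hinj
  let U : A → ℕ → Set A := fun a n => {b | r a b ∧ f b a = n}
  have hU : ∀ a, ∃ n, ¬ Small E (U a n) := by
    intro a
    by_contra h
    push Not at h
    apply hs
    have h1 : Small E (⋃ n, U a n) := small_iUnion hE _ h
    have h2 : Small E ({a} ∪ {b | r b a}) :=
      small_countable hE ((countable_singleton a).union (hc a))
    have h3 := small_iUnion hE (fun n => if n = 0 then (⋃ n, U a n) else ({a} ∪ {b | r b a}))
      (fun n => by
        by_cases hn : n = 0
        · simpa [hn] using h1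
        · simpa [hn] using h2)
    refine h3.mono ?_
    intro b _
    rcases trichotomous_of r a b with h | h | h
    · refine mem_iUnion.2 ⟨0, ?_⟩
      simp only [if_true]
      exact mem_iUnion.2 ⟨f b a, h, rfl⟩
    · refine mem_iUnion.2 ⟨1, ?_⟩
      simp [h]
    · refine mem_iUnion.2 ⟨1, ?_⟩
      simp [h]
  choose n hn using hU
  have hn0 : ∃ m, ¬ {a | n a = m}.Countable := by
    by_contra h
    push Not at h
    apply uncountable_of_card hA
    have : (univ : Set A) = ⋃ m, {a | n a = m} := by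
      ext a; simp
    rw [this]
    exact countable_iUnion h
  obtain ⟨m, hm⟩ := hn0
  have hcard : #{a | n a = m} = #A := by
    apply le_antisymm (Cardinal.mk_set_le _)
    rw [hA, ← Cardinal.succ_aleph0, Order.succ_le_iff]
    rw [← Cardinal.le_aleph0_iff_set_countable, not_le] at hm
    exact hm
  obtain ⟨e⟩ := Cardinal.eq.1 hcard
  refine ⟨fun a => U (e.symm a) m, ?_, ?_⟩
  · intro a b hab
    rw [Set.disjoint_left]
    rintro c ⟨h1, h2⟩ ⟨h3, h4⟩
    apply hab
    have := hf c h1 h3 (h2.trans h4.symm)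
    exact e.symm.injective (Subtype.ext this)
  · intro a
    have := hn (e.symm a)
    rwa [(e.symm a).2] at this

end Pool.Agent.Lib.MP_8f36f1_h17
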