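import Mathlib
import Pool.Agent.Lib.MP_8f36f1_h17.Ulam

open Cardinal Set

universe u v

namespace Pool.Agent.Lib.MP_8f36f1_h17

variable {A : Type u}

theorem exists_above {r : A → A → Prop} [hr : IsWellOrder A r] (hA : #A = ℵ_ 1)
    (hc : ∀ a, {b | r b a}.Countable) {ι : Type v} [Countable ι] (d : ι → A) :
    ∃ a, ∀ p, r (d p) a := by
  by_contra hcon
  push Not at hcon
  apply uncountable_of_card hA
  have hsub : (univ : Set A) ⊆ ⋃ p : ι, ({b | r b (d p)} ∪ {d p}) := by
    intro a _
    obtain ⟨p, hp⟩ := hcon a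
    refine mem_iUnion.2 ⟨p, ?_⟩
    rcases trichotomous_of r (d p) a with h | h | h
    · exact absurd h hp
    · exact Or.inr h.symm
    · exact Or.inl h
  exact (countable_iUnion fun p => (hc (d p)).union (countable_singleton _)).mono hsub

/-- abstract form of Ulam's theorem for σ-ideals. -/
theorem ulam' (hA : #A = ℵ_ 1) (J : Set A → Prop) (mono : ∀ W W', J W → W' ⊆ W → J W')
    (sig : ∀ W : ℕ → Set A, (∀ n, J (W n)) → J (⋃ n, W n)) (single : ∀ a, J {a})
    (hs : ¬ J univ) :
    ∃ P : A → Set A, (∀ a b, a ≠ b → Disjoint (P a) (P b)) ∧ ∀ a, ¬ J (P a) := by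
  classical
  obtain ⟨r, hr, hc⟩ := exists_wo hA
  have hctble : ∀ W : Set A, W.Countable → J W := by
    intro W hW
    rcases W.eq_empty_or_nonempty with rfl | hne
    · have hne : Nonempty A := by
        by_contra h
        rw [not_nonempty_iff] at h
        exact uncountable_of_card hA (Set.countable_univ_iff.2 inferInstance)
      exact mono _ _ (single (Classical.arbitrary A)) (empty_subset _)
    · obtain ⟨f, hf⟩ := hW.exists_eq_range hne
      refine mono _ _ (sig (fun n => {f n}) fun n => single _) ?_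
      rw [hf]
      rintro _ ⟨n, rfl⟩
      exact mem_iUnion.2 ⟨n, rfl⟩
  have hinj : ∀ b, ∃ f : A → ℕ, InjOn f {a | r a b} := fun b =>
    Set.countable_iff_exists_injOn.1 (hc b)
  choose f hf using hinj
  let U : A → ℕ → Set A := fun a n => {b | r a b ∧ f b a = n}
  have hU : ∀ a, ∃ n, ¬ J (U a n) := by
    intro a
    by_contra h
    push Not at h
    apply hs
    have h1 : J (⋃ n, U a n) := sig _ h
    have h2 : J ({a} ∪ {b | r b a}) := hctble _ ((countable_singleton a).union (hc a))
    have h3 := sig (fun n => if n = 0 then (⋃ n, U a n) else ({a} ∪ {b | r b a}))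
      (fun n => by
        by_cases hn : n = 0
        · simpa [hn] using h1
        · simpa [hn] using h2)
    refine mono _ _ h3 ?_
    intro b _
    rcases trichotomous_of r a b with h | h | h
    · refine mem_iUnion.2 ⟨0, ?_⟩
      simp only [if_true]
      exact mem_iUnion.2 ⟨f b a, h, rfl⟩
    · refine mem_iUnion.2 ⟨1, ?_⟩
      simp [h]
    · refine mem_iUnion.2 ⟨1, ?_⟩
      simp [h]
  choose n hn using hU
  have hn0 : ∃ m, ¬ {a | n a = m}.Countable := by
    by_contra h
    push Not at h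
    apply uncountable_of_card hA
    have : (univ : Set A) = ⋃ m, {a | n a = m} := by
      ext a; simp
    rw [this]
    exact countable_iUnion h
  obtain ⟨m, hm⟩ := hn0
  have hcard : #{a | n a = m} = #A := by
    apply le_antisymm (Cardinal.mk_set_le _)
    rw [hA, ← Cardinal.succ_aleph0, Order.succ_le_iff]
    rw [← Cardinal.le_aleph0_iff_set_countable, not_le] at hm
    exact hm
  obtain ⟨e⟩ := Cardinal.eq.1 hcard
  refine ⟨fun a => U (e.symm a) m, ?_, ?_⟩
  · intro a b hab
    rw [Set.disjoint_left]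
    rintro c ⟨h1, h2⟩ ⟨h3, h4⟩
    apply hab
    have := hf c h1 h3 (h2.trans h4.symm)
    exact e.symm.injective (Subtype.ext this)
  · intro a
    have := hn (e.symm a)
    rwa [(e.symm a).2] at this

/-- inside a non-small set every relation has an uncountable homogeneous set. -/
theorem exists_homog {I : Type v} {E : I → Setoid A} (hE : Measures E) {P : Set A}
    (hP : ¬ Small E P) (i : I) :
    ∃ C ⊆ P, ¬ C.Countable ∧ ∀ b ∈ C, ∀ c ∈ C, (E i) b c := by
  by_contra hcon
  push Not at hcon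
  apply hP
  apply small_of_countable_classes' hE i
  intro b _
  by_contra hunc
  obtain ⟨c, hc1, d, hd1, h⟩ := hcon {b' | b' ∈ P ∧ (E i) b b'} (fun _ h => h.1) hunc
  exact h ((E i).trans ((E i).symm hc1.2) hd1.2)

/-- The relations yield a family of functions dominating everywhere all functions `A → A`. -/
theorem exists_dominating {I : Type v} {E : I → Setoid A} (hA : #A = ℵ_ 1) (hE : Measures E)
    (hs : ¬ Small E univ) (r : A → A → Prop) [hr : IsWellOrder A r]
    (hc : ∀ a, {b | r b a}.Countable) :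
    ∃ g : I → A → A, ∀ x : A → A, ∃ i, ∀ a, r (x a) (g i a) := by
  classical
  obtain ⟨P, hP, hPs⟩ := ulam hA hE hs
  choose C hCP hCu hCE using fun i a => exists_homog hE (hPs a) i
  have hne : ∀ i a, (C i a).Nonempty := by
    intro i a
    by_contra h
    rw [Set.not_nonempty_iff_eq_empty] at h
    exact hCu i a (h ▸ countable_empty)
  choose g hg using hne
  refine ⟨g, fun x => ?_⟩
  obtain ⟨i, hi⟩ := hE.symm {β | ∃ a, β ∈ P a ∧ r (x a) β}
  refine ⟨i, fun a => ?_⟩
  have hex : ∃ β ∈ C i a, r (x a) β := by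
    by_contra hcon
    push Not at hcon
    apply hCu i a
    refine ((hc (x a)).union (countable_singleton (x a))).mono ?_
    intro β hβ
    rcases trichotomous_of r (x a) β with h | h | h
    · exact absurd h (hcon β hβ)
    · exact Or.inr h.symm
    · exact Or.inl h
  obtain ⟨β, hβ, hxβ⟩ := hex
  have h1 := (hi β (g i a) (hCE i a β hβ _ (hg i a))).1 ⟨a, hCP i a hβ, hxβ⟩
  obtain ⟨a', ha', h2⟩ := h1
  have : a' = a := by
    by_contra hne
    exact Set.disjoint_left.1 (hP a' a hne) ha' (hCP i a (hg i a))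
  rwa [this] at h2

/-- a set of functions `A → ℕ`, pairwise eventually different, which are all bounded by `n`
on an uncountable set (or at every point by a fixed function) is finite. -/
theorem finite_of_bounded (r : A → A → Prop) [hr : IsWellOrder A r] (hA : #A = ℵ_ 1)
    (hc : ∀ a, {b | r b a}.Countable) (𝒴 : Set (A → ℕ))
    (hev : ∀ x ∈ 𝒴, ∀ y ∈ 𝒴, x ≠ y → ∃ a, ∀ b, r a b → x b ≠ y b)
    (C : Set A) (hC : ¬ C.Countable) (m : A → ℕ) (hm : ∀ x ∈ 𝒴, ∀ b ∈ C, x b ≤ m b) :
    𝒴.Finite := by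
  classical
  by_contra hinf
  have hinf' : 𝒴.Infinite := hinf
  let x : ℕ → (A → ℕ) := fun n => (hinf'.natEmbedding _ n : A → ℕ)
  have hx : Function.Injective x := fun m n h => (hinf'.natEmbedding _).injective (Subtype.ext h)
  have hxm : ∀ n, x n ∈ 𝒴 := fun n => (hinf'.natEmbedding _ n).2
  have hdiff : ∀ p : ℕ × ℕ, ∃ a, p.1 ≠ p.2 → ∀ b, r a b → x p.1 b ≠ x p.2 b := by
    intro p
    by_cases hp : p.1 = p.2
    · have : Nonempty A := by
        by_contra h
        rw [not_nonempty_iff] at h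
        exact uncountable_of_card hA (Set.countable_univ_iff.2 inferInstance)
      exact ⟨Classical.arbitrary A, fun h => absurd hp h⟩
    · obtain ⟨a, ha⟩ := hev _ (hxm p.1) _ (hxm p.2) (fun h => hp (hx h))
      exact ⟨a, fun _ => ha⟩
  choose d hd using hdiff
  obtain ⟨a, ha⟩ := exists_above (r := r) hA hc d
  have hex : ∃ b ∈ C, r a b := by
    by_contra hcon
    push Not at hcon
    apply hC
    refine ((hc a).union (countable_singleton a)).mono ?_
    intro β hβ
    rcases trichotomous_of r a β with h | h | h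
    · exact absurd h (hcon β hβ)
    · exact Or.inr h.symm
    · exact Or.inl h
  obtain ⟨b, hbC, hab⟩ := hex
  have hinj : Function.Injective fun n => x n b := by
    intro p q hpq
    by_contra hne
    exact hd (p, q) hne b (trans_of r (ha (p, q)) hab) hpq
  exact Set.infinite_of_injective_forall_mem (s := Set.Iic (m b)) hinj
    (fun n => hm _ (hxm n) b hbC) (Set.finite_Iic _)

/-- A family of pairwise eventually different functions `A → ℕ` has at most `#I * ℵ₀`
members. -/
theorem card_ad_nat {I : Type u} {E : I → Setoid A} (hA : #A = ℵ_ 1) (hE : Measures E)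
    (hs : ¬ Small E univ) (r : A → A → Prop) [hr : IsWellOrder A r]
    (hc : ∀ a, {b | r b a}.Countable) (𝒴 : Set (A → ℕ))
    (hev : ∀ x ∈ 𝒴, ∀ y ∈ 𝒴, x ≠ y → ∃ a, ∀ b, r a b → x b ≠ y b) :
    #𝒴 ≤ #I * ℵ₀ := by
  classical
  let Good : Set A → Prop := fun P =>
    ∀ h : A → ℕ, ∃ i, ∀ a ∈ P, ∃ n, ∀ b ∈ P, (E i) a b → h b ≤ n
  let K : Set A → Prop := fun P => ∃ Q : ℕ → Set A, (∀ n, Good (Q n)) ∧ P ⊆ ⋃ n, Q n
  by_cases hK : K univ
  · obtain ⟨Q, hQ, hQu⟩ := hK
    have hn : ∃ n, ¬ Small E (Q n) := by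
      by_contra h
      push Not at h
      exact hs ((small_iUnion hE Q h).mono hQu)
    obtain ⟨n, hn⟩ := hn
    choose ι hι using hQ n
    choose C hCP hCu hCE using fun i => exists_homog hE hn i
    apply Cardinal.mk_le_mk_mul_of_mk_preimage_le (fun y : 𝒴 => ι y.1)
    intro i
    have hcount : {y : A → ℕ | y ∈ 𝒴 ∧ ι y = i}.Countable := by
      have hsub : {y : A → ℕ | y ∈ 𝒴 ∧ ι y = i} ⊆
          ⋃ k : ℕ, {y : A → ℕ | y ∈ 𝒴 ∧ ∀ b ∈ C i, y b ≤ k} := by
        rintro y ⟨hy, rfl⟩
        have hne : (C (ι y)).Nonempty := by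
          by_contra h
          rw [Set.not_nonempty_iff_eq_empty] at h
          exact hCu (ι y) (h ▸ countable_empty)
        obtain ⟨a, ha⟩ := hne
        obtain ⟨k, hk⟩ := hι y a (hCP _ ha)
        exact mem_iUnion.2 ⟨k, hy, fun b hb => hk b (hCP _ hb) (hCE _ a ha b hb)⟩
      refine (countable_iUnion fun k => ?_).mono hsub
      refine (finite_of_bounded r hA hc _ ?_ (C i) (hCu i) (fun _ => k) ?_).countable
      · rintro x ⟨hx, _⟩ y ⟨hy, _⟩ hxy
        exact hev x hx y hy hxy
      · rintro x ⟨_, hx⟩ b hb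
        exact hx b hb
    have hc2 : ((fun y : 𝒴 => ι y.1) ⁻¹' {i}).Countable := by
      have := hcount.preimage (f := fun y : 𝒴 => y.1) Subtype.val_injective
      refine this.mono ?_
      intro y hy
      exact ⟨y.2, hy⟩
    exact hc2.le_aleph0
  · have hI : Nonempty I := by
      obtain ⟨i, _⟩ := hE ∅
      exact ⟨i⟩
    obtain ⟨P, hP, hPs⟩ := ulam' hA K
      (by
        rintro W W' ⟨Q, hQ, hsub⟩ hW
        exact ⟨Q, hQ, hW.trans hsub⟩)
      (by
        intro W hW
        choose Q hQ hsub using hW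
        refine ⟨fun n => Q (Nat.unpair n).1 (Nat.unpair n).2, fun n => hQ _ _, ?_⟩
        intro a ha
        obtain ⟨n, hn⟩ := mem_iUnion.1 ha
        obtain ⟨k, hk⟩ := mem_iUnion.1 (hsub n hn)
        refine mem_iUnion.2 ⟨Nat.pair n k, ?_⟩
        simpa using hk)
      (by
        intro a
        refine ⟨fun _ => {a}, fun n h => ⟨Classical.arbitrary I, fun b _ => ⟨h a, ?_⟩⟩, ?_⟩
        · rintro c hc _
          rw [mem_singleton_iff] at hc
          rw [hc]
        · intro b hb
          exact mem_iUnion.2 ⟨0, hb⟩)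
      hK
    have hPg : ∀ a, ∃ h : A → ℕ, ∀ i, ∃ b ∈ P a, ∀ n, ∃ c ∈ P a, (E i) b c ∧ n < h c := by
      intro a
      by_contra hcon
      apply hPs a
      refine ⟨fun _ => P a, fun n h => ?_, fun b hb => mem_iUnion.2 ⟨0, hb⟩⟩
      by_contra hcon2
      apply hcon
      refine ⟨h, fun i => ?_⟩
      push Not at hcon2
      obtain ⟨b, hb, hb2⟩ := hcon2 i
      exact ⟨b, hb, hb2⟩
    choose h b hb hbu using hPg
    let Z : (A → ℕ) → Set A := fun y => {β | ∃ a, β ∈ P a ∧ y a ≤ h a β}
    choose ι hι using fun y => hE.symm (Z y)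
    apply Cardinal.mk_le_mk_mul_of_mk_preimage_le (fun y : 𝒴 => ι y.1)
    intro i
    have hfin : {y : A → ℕ | y ∈ 𝒴 ∧ ι y = i}.Finite := by
      refine finite_of_bounded r hA hc _ ?_ univ (uncountable_of_card hA)
        (fun a => h a (b a i)) ?_
      · rintro x ⟨hx, _⟩ y ⟨hy, _⟩ hxy
        exact hev x hx y hy hxy
      · rintro y ⟨_, rfl⟩ a _
        obtain ⟨c, hcP, hbc, hlt⟩ := hbu a (ι y) (y a)
        have h1 : c ∈ Z y := ⟨a, hcP, hlt.le⟩
        have h2 := (hι y _ _ hbc).2 h1
        obtain ⟨a', ha', h3⟩ := h2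
        have : a' = a := by
          by_contra hne
          exact Set.disjoint_left.1 (hP a' a hne) ha' (hb a (ι y))
        rwa [this] at h3
    have hc2 : ((fun y : 𝒴 => ι y.1) ⁻¹' {i}).Countable := by
      have := hfin.countable.preimage (f := fun y : 𝒴 => y.1) Subtype.val_injective
      refine this.mono ?_
      intro y hy
      exact ⟨y.2, hy⟩
    exact hc2.le_aleph0

end Pool.Agent.Lib.MP_8f36f1_h17
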