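import Mathlib
import Pool.Agent.Lib.MP_8f36f1_h17.Comb

open Cardinal Set

universe u v w

namespace Pool.Agent.Lib.MP_8f36f1_h17

/-- the equivalence relation generated by `f y ∩ f z ≠ ∅`. -/
def linkSetoid {X : Type u} {Y : Set X} (f : Y → Set X) : Setoid Y :=
  Relation.EqvGen.setoid (fun y z => ¬ Disjoint (f y) (f z))

theorem linkSetoid_of {X : Type u} {Y : Set X} {f : Y → Set X} {y z : Y}
    (h : ¬ Disjoint (f y) (f z)) : (linkSetoid f) y z :=
  Relation.EqvGen.rel _ _ h

theorem linkSetoid_witness {X : Type u} {Y : Set X} {f : Y → Set X} {Z : Set Y}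
    (h : Witnesses f Z) {y z : Y} (hyz : (linkSetoid f) y z) : y ∈ Z ↔ z ∈ Z := by
  have hyz' : Relation.EqvGen (fun y z => ¬ Disjoint (f y) (f z)) y z := hyz
  clear hyz
  induction hyz' with
  | rel y z hyz =>
    by_contra hne
    apply hyz
    have h' := Set.disjoint_left.1 h
    rw [Set.disjoint_left]
    intro x hx hx'
    by_cases hy : y ∈ Z
    · have hz : z ∉ Z := fun hz => hne ⟨fun _ => hz, fun _ => hy⟩
      exact h' (mem_iUnion₂.2 ⟨y, hy, hx⟩) (mem_iUnion₂.2 ⟨z, hz, hx'⟩)
    · have hz : z ∈ Z := by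
        by_contra hz
        exact hne ⟨fun h => absurd h hy, fun h => absurd h hz⟩
      exact h' (mem_iUnion₂.2 ⟨z, hz, hx'⟩) (mem_iUnion₂.2 ⟨y, hy, hx⟩)
  | refl => exact Iff.rfl
  | symm y z _ ih => exact ih.symm
  | trans x y z _ _ ih1 ih2 => exact ih1.trans ih2

/-- The family of equivalence relations attached to a family of basic functions. -/
def linkFamily {X : Type u} {Y : Set X} (F : Set (Y → Set X)) : F → Setoid Y :=
  fun f => linkSetoid f.1

theorem measures_linkFamily {X : Type u} {Y : Set X} {B : Y → Set (Set X)}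
    {F : Set (Y → Set X)} (hF : WitnessingFamily B F) : Measures (linkFamily F) := by
  intro Z
  obtain ⟨f, hf, hfZ⟩ := hF.2 Z
  exact ⟨⟨f, hf⟩, fun a b hab => (linkSetoid_witness hfZ hab).1⟩

theorem separated_of_small {X : Type u} [TopologicalSpace X] {Y : Set X}
    {B : Y → Set (Set X)} {F : Set (Y → Set X)} (hY : Setting Y B) (hF : WitnessingFamily B F)
    (h : Small (linkFamily F) univ) : Separated Y := by
  obtain ⟨s, hs⟩ := h
  refine ⟨fun y => ⋂ f ∈ s y, f.1 y, ?_, ?_⟩
  · intro y
    refine ⟨?_, ?_⟩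
    · exact isOpen_biInter_finset fun f _ => hY.isOpen y _ (hF.1 f.1 f.2 y)
    · exact mem_iInter₂.2 fun f _ => hY.mem y _ (hF.1 f.1 f.2 y)
  · intro y z hyz
    obtain ⟨f, hf1, hf2, hf3⟩ := hs y (mem_univ _) z (mem_univ _) hyz
    have hd : Disjoint (f.1 y) (f.1 z) := by
      by_contra h
      exact hf3 (linkSetoid_of h)
    exact hd.mono (iInter₂_subset f hf1) (iInter₂_subset f hf2)

theorem countable_classes {X : Type u} [TopologicalSpace X] {Y : Set X}
    {B : Y → Set (Set X)} {F : Set (Y → Set X)} (hY : Setting Y B) (hF : WitnessingFamily B F)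
    (h : ¬ WeaklySeparated Y) (f : Y → Set X) (hf : f ∈ F) :
    Countable (Quotient (linkSetoid f)) := by
  classical
  by_contra hc
  apply h
  let r : Quotient (linkSetoid f) → Y := Quotient.out
  have hr : Function.Injective r := Quotient.out_injective
  let W : Set X := range fun q => (r q : X)
  have hinj : Function.Injective fun q => (r q : X) := Subtype.val_injective.comp hr
  refine ⟨W, ?_, ?_, ?_⟩
  · rintro _ ⟨q, rfl⟩
    exact (r q).2
  · intro hW
    apply hc
    rw [← Set.countable_univ_iff]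
    have : (range fun q => (r q : X)).Countable := hW
    rw [← image_univ] at this
    exact (Set.countable_of_injective_of_countable_image hinj.injOn this)
  · have hWY : ∀ w : W, (w : X) ∈ Y := by
      rintro ⟨_, ⟨q, rfl⟩⟩
      exact (r q).2
    refine ⟨fun w => f ⟨w, hWY w⟩, ?_, ?_⟩
    · intro w
      have := hF.1 f hf ⟨w, hWY w⟩
      exact ⟨hY.isOpen _ _ this, hY.mem _ _ this⟩
    · rintro ⟨_, ⟨q, rfl⟩⟩ ⟨_, ⟨q', rfl⟩⟩ hne
      by_contra hd
      have h1 : (linkSetoid f) (r q) (r q') := linkSetoid_of hd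
      have h2 : q = q' := by
        have := Quotient.sound h1
        rwa [Quotient.out_eq, Quotient.out_eq] at this
      exact hne (by simp [h2])

end Pool.Agent.Lib.MP_8f36f1_h17
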