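import Mathlib

open Set

universe u

namespace Pool.Agent.Lib.MP_8f36f1_h17

/-! Walks on a well ordered set with countable initial segments. -/

/-- The data: for every `β` an injection `g β` of the initial segment of `β` into `ℕ`, and the
least element `o`. -/
structure Walk (A : Type u) [LinearOrder A] [WellFoundedLT A] where
  g : A → A → ℕ
  inj : ∀ β, InjOn (g β) (Iio β)
  o : A
  o_le : ∀ a, o ≤ a

namespace Walk

variable {A : Type u} [LinearOrder A] [WellFoundedLT A] (w : Walk A)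

theorem exists_walk (hc : ∀ a : A, (Iio a).Countable) (hne : Nonempty A) :
    Nonempty (Walk A) := by
  have h : ∀ β : A, ∃ g : A → ℕ, InjOn g (Iio β) := fun β =>
    Set.countable_iff_exists_injOn.1 (hc β)
  choose g hg using h
  exact ⟨⟨g, hg, WellFounded.min wellFounded_lt univ univ_nonempty, fun a =>
    WellFounded.min_le wellFounded_lt (mem_univ a)⟩⟩

/-- the ladder at `β`. -/
def C (β : A) : Set A := {c | c < β ∧ ∀ ξ < β, w.g β ξ < w.g β c → ξ < c}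

theorem exists_C {β ξ : A} (h : ξ < β) : ∃ c ∈ w.C β, ξ ≤ c := by
  classical
  have hex : ∃ n, ∃ c, c < β ∧ ξ ≤ c ∧ w.g β c = n := ⟨_, ξ, h, le_rfl, rfl⟩
  obtain ⟨c, hc, hξ, hn⟩ := Nat.find_spec hex
  refine ⟨c, ⟨hc, fun ξ' h1 h2 => ?_⟩, hξ⟩
  by_contra h3
  push Not at h3
  have := Nat.find_min hex (m := w.g β ξ') (by rw [← hn]; exact h2)
  exact this ⟨ξ', h1, hξ.trans h3, rfl⟩

theorem C_finite {β ξ : A} (h : ξ < β) : {c | c ∈ w.C β ∧ c < ξ}.Finite := by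
  have h1 : ∀ c ∈ {c | c ∈ w.C β ∧ c < ξ}, w.g β c ≤ w.g β ξ := by
    rintro c ⟨hc, hlt⟩
    by_contra h2
    push Not at h2
    exact absurd (hc.2 ξ h h2) (not_lt.2 hlt.le)
  refine Set.Finite.of_finite_image ((Set.finite_Iic (w.g β ξ)).subset ?_)
    ((w.inj β).mono (fun c hc => hc.1.1))
  rintro _ ⟨c, hc, rfl⟩
  exact h1 c hc

/-- the step of the walk from `β` towards `α`. -/
noncomputable def nx (α β : A) : A := by
  classical
  exact if h : ∃ c, c ∈ w.C β ∧ α ≤ c then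
    WellFounded.min wellFounded_lt {c | c ∈ w.C β ∧ α ≤ c} h else β

theorem nx_mem {α β : A} (h : α < β) : w.nx α β ∈ w.C β ∧ α ≤ w.nx α β := by
  classical
  have h1 : ∃ c, c ∈ w.C β ∧ α ≤ c := w.exists_C h
  unfold nx
  rw [dif_pos h1]
  exact WellFounded.min_mem wellFounded_lt {c | c ∈ w.C β ∧ α ≤ c} h1

theorem nx_le {α β c : A} (h : α < β) (hc : c ∈ w.C β) (hα : α ≤ c) : w.nx α β ≤ c := by
  classical
  have h1 : ∃ c, c ∈ w.C β ∧ α ≤ c := w.exists_C h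
  unfold nx
  rw [dif_pos h1]
  exact WellFounded.min_le wellFounded_lt (show c ∈ {c | c ∈ w.C β ∧ α ≤ c} from ⟨hc, hα⟩)

theorem nx_lt {α β : A} (h : α < β) : w.nx α β < β := (w.nx_mem h).1.1

/-- the last element of the ladder at `β` below `α`. -/
noncomputable def mx (α β : A) : A := by
  classical
  exact if h : ∃ c, c ∈ w.C β ∧ c < α ∧ ∀ c' ∈ w.C β, c' < α → c' ≤ c then h.choose else w.o

theorem exists_max {α β : A} (h : α < β) (hex : ∃ c, c ∈ w.C β ∧ c < α) :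
    ∃ c, c ∈ w.C β ∧ c < α ∧ ∀ c' ∈ w.C β, c' < α → c' ≤ c := by
  have hfin := w.C_finite h
  obtain ⟨c, hc, hmax⟩ := Set.exists_max_image _ id hfin hex
  exact ⟨c, hc.1, hc.2, fun c' h1 h2 => hmax c' ⟨h1, h2⟩⟩

theorem mx_spec {α β : A} (h : α < β) (hex : ∃ c, c ∈ w.C β ∧ c < α) :
    w.mx α β ∈ w.C β ∧ w.mx α β < α ∧ ∀ c' ∈ w.C β, c' < α → c' ≤ w.mx α β := by
  have h1 := w.exists_max h hex
  unfold mx
  rw [dif_pos h1]
  exact h1.choose_spec

theorem mx_eq {α β : A} (hex : ¬ ∃ c, c ∈ w.C β ∧ c < α) : w.mx α β = w.o := by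
  have h1 : ¬ ∃ c, c ∈ w.C β ∧ c < α ∧ ∀ c' ∈ w.C β, c' < α → c' ≤ c := by
    rintro ⟨c, h1, h2, _⟩
    exact hex ⟨c, h1, h2⟩
  unfold mx
  rw [dif_neg h1]

theorem mx_lt {α β : A} (h : α < β) (ho : w.o < α) : w.mx α β < α := by
  by_cases hex : ∃ c, c ∈ w.C β ∧ c < α
  · exact (w.mx_spec h hex).2.1
  · rw [w.mx_eq hex]
    exact ho

theorem le_mx {α β c : A} (h : α < β) (hc : c ∈ w.C β) (hcα : c < α) : c ≤ w.mx α β :=
  (w.mx_spec h ⟨c, hc, hcα⟩).2.2 c hc hcα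

/-- the lower trace of the walk from `β` to `α`. -/
noncomputable def L (α : A) : A → Finset A := by
  classical
  exact WellFounded.fix (C := fun _ => Finset A) (wellFounded_lt (α := A)) fun β rec =>
    if h : α < β then
      (insert (w.mx α β) (rec (w.nx α β) (w.nx_lt h))).filter (fun ξ => w.mx α β ≤ ξ)
    else ∅

theorem L_of_lt {α β : A} (h : α < β) : ∀ ξ, ξ ∈ w.L α β ↔
    (ξ = w.mx α β ∨ ξ ∈ w.L α (w.nx α β)) ∧ w.mx α β ≤ ξ := by
  classical
  intro ξ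
  have h1 : w.L α β = (insert (w.mx α β) (w.L α (w.nx α β))).filter
      (fun ξ => w.mx α β ≤ ξ) := by
    conv_lhs => unfold L
    rw [WellFounded.fix_eq]
    rw [dif_pos h]
    rfl
  rw [h1, Finset.mem_filter, Finset.mem_insert]

theorem L_self (α : A) : w.L α α = ∅ := by
  classical
  unfold L
  rw [WellFounded.fix_eq]
  rw [dif_neg (lt_irrefl α)]

theorem mx_mem_L {α β : A} (h : α < β) : w.mx α β ∈ w.L α β :=
  (w.L_of_lt h _).2 ⟨Or.inl rfl, le_rfl⟩

theorem mx_le_of_mem {α β ξ : A} (h : α < β) (hξ : ξ ∈ w.L α β) : w.mx α β ≤ ξ :=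
  ((w.L_of_lt h _).1 hξ).2

theorem L_lt {α : A} (ho : w.o < α) : ∀ β, ∀ ξ ∈ w.L α β, ξ < α := by
  intro β
  induction β using WellFoundedLT.induction with
  | ind β ih =>
    intro ξ hξ
    by_cases h : α < β
    · rcases ((w.L_of_lt h _).1 hξ).1 with h1 | h1
      · rw [h1]; exact w.mx_lt h ho
      · exact ih _ (w.nx_lt h) ξ h1
    · exfalso
      classical
      unfold L at hξ
      rw [WellFounded.fix_eq] at hξ
      rw [dif_neg h] at hξ
      simp at hξ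

/-- the concatenation property of the lower trace. -/
theorem L_union {α β : A} (ho : w.o < α) (hαβ : α < β) : ∀ γ, β ≤ γ →
    (∀ x ∈ w.L β γ, ∀ y ∈ w.L α β, x < y) →
    ∀ ξ, ξ ∈ w.L α γ ↔ ξ ∈ w.L α β ∨ ξ ∈ w.L β γ := by
  intro γ
  induction γ using WellFoundedLT.induction with
  | ind γ ih =>
    intro hβγ hlt ξ
    rcases hβγ.eq_or_lt with rfl | hβγ
    · rw [w.L_self]
      simp
    have hαγ := hαβ.trans hβγ
    have hy := w.mx_mem_L hαβ
    have hyα : w.mx α β < α := w.mx_lt hαβ ho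
    have hm := w.mx_mem_L hβγ
    have hmα : w.mx β γ < α := (hlt _ hm _ hy).trans hyα
    -- the ladder at `γ` has the same elements below `α` and below `β`
    have hsame : ∀ c ∈ w.C γ, c < β → c < α := fun c hc hcβ =>
      lt_of_le_of_lt (w.le_mx hβγ hc hcβ) hmα
    have hmx : w.mx α γ = w.mx β γ := by
      by_cases hex : ∃ c, c ∈ w.C γ ∧ c < α
      · have h1 := w.mx_spec hαγ hex
        obtain ⟨c, hc, hcα⟩ := hex
        have h2 := w.mx_spec hβγ ⟨c, hc, hcα.trans hαβ⟩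
        exact le_antisymm (h2.2.2 _ h1.1 (h1.2.1.trans hαβ)) (h1.2.2 _ h2.1 hmα)
      · have hex' : ¬ ∃ c, c ∈ w.C γ ∧ c < β := by
          rintro ⟨c, hc, hcβ⟩
          exact hex ⟨c, hc, hsame c hc hcβ⟩
        rw [w.mx_eq hex, w.mx_eq hex']
    have hnx : w.nx α γ = w.nx β γ := by
      have h1 := w.nx_mem hαγ
      have h2 := w.nx_mem hβγ
      apply le_antisymm
      · exact w.nx_le hαγ h2.1 (hαβ.le.trans h2.2)
      · apply w.nx_le hβγ h1.1
        by_contra h3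
        push Not at h3
        exact absurd (hsame _ h1.1 h3) (not_lt.2 h1.2)
    have hc := w.nx_mem hβγ
    have hlt' : ∀ x ∈ w.L β (w.nx β γ), ∀ y ∈ w.L α β, x < y := by
      intro x hx y hy
      rcases le_or_gt (w.mx β γ) x with h1 | h1
      · exact hlt x ((w.L_of_lt hβγ x).2 ⟨Or.inr hx, h1⟩) y hy
      · exact h1.trans (hlt _ hm y hy)
    have hIH := ih _ (w.nx_lt hβγ) hc.2 hlt' ξ
    rw [w.L_of_lt hαγ, w.L_of_lt hβγ, hmx, hnx, hIH]
    constructor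
    · rintro ⟨h1 | h1 | h1, h2⟩
      · exact Or.inr ⟨Or.inl h1, h2⟩
      · exact Or.inl h1
      · exact Or.inr ⟨Or.inr h1, h2⟩
    · rintro (h1 | ⟨h1 | h1, h2⟩)
      · exact ⟨Or.inr (Or.inl h1), (hlt _ hm _ h1).le⟩
      · exact ⟨Or.inl h1, h2⟩
      · exact ⟨Or.inr (Or.inr h1), h2⟩

/-- the lower trace tends to `δ`. -/
theorem exists_L_ge {δ ζ : A} (h : ζ < δ) : ∃ η < δ, ∀ α, η < α → α < δ →
    ∀ ξ ∈ w.L α δ, ζ ≤ ξ := by
  obtain ⟨c, hc, hζc⟩ := w.exists_C h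
  refine ⟨c, hc.1, fun α hα hαδ ξ hξ => ?_⟩
  exact hζc.trans ((w.le_mx hαδ hc hα).trans (w.mx_le_of_mem hαδ hξ))

end Walk

end Pool.Agent.Lib.MP_8f36f1_h17
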