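import Mathlib
import Pool.Agent.Lib.MP_8f36f1_h17.Walk

open Set

universe u

namespace Pool.Agent.Lib.MP_8f36f1_h17

namespace Walk

variable {A : Type u} [LinearOrder A] [WellFoundedLT A] (w : Walk A)

/-- the maximal weight of the walk from `β` to `ξ`. -/
noncomputable def e (β : A) (ξ : A) : ℕ := by
  classical
  exact WellFounded.fix (C := fun _ => ℕ) (wellFounded_lt (α := A)) (fun β rec =>
    if h : ξ < β then
      max ({c | c ∈ w.C β ∧ c < ξ}.ncard) (rec (w.nx ξ β) (w.nx_lt h))
    else 0) β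

theorem e_of_lt {β ξ : A} (h : ξ < β) :
    w.e β ξ = max ({c | c ∈ w.C β ∧ c < ξ}.ncard) (w.e (w.nx ξ β) ξ) := by
  classical
  conv_lhs => unfold e
  rw [WellFounded.fix_eq]
  rw [dif_pos h]
  rfl

theorem e_finite : ∀ (β : A) (n : ℕ), {ξ | ξ < β ∧ w.e β ξ ≤ n}.Finite := by
  intro β
  induction β using WellFoundedLT.induction with
  | ind β ih =>
    intro n
    -- the elements of the ladder with at most `n` predecessors
    have hD : {c | c ∈ w.C β ∧ {c' | c' ∈ w.C β ∧ c' < c}.ncard ≤ n}.Finite := by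
      by_contra hinf
      obtain ⟨t, ht, hcard⟩ := Set.Infinite.exists_subset_card_eq hinf (n + 2)
      have hne : t.Nonempty := by
        rw [← Finset.card_pos]; omega
      have hmax := Finset.max'_mem t hne
      have h1 := ht hmax
      have h2 : (↑(t.erase (t.max' hne)) : Set A) ⊆
          {c' | c' ∈ w.C β ∧ c' < t.max' hne} := by
        intro c hc
        have hc' := Finset.mem_erase.1 (Finset.mem_coe.1 hc)
        exact ⟨(ht hc'.2).1, lt_of_le_of_ne (Finset.le_max' t c hc'.2) hc'.1⟩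
      have h3 := Set.ncard_le_ncard h2 (w.C_finite h1.1.1)
      rw [Set.ncard_coe_finset, Finset.card_erase_of_mem hmax, hcard] at h3
      have h4 := h1.2
      omega
    refine (hD.biUnion (t := fun c => {ξ | ξ < c ∧ w.e c ξ ≤ n} ∪ {c}) ?_).subset ?_
    · intro c hc
      exact (ih c hc.1.1 n).union (finite_singleton c)
    · rintro ξ ⟨hξ, hn⟩
      rw [w.e_of_lt hξ, max_le_iff] at hn
      have hc := w.nx_mem hξ
      have hsub : {c' | c' ∈ w.C β ∧ c' < w.nx ξ β} ⊆ {c' | c' ∈ w.C β ∧ c' < ξ} := by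
        rintro c' ⟨h1, h2⟩
        refine ⟨h1, ?_⟩
        by_contra h3
        push Not at h3
        exact absurd (w.nx_le hξ h1 h3) (not_le.2 h2)
      refine mem_iUnion₂.2 ⟨w.nx ξ β, ⟨hc.1, ?_⟩, ?_⟩
      · exact (Set.ncard_le_ncard hsub (w.C_finite hξ)).trans hn.1
      · rcases hc.2.eq_or_lt with h | h
        · exact Or.inr h
        · exact Or.inl ⟨h, hn.2⟩

theorem e_coherent : ∀ (β α : A), α < β → {ξ | ξ < α ∧ w.e α ξ ≠ w.e β ξ}.Finite := by
  intro β
  induction β using WellFoundedLT.induction with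
  | ind β ih =>
    intro α hαβ
    set D : Set A := {c | c ∈ w.C β ∧ c < α} ∪ {w.nx α β} with hDdef
    have hD : D.Finite := (w.C_finite hαβ).union (finite_singleton _)
    have hDβ : ∀ c ∈ D, c < β := by
      rintro c (hc | hc)
      · exact hc.1.1
      · rw [mem_singleton_iff] at hc
        rw [hc]
        exact w.nx_lt hαβ
    set m : ℕ := {c | c ∈ w.C β ∧ c < α}.ncard with hm
    have hcoh : ∀ c ∈ D, {ξ | ξ < c ∧ ξ < α ∧ w.e c ξ ≠ w.e α ξ}.Finite := by
      rintro c (hc | hc)
      · exact (ih α hαβ c hc.2).subset fun ξ h => ⟨h.1, h.2.2⟩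
      · rw [mem_singleton_iff] at hc
        subst hc
        rcases (w.nx_mem hαβ).2.eq_or_lt with h | h
        · rw [← h]
          convert finite_empty
          ext ξ
          simp
        · exact (ih _ (w.nx_lt hαβ) α h).subset fun ξ h => ⟨h.2.1, h.2.2.symm⟩
    refine (hD.biUnion (t := fun c => {ξ | ξ < c ∧ w.e c ξ ≤ m} ∪
      ({ξ | ξ < c ∧ ξ < α ∧ w.e c ξ ≠ w.e α ξ} ∪ {c})) ?_).subset ?_
    · intro c hc
      exact (w.e_finite c m).union ((hcoh c hc).union (finite_singleton c))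
    · rintro ξ ⟨hξα, hne⟩
      have hξβ := hξα.trans hαβ
      have hc := w.nx_mem hξβ
      have hcD : w.nx ξ β ∈ D := by
        rcases lt_or_ge (w.nx ξ β) α with h | h
        · exact Or.inl ⟨hc.1, h⟩
        · right
          rw [mem_singleton_iff]
          apply le_antisymm
          · exact w.nx_le hξβ (w.nx_mem hαβ).1 (hξα.le.trans (w.nx_mem hαβ).2)
          · exact w.nx_le hαβ hc.1 h
      refine mem_iUnion₂.2 ⟨w.nx ξ β, hcD, ?_⟩
      rcases hc.2.eq_or_lt with h | h
      · exact Or.inr (Or.inr h)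
      · by_cases h1 : w.e (w.nx ξ β) ξ ≤ m
        · exact Or.inl ⟨h, h1⟩
        · right; left
          refine ⟨h, hξα, fun h2 => hne ?_⟩
          push Not at h1
          rw [w.e_of_lt hξβ, ← h2]
          have h3 : {c | c ∈ w.C β ∧ c < ξ}.ncard ≤ m :=
            Set.ncard_le_ncard (fun c hc => ⟨hc.1, hc.2.trans hξα⟩) (w.C_finite hαβ)
          rw [max_eq_right (h3.trans h1.le)]

/-- two of the functions differ below `δ` only at finitely many places. -/
theorem e_coherent' {δ a b : A} (ha : δ ≤ a) (hb : δ ≤ b) :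
    {ξ | ξ < δ ∧ w.e a ξ ≠ w.e b ξ}.Finite := by
  rcases lt_trichotomy a b with h | h | h
  · exact (w.e_coherent b a h).subset fun ξ hξ => ⟨hξ.1.trans_le ha, hξ.2⟩
  · subst h
    convert finite_empty
    ext ξ
    simp
  · exact (w.e_coherent a b h).subset fun ξ hξ => ⟨hξ.1.trans_le hb, hξ.2.symm⟩

end Walk

end Pool.Agent.Lib.MP_8f36f1_h17
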