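import Mathlib
import Pool.Agent.Lib.MP_8f36f1_h17.Rho

open Set

universe u v

namespace Pool.Agent.Lib.MP_8f36f1_h17

variable {A : Type u} [LinearOrder A] [WellFoundedLT A]

/-- unbounded subsets. -/
def Unb (X : Set A) : Prop := ∀ γ, ∃ a ∈ X, γ < a

theorem exists_gt_countable (hc : ∀ a : A, (Iio a).Countable)
    (hunc : ¬ (univ : Set A).Countable) {S : Set A} (hS : S.Countable) : ∃ a, ∀ x ∈ S, x < a := by
  by_contra hcon
  push Not at hcon
  apply hunc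
  have hsub : (univ : Set A) ⊆ ⋃ x ∈ S, Iic x := by
    intro a _
    obtain ⟨x, hx, hax⟩ := hcon a
    exact mem_iUnion₂.2 ⟨x, hx, hax⟩
  refine (hS.biUnion fun x _ => ?_).mono hsub
  have : Iic x = Iio x ∪ {x} := by
    ext y
    simp [le_iff_lt_or_eq]
  rw [this]
  exact (hc x).union (countable_singleton x)

theorem unb_of_uncountable (hc : ∀ a : A, (Iio a).Countable) {X : Set A}
    (hX : ¬ X.Countable) : Unb X := by
  intro γ
  by_contra hcon
  push Not at hcon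
  apply hX
  have : Iic γ = Iio γ ∪ {γ} := by
    ext y
    simp [le_iff_lt_or_eq]
  refine Set.Countable.mono (s₂ := Iic γ) hcon ?_
  rw [this]
  exact (hc γ).union (countable_singleton γ)

theorem exists_closure {D : Type v} (hc : ∀ a : A, (Iio a).Countable)
    (hunc : ¬ (univ : Set A).Countable) (supp : D → Finset A)
    (hsupp : ∀ γ, {d | ∀ ξ ∈ supp d, ξ < γ}.Countable) (G : D → A) (γ₀ : A) :
    ∃ δ, γ₀ < δ ∧ (∀ γ < δ, ∃ γ' < δ, γ < γ') ∧ ∀ d, (∀ ξ ∈ supp d, ξ < δ) → G d < δ := by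
  have hs : ∀ γ, ∃ b, γ < b ∧ ∀ d, (∀ ξ ∈ supp d, ξ < γ) → G d < b := by
    intro γ
    obtain ⟨b, hb⟩ := exists_gt_countable hc hunc
      (((hsupp γ).image G).union (countable_singleton γ))
    exact ⟨b, hb γ (Or.inr rfl), fun d hd => hb _ (Or.inl ⟨d, hd, rfl⟩)⟩
  choose s hs1 hs2 using hs
  let δ' : ℕ → A := fun n => s^[n] γ₀
  have hδ' : ∀ n, δ' (n + 1) = s (δ' n) := fun n => Function.iterate_succ_apply' s n γ₀
  have hmono : StrictMono δ' := strictMono_nat_of_lt_succ fun n => by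
    rw [hδ']
    exact hs1 _
  have hne : {a | ∀ n, δ' n < a}.Nonempty := by
    obtain ⟨b, hb⟩ := exists_gt_countable hc hunc (countable_range δ')
    exact ⟨b, fun n => hb _ ⟨n, rfl⟩⟩
  obtain ⟨δ, hδ, hmin⟩ : ∃ δ, (∀ n, δ' n < δ) ∧ ∀ γ < δ, ∃ n, γ ≤ δ' n := by
    refine ⟨WellFounded.min wellFounded_lt _ hne, WellFounded.min_mem wellFounded_lt _ hne, ?_⟩
    intro γ hγ
    by_contra hcon
    push Not at hcon
    exact absurd (WellFounded.min_le wellFounded_lt (show γ ∈ {a | ∀ n, δ' n < a} from hcon))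
      (not_le.2 hγ)
  refine ⟨δ, hδ 0, ?_, ?_⟩
  · intro γ hγ
    obtain ⟨n, hn⟩ := hmin γ hγ
    exact ⟨δ' (n + 1), hδ _, lt_of_le_of_lt hn (hmono (Nat.lt_succ_self n))⟩
  · intro d hd
    have hex : ∃ n, ∀ ξ ∈ supp d, ξ < δ' n := by
      have h1 : ∀ ξ ∈ supp d, ∃ n, ξ < δ' n := by
        intro ξ hξ
        obtain ⟨n, hn⟩ := hmin ξ (hd ξ hξ)
        exact ⟨n + 1, lt_of_le_of_lt hn (hmono (Nat.lt_succ_self n))⟩
      choose! n hn using h1
      refine ⟨(supp d).sup n, fun ξ hξ => (hn ξ hξ).trans_le (hmono.monotone ?_)⟩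
      exact Finset.le_sup (f := n) hξ
    obtain ⟨n, hn⟩ := hex
    have := hs2 (δ' n) d hn
    rw [← hδ'] at this
    exact this.trans (hδ _)

theorem countable_finset {B : Type v} {S : Set B} (hS : S.Countable) :
    {F : Finset B | ∀ x ∈ F, x ∈ S}.Countable := by
  classical
  have : Countable S := hS
  refine (countable_range (fun F' : Finset S => F'.map (Function.Embedding.subtype _))).mono ?_
  intro F hF
  refine ⟨F.subtype (· ∈ S), ?_⟩
  ext x
  simp only [Finset.mem_map, Finset.mem_subtype, Function.Embedding.coe_subtype]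
  constructor
  · rintro ⟨y, hy, rfl⟩
    exact hy
  · intro hx
    exact ⟨⟨x, hF x hx⟩, hx, rfl⟩

/-- the data. -/
abbrev Data (A : Type u) := Finset A × Finset (A × ℕ) × Finset (A × ℕ) × A × A

open Classical in
/-- the ordinals occurring in a datum. -/
noncomputable def supp (d : Data A) : Finset A :=
  d.1 ∪ (d.2.1.image Prod.fst ∪ (d.2.2.1.image Prod.fst ∪ {d.2.2.2.1, d.2.2.2.2}))

theorem supp_lt {d : Data A} {γ : A} : (∀ ξ ∈ supp d, ξ < γ) ↔ (∀ x ∈ d.1, x < γ) ∧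
    (∀ x ∈ d.2.1, x.1 < γ) ∧ (∀ x ∈ d.2.2.1, x.1 < γ) ∧ d.2.2.2.1 < γ ∧ d.2.2.2.2 < γ := by
  classical
  unfold supp
  simp only [Finset.mem_union, Finset.mem_image, Finset.mem_insert, Finset.mem_singleton]
  constructor
  · intro h
    refine ⟨fun x hx => h x (Or.inl hx), fun x hx => h x.1 (Or.inr (Or.inl ⟨x, hx, rfl⟩)),
      fun x hx => h x.1 (Or.inr (Or.inr (Or.inl ⟨x, hx, rfl⟩))), ?_, ?_⟩
    · exact h _ (Or.inr (Or.inr (Or.inr (Or.inl rfl))))
    · exact h _ (Or.inr (Or.inr (Or.inr (Or.inr rfl))))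
  · rintro ⟨h1, h2, h3, h4, h5⟩ ξ (h | ⟨x, hx, rfl⟩ | ⟨x, hx, rfl⟩ | rfl | rfl)
    · exact h1 ξ h
    · exact h2 x hx
    · exact h3 x hx
    · exact h4
    · exact h5

theorem supp_countable (hc : ∀ a : A, (Iio a).Countable) (γ : A) :
    {d : Data A | ∀ ξ ∈ supp d, ξ < γ}.Countable := by
  have h1 : {F : Finset A | ∀ x ∈ F, x ∈ Iio γ}.Countable := countable_finset (hc γ)
  have h2 : {q : Finset (A × ℕ) | ∀ x ∈ q, x ∈ {x : A × ℕ | x.1 < γ}}.Countable := by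
    apply countable_finset
    have := (hc γ).prod (countable_univ (α := ℕ))
    refine this.mono ?_
    rintro ⟨x, n⟩ hx
    exact ⟨hx, mem_univ _⟩
  refine (h1.prod (h2.prod (h2.prod ((hc γ).prod (hc γ))))).mono ?_
  intro d hd
  obtain ⟨h3, h4, h5, h6, h7⟩ := supp_lt.1 hd
  exact ⟨h3, h4, h5, h6, h7⟩

/-- unboundedness of values on finite sets. -/
theorem exists_tau (w : Walk A) (hc : ∀ a : A, (Iio a).Countable)
    (hunc : ¬ (univ : Set A).Countable) {X : Set A} (hX : Unb X) :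
    ∃ τ, ∀ K : Finset A, (∀ ξ ∈ K, τ ≤ ξ) → ∀ (n : ℕ) (γ : A), ∃ a ∈ X, γ < a ∧
      (∀ ξ ∈ K, ξ < a) ∧ ∀ ξ ∈ K, n < w.e a ξ := by
  have key : ∀ n : ℕ, ∃ τ, ∀ K : Finset A, (∀ ξ ∈ K, τ ≤ ξ) → ∀ (γ : A), ∃ a ∈ X, γ < a ∧
      (∀ ξ ∈ K, ξ < a) ∧ ∀ ξ ∈ K, n < w.e a ξ := by
    intro n
    by_contra hcon
    push Not at hcon
    choose K hK γ hγ using hcon
    have hu : ∀ τ, ∃ u, τ < u ∧ ∀ ξ ∈ K τ, ξ < u := by
      intro τ
      obtain ⟨u, hu⟩ := exists_gt_countable hc hunc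
        (((K τ).countable_toSet).union (countable_singleton τ))
      exact ⟨u, hu τ (Or.inr rfl), fun ξ hξ => hu ξ (Or.inl hξ)⟩
    choose u hu1 hu2 using hu
    let τ : ℕ → A := fun m => u^[m] w.o
    have hτ : ∀ m, τ (m + 1) = u (τ m) := fun m => Function.iterate_succ_apply' u m w.o
    have hmono : StrictMono τ := strictMono_nat_of_lt_succ fun m => by
      rw [hτ]
      exact hu1 _
    obtain ⟨b, hb⟩ := exists_gt_countable hc hunc
      ((countable_range τ).union (countable_range (fun m => γ (τ m))))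
    obtain ⟨a, haX, hba⟩ := hX b
    have hex : ∀ m, ∃ ξ ∈ K (τ m), w.e a ξ ≤ n := by
      intro m
      apply hγ (τ m) a haX
      · exact (hb _ (Or.inr ⟨m, rfl⟩)).trans hba
      · intro ξ hξ
        refine (hu2 (τ m) ξ hξ).trans ?_
        rw [← hτ]
        exact (hb _ (Or.inl ⟨m + 1, rfl⟩)).trans hba
    choose ξ hξ1 hξ2 using hex
    have hlt : ∀ m, ξ m < τ (m + 1) := fun m => by
      rw [hτ]
      exact hu2 _ _ (hξ1 m)
    have hξm : StrictMono ξ := strictMono_nat_of_lt_succ fun m =>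
      (hlt m).trans_le (hK _ _ (hξ1 (m + 1)))
    refine Set.infinite_of_injective_forall_mem hξm.injective (s := {ξ | ξ < a ∧ w.e a ξ ≤ n})
      (fun m => ⟨?_, hξ2 m⟩) (w.e_finite a n)
    exact (hlt m).trans ((hb _ (Or.inl ⟨m + 1, rfl⟩)).trans hba)
  choose τ hτ using key
  obtain ⟨b, hb⟩ := exists_gt_countable hc hunc (countable_range τ)
  exact ⟨b, fun K hK n γ => hτ n K (fun ξ hξ => (hb _ ⟨n, rfl⟩).le.trans (hK ξ hξ)) γ⟩

end Pool.Agent.Lib.MP_8f36f1_h17
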