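import Mathlib

open Set

universe u

namespace Pool.Agent.Lib.MP_8f36f1_h17

variable {A : Type u} [LinearOrder A]

open Classical in
/-- The oscillations of `s` over `t` on the finite set `F`. -/
noncomputable def Osc (s t : A → ℕ) (F : Finset A) : Finset A :=
  F.filter fun ξ => t ξ < s ξ ∧ ∃ ξ' ∈ F, ξ' < ξ ∧ (∀ ζ ∈ F, ζ < ξ → ζ ≤ ξ') ∧ s ξ' ≤ t ξ'

/-- the number of oscillations. -/
noncomputable def osc (s t : A → ℕ) (F : Finset A) : ℕ := (Osc s t F).card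

theorem mem_Osc {s t : A → ℕ} {F : Finset A} {ξ : A} : ξ ∈ Osc s t F ↔
    ξ ∈ F ∧ t ξ < s ξ ∧ ∃ ξ' ∈ F, ξ' < ξ ∧ (∀ ζ ∈ F, ζ < ξ → ζ ≤ ξ') ∧ s ξ' ≤ t ξ' := by
  classical
  unfold Osc
  rw [Finset.mem_filter]

theorem Osc_congr {s t s' t' : A → ℕ} {F : Finset A} (hs : ∀ ξ ∈ F, s ξ = s' ξ)
    (ht : ∀ ξ ∈ F, t ξ = t' ξ) : Osc s t F = Osc s' t' F := by
  ext ξ
  rw [mem_Osc, mem_Osc]
  constructor
  · rintro ⟨h1, h2, ξ', h3, h4, h5, h6⟩
    refine ⟨h1, ?_, ξ', h3, h4, h5, ?_⟩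
    · rw [← hs _ h1, ← ht _ h1]; exact h2
    · rw [← hs _ h3, ← ht _ h3]; exact h6
  · rintro ⟨h1, h2, ξ', h3, h4, h5, h6⟩
    refine ⟨h1, ?_, ξ', h3, h4, h5, ?_⟩
    · rw [hs _ h1, ht _ h1]; exact h2
    · rw [hs _ h3, ht _ h3]; exact h6

theorem osc_congr {s t s' t' : A → ℕ} {F : Finset A} (hs : ∀ ξ ∈ F, s ξ = s' ξ)
    (ht : ∀ ξ ∈ F, t ξ = t' ξ) : osc s t F = osc s' t' F := by
  unfold osc
  rw [Osc_congr hs ht]

/-- the part of the oscillations in the initial part. -/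
theorem mem_Osc_union_left {s t : A → ℕ} {F G H : Finset A}
    (hH : ∀ x, x ∈ H ↔ x ∈ F ∨ x ∈ G) (hlt : ∀ x ∈ F, ∀ y ∈ G, x < y) {ξ : A} (hξ : ξ ∈ F) :
    ξ ∈ Osc s t H ↔ ξ ∈ Osc s t F := by
  rw [mem_Osc, mem_Osc]
  constructor
  · rintro ⟨_, h2, ξ', h3, h4, h5, h6⟩
    refine ⟨hξ, h2, ξ', ?_, h4, fun ζ hζ hlt' => h5 ζ ((hH ζ).2 (Or.inl hζ)) hlt', h6⟩
    rcases (hH ξ').1 h3 with h | h
    · exact h
    · exact absurd h4 (not_lt.2 (hlt ξ hξ ξ' h).le)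
  · rintro ⟨_, h2, ξ', h3, h4, h5, h6⟩
    refine ⟨(hH ξ).2 (Or.inl hξ), h2, ξ', (hH ξ').2 (Or.inl h3), h4, ?_, h6⟩
    intro ζ hζ hlt'
    rcases (hH ζ).1 hζ with h | h
    · exact h5 ζ h hlt'
    · exact absurd hlt' (not_lt.2 (hlt ξ hξ ζ h).le)

/-- Adding at the end a part on which `s ≤ t` does not change the number of oscillations. -/
theorem osc_union_le {s t : A → ℕ} {F G H : Finset A}
    (hH : ∀ x, x ∈ H ↔ x ∈ F ∨ x ∈ G) (hlt : ∀ x ∈ F, ∀ y ∈ G, x < y)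
    (hG : ∀ x ∈ G, s x ≤ t x) : osc s t H = osc s t F := by
  unfold osc
  congr 1
  ext ξ
  constructor
  · intro h
    have h' := h
    rw [mem_Osc] at h'
    rcases (hH ξ).1 h'.1 with h1 | h1
    · exact (mem_Osc_union_left hH hlt h1).1 h
    · exact absurd h'.2.1 (not_lt.2 (hG ξ h1))
  · intro h
    exact (mem_Osc_union_left hH hlt (mem_Osc.1 h).1).2 h

/-- Adding at the end a nonempty part on which `s > t` creates exactly one new oscillation,
if `s ≤ t` at the last point. -/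
theorem osc_union_gt {s t : A → ℕ} {F G H : Finset A}
    (hH : ∀ x, x ∈ H ↔ x ∈ F ∨ x ∈ G) (hlt : ∀ x ∈ F, ∀ y ∈ G, x < y)
    (hG : ∀ x ∈ G, t x < s x) (hGne : G.Nonempty)
    (hF : ∃ g ∈ F, (∀ x ∈ F, x ≤ g) ∧ s g ≤ t g) : osc s t H = osc s t F + 1 := by
  classical
  unfold osc
  have hmin := Finset.min'_mem G hGne
  have hmin' : ∀ x ∈ G, G.min' hGne ≤ x := fun x hx => Finset.min'_le G x hx
  set y := G.min' hGne with hy
  have heq : Osc s t H = insert y (Osc s t F) := by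
    ext ξ
    rw [Finset.mem_insert]
    constructor
    · intro h
      have h' := h
      rw [mem_Osc] at h'
      rcases (hH ξ).1 h'.1 with h1 | h1
      · exact Or.inr ((mem_Osc_union_left hH hlt h1).1 h)
      · left
        by_contra hne
        obtain ⟨_, _, ξ', h3, h4, h5, h6⟩ := h'
        have hyξ : y < ξ := lt_of_le_of_ne (hmin' ξ h1) (fun h => hne h.symm)
        have h7 := h5 y ((hH y).2 (Or.inr hmin)) hyξ
        rcases (hH ξ').1 h3 with h8 | h8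
        · exact absurd (hlt ξ' h8 y hmin) (not_lt.2 h7)
        · exact absurd h6 (not_le.2 (hG ξ' h8))
    · rintro (h | h)
      · rw [h, mem_Osc]
        obtain ⟨g, hg1, hg2, hg3⟩ := hF
        refine ⟨(hH y).2 (Or.inr hmin), hG y hmin, g, (hH g).2 (Or.inl hg1),
          hlt g hg1 y hmin, ?_, hg3⟩
        intro ζ hζ hζy
        rcases (hH ζ).1 hζ with h1 | h1
        · exact hg2 ζ h1
        · exact absurd hζy (not_lt.2 (hmin' ζ h1))
      · exact (mem_Osc_union_left hH hlt (mem_Osc.1 h).1).2 h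
  rw [heq, Finset.card_insert_of_notMem]
  intro h
  have := hlt y (mem_Osc.1 h).1 y hmin
  exact lt_irrefl _ this

/-- If `s > t` at the last point of `F`, then the oscillations add up. -/
theorem osc_union_add {s t : A → ℕ} {F G H : Finset A}
    (hH : ∀ x, x ∈ H ↔ x ∈ F ∨ x ∈ G) (hlt : ∀ x ∈ F, ∀ y ∈ G, x < y)
    (hF : ∃ g ∈ F, (∀ x ∈ F, x ≤ g) ∧ t g < s g) : osc s t H = osc s t F + osc s t G := by
  classical
  unfold osc
  have heq : Osc s t H = Osc s t F ∪ Osc s t G := by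
    ext ξ
    rw [Finset.mem_union]
    constructor
    · intro h
      have h' := h
      rw [mem_Osc] at h'
      rcases (hH ξ).1 h'.1 with h1 | h1
      · exact Or.inl ((mem_Osc_union_left hH hlt h1).1 h)
      · right
        obtain ⟨_, h2, ξ', h3, h4, h5, h6⟩ := h'
        rw [mem_Osc]
        refine ⟨h1, h2, ξ', ?_, h4, fun ζ hζ hζξ => h5 ζ ((hH ζ).2 (Or.inr hζ)) hζξ, h6⟩
        rcases (hH ξ').1 h3 with h8 | h8
        · exfalso
          obtain ⟨g, hg1, hg2, hg3⟩ := hF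
          have h9 : g ≤ ξ' := h5 g ((hH g).2 (Or.inl hg1)) (hlt g hg1 ξ h1)
          have h10 : ξ' = g := le_antisymm (hg2 ξ' h8) h9
          rw [h10] at h6
          exact absurd hg3 (not_lt.2 h6)
        · exact h8
    · rintro (h | h)
      · exact (mem_Osc_union_left hH hlt (mem_Osc.1 h).1).2 h
      · rw [mem_Osc] at h ⊢
        obtain ⟨h1, h2, ξ', h3, h4, h5, h6⟩ := h
        refine ⟨(hH ξ).2 (Or.inr h1), h2, ξ', (hH ξ').2 (Or.inr h3), h4, ?_, h6⟩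
        intro ζ hζ hζξ
        rcases (hH ζ).1 hζ with h8 | h8
        · exact (hlt ζ h8 ξ' h3).le
        · exact h5 ζ h8 hζξ
  rw [heq, Finset.card_union_of_disjoint]
  rw [Finset.disjoint_left]
  intro ξ h1 h2
  exact lt_irrefl _ (hlt ξ (mem_Osc.1 h1).1 ξ (mem_Osc.1 h2).1)

end Pool.Agent.Lib.MP_8f36f1_h17
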