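import Mathlib
import Pool.Agent.Lib.MP_8f36f1_h17.Closure
import Pool.Agent.Lib.MP_8f36f1_h17.Osc

open Set

universe u v

namespace Pool.Agent.Lib.MP_8f36f1_h17

variable {A : Type u} [LinearOrder A] [WellFoundedLT A]

/-- the points `δ'` which look like `δ`. -/
def DD (w : Walk A) (X Y : Set A) (d : Data A) : Set A :=
  {δ' | ∃ a' ∈ X, ∃ β' ∈ Y, δ' ≤ a' ∧ δ' ≤ β' ∧ w.L δ' β' = d.1 ∧
    (∀ x ∈ d.2.1, w.e a' x.1 = x.2) ∧ (∀ x ∈ d.2.2.1, w.e β' x.1 = x.2) ∧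
    (∀ α, d.2.2.2.2 < α → α < δ' → ∀ ξ ∈ w.L α δ', d.2.2.2.1 ≤ ξ) ∧
    ∀ ξ, d.2.2.2.1 ≤ ξ → ξ < δ' → w.e a' ξ = w.e β' ξ}

/-- the members of `X` with the prescribed values. -/
def Xq (w : Walk A) (X : Set A) (q : Finset (A × ℕ)) : Set A :=
  {a | a ∈ X ∧ ∀ x ∈ q, w.e a x.1 = x.2}

/-- closure points. -/
structure Closed (w : Walk A) (X Y : Set A) (δ : A) : Prop where
  lim : ∀ γ < δ, ∃ γ' < δ, γ < γ'
  ho : w.o < δ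
  hD : ∀ d, (∀ ξ ∈ supp d, ξ < δ) → δ ∈ DD w X Y d → Unb (DD w X Y d)
  hX : ∀ q : Finset (A × ℕ), (∀ x ∈ q, x.1 < δ) → (∃ a ∈ Xq w X q, δ ≤ a) →
    (∃ τ < δ, ∀ K : Finset A, (∀ ξ ∈ K, τ ≤ ξ) → ∀ (n : ℕ) (γ : A), ∃ a ∈ Xq w X q, γ < a ∧
      (∀ ξ ∈ K, ξ < a) ∧ ∀ ξ ∈ K, n < w.e a ξ) ∧
    ∀ η < δ, ∃ α ∈ Xq w X q, η < α ∧ α < δ

theorem exists_closed (w : Walk A) (hc : ∀ a : A, (Iio a).Countable)
    (hunc : ¬ (univ : Set A).Countable) (X Y : Set A) : ∃ δ, Closed w X Y δ := by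
  classical
  have hG : ∀ d : Data A, ∃ b, (¬ Unb (DD w X Y d) → ∀ δ' ∈ DD w X Y d, δ' ≤ b) ∧
      (¬ Unb (Xq w X d.2.1) → ∀ a ∈ Xq w X d.2.1, a ≤ b) ∧
      (Unb (Xq w X d.2.1) → ∃ τ ≤ b, ∀ K : Finset A, (∀ ξ ∈ K, τ ≤ ξ) →
        ∀ (n : ℕ) (γ : A), ∃ a ∈ Xq w X d.2.1, γ < a ∧
        (∀ ξ ∈ K, ξ < a) ∧ ∀ ξ ∈ K, n < w.e a ξ) ∧
      (Unb (Xq w X d.2.1) → ∃ α ∈ Xq w X d.2.1, d.2.2.2.2 < α ∧ α ≤ b) := by
    intro d
    have h1 : ∃ b, ¬ Unb (DD w X Y d) → ∀ δ' ∈ DD w X Y d, δ' ≤ b := by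
      by_cases h : Unb (DD w X Y d)
      · exact ⟨w.o, fun h' => absurd h h'⟩
      · unfold Unb at h
        push Not at h
        obtain ⟨b, hb⟩ := h
        exact ⟨b, fun _ => hb⟩
    have h2 : ∃ b, ¬ Unb (Xq w X d.2.1) → ∀ a ∈ Xq w X d.2.1, a ≤ b := by
      by_cases h : Unb (Xq w X d.2.1)
      · exact ⟨w.o, fun h' => absurd h h'⟩
      · unfold Unb at h
        push Not at h
        obtain ⟨b, hb⟩ := h
        exact ⟨b, fun _ => hb⟩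
    have h3 : ∃ τ, Unb (Xq w X d.2.1) → ∀ K : Finset A, (∀ ξ ∈ K, τ ≤ ξ) →
        ∀ (n : ℕ) (γ : A), ∃ a ∈ Xq w X d.2.1, γ < a ∧
        (∀ ξ ∈ K, ξ < a) ∧ ∀ ξ ∈ K, n < w.e a ξ := by
      by_cases h : Unb (Xq w X d.2.1)
      · obtain ⟨τ, hτ⟩ := exists_tau w hc hunc h
        exact ⟨τ, fun _ => hτ⟩
      · exact ⟨w.o, fun h' => absurd h' h⟩
    have h4 : ∃ α, Unb (Xq w X d.2.1) → α ∈ Xq w X d.2.1 ∧ d.2.2.2.2 < α := by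
      by_cases h : Unb (Xq w X d.2.1)
      · obtain ⟨α, hα, hlt⟩ := h d.2.2.2.2
        exact ⟨α, fun _ => ⟨hα, hlt⟩⟩
      · exact ⟨w.o, fun h' => absurd h' h⟩
    obtain ⟨b1, hb1⟩ := h1
    obtain ⟨b2, hb2⟩ := h2
    obtain ⟨b3, hb3⟩ := h3
    obtain ⟨b4, hb4⟩ := h4
    refine ⟨max (max b1 b2) (max b3 b4), fun h δ' hδ' => ?_, fun h a ha => ?_, fun h => ?_,
      fun h => ?_⟩
    · exact (hb1 h δ' hδ').trans ((le_max_left _ _).trans (le_max_left _ _))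
    · exact (hb2 h a ha).trans ((le_max_right _ _).trans (le_max_left _ _))
    · exact ⟨b3, (le_max_left _ _).trans (le_max_right _ _), hb3 h⟩
    · exact ⟨b4, (hb4 h).1, (hb4 h).2, (le_max_right _ _).trans (le_max_right _ _)⟩
  choose G hG1 hG2 hG3 hG4 using hG
  obtain ⟨δ, hδ0, hδ1, hδ2⟩ := exists_closure hc hunc (supp (A := A)) (supp_countable hc) G w.o
  refine ⟨δ, hδ1, hδ0, ?_, ?_⟩
  · intro d hd hδ
    by_contra h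
    exact absurd (hG1 d h δ hδ) (not_le.2 (hδ2 d hd))
  · rintro q hq ⟨a, ha, hδa⟩
    have hsupp : ∀ η < δ, ∀ ξ ∈ supp ((∅, q, ∅, w.o, η) : Data A), ξ < δ := by
      intro η hη
      rw [supp_lt]
      refine ⟨by simp, hq, by simp, hδ0, hη⟩
    have hunb : Unb (Xq w X q) := by
      by_contra h
      have h1 := hG2 ((∅, q, ∅, w.o, w.o) : Data A) h a ha
      exact absurd (hδa.trans h1) (not_le.2 (hδ2 _ (hsupp w.o hδ0)))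
    refine ⟨?_, ?_⟩
    · obtain ⟨τ, hτ, h⟩ := hG3 ((∅, q, ∅, w.o, w.o) : Data A) hunb
      exact ⟨τ, hτ.trans_lt (hδ2 _ (hsupp w.o hδ0)), h⟩
    · intro η hη
      obtain ⟨α, hα, h1, h2⟩ := hG4 ((∅, q, ∅, w.o, η) : Data A) hunb
      exact ⟨α, hα, h1, h2.trans_lt (hδ2 _ (hsupp η hη))⟩

theorem Closed.exists_bound {w : Walk A} {X Y : Set A} {δ : A} (h : Closed w X Y δ)
    {S : Set A} (hS : S.Finite) (hlt : ∀ x ∈ S, x < δ) : ∃ ζ < δ, ∀ x ∈ S, x < ζ := by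
  rcases S.eq_empty_or_nonempty with rfl | hne
  · exact ⟨w.o, h.ho, fun x hx => absurd hx (notMem_empty x)⟩
  · obtain ⟨m, hm, hmax⟩ := Set.exists_max_image S id hS hne
    obtain ⟨ζ, hζ, hlt'⟩ := h.lim m (hlt m hm)
    exact ⟨ζ, hζ, fun x hx => (hmax x hx).trans_lt hlt'⟩

/-- reflection. -/
theorem Closed.reflect {w : Walk A} {X Y : Set A} {δ a β : A} (h : Closed w X Y δ)
    (ha : a ∈ X) (hδa : δ ≤ a) (hβ : β ∈ Y) (hδβ : δ ≤ β) :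
    ∃ ζ < δ, (∀ x ∈ w.L δ β, x < ζ) ∧
      (∀ K : Finset A, (∀ ξ ∈ K, ζ ≤ ξ) → ∀ (n : ℕ) (γ : A), ∃ a' ∈ X, γ < a' ∧
        (∀ x ∈ w.L δ β, w.e a' x = w.e a x) ∧ ∀ ξ ∈ K, n < w.e a' ξ) ∧
      ∃ δ' a' β', δ < δ' ∧ a' ∈ X ∧ β' ∈ Y ∧ δ' ≤ a' ∧ δ' ≤ β' ∧ w.L δ' β' = w.L δ β ∧
        (∀ x ∈ w.L δ β, w.e a' x = w.e a x) ∧ (∀ x ∈ w.L δ β, w.e β' x = w.e β x) ∧
        (∀ ξ ∈ w.L δ δ', ζ ≤ ξ) ∧ ∀ ξ, ζ ≤ ξ → ξ < δ' → w.e a' ξ = w.e β' ξ := by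
  classical
  have hF : ∀ x ∈ w.L δ β, x < δ := w.L_lt h.ho β
  set q : Finset (A × ℕ) := (w.L δ β).image fun x => (x, w.e a x) with hq
  set p : Finset (A × ℕ) := (w.L δ β).image fun x => (x, w.e β x) with hp
  have hqlt : ∀ x ∈ q, x.1 < δ := by
    intro x hx
    obtain ⟨y, hy, rfl⟩ := Finset.mem_image.1 hx
    exact hF y hy
  have hplt : ∀ x ∈ p, x.1 < δ := by
    intro x hx
    obtain ⟨y, hy, rfl⟩ := Finset.mem_image.1 hx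
    exact hF y hy
  have hqe : ∀ a', (∀ x ∈ q, w.e a' x.1 = x.2) ↔ ∀ x ∈ w.L δ β, w.e a' x = w.e a x := by
    intro a'
    rw [hq]
    constructor
    · intro h1 x hx
      exact h1 (x, w.e a x) (Finset.mem_image_of_mem _ hx)
    · intro h1 x hx
      obtain ⟨y, hy, rfl⟩ := Finset.mem_image.1 hx
      exact h1 y hy
  have hpe : ∀ a', (∀ x ∈ p, w.e a' x.1 = x.2) ↔ ∀ x ∈ w.L δ β, w.e a' x = w.e β x := by
    intro a'
    rw [hp]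
    constructor
    · intro h1 x hx
      exact h1 (x, w.e β x) (Finset.mem_image_of_mem _ hx)
    · intro h1 x hx
      obtain ⟨y, hy, rfl⟩ := Finset.mem_image.1 hx
      exact h1 y hy
  have hmem : a ∈ Xq w X q := ⟨ha, (hqe a).2 fun _ _ => rfl⟩
  obtain ⟨⟨τ, hτ, hτ'⟩, _⟩ := h.hX q hqlt ⟨a, hmem, hδa⟩
  obtain ⟨ζ₀, hζ₀, hζ₀'⟩ := h.exists_bound
    (((w.L δ β).finite_toSet.union (w.e_coherent' hδa hδβ)).union (finite_singleton τ)) (by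
      rintro x ((hx | hx) | hx)
      · exact hF x hx
      · exact hx.1
      · rw [mem_singleton_iff] at hx
        rw [hx]
        exact hτ)
  obtain ⟨η, hη, hη'⟩ := w.exists_L_ge hζ₀
  have hagree : ∀ ξ, ζ₀ ≤ ξ → ξ < δ → w.e a ξ = w.e β ξ := by
    intro ξ h1 h2
    by_contra h3
    exact absurd (hζ₀' ξ (Or.inl (Or.inr ⟨h2, h3⟩))) (not_lt.2 h1)
  refine ⟨ζ₀, hζ₀, fun x hx => hζ₀' x (Or.inl (Or.inl hx)), ?_, ?_⟩
  · intro K hK n γ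
    obtain ⟨a', ha', h1, _, h2⟩ := hτ' K (fun ξ hξ =>
      (hζ₀' τ (Or.inr rfl)).le.trans (hK ξ hξ)) n γ
    exact ⟨a', ha'.1, h1, (hqe a').1 ha'.2, h2⟩
  · have hδD : δ ∈ DD w X Y (w.L δ β, q, p, ζ₀, η) :=
      ⟨a, ha, β, hβ, hδa, hδβ, rfl, (hqe a).2 fun _ _ => rfl, (hpe β).2 fun _ _ => rfl,
        hη', hagree⟩
    have hunb := h.hD (w.L δ β, q, p, ζ₀, η) (supp_lt.2 ⟨hF, hqlt, hplt, hζ₀, hη⟩) hδD
    obtain ⟨δ', ⟨a', ha', β', hβ', h1, h2, h3, h4, h5, h6, h7⟩, hlt⟩ := hunb δ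
    exact ⟨δ', a', β', hlt, ha', hβ', h1, h2, h3, (hqe a').1 h4, (hpe β').1 h5,
      h6 δ hη hlt, h7⟩

/-- the step `=`. -/
theorem Closed.step_eq {w : Walk A} {X Y : Set A} {δ a β : A} (h : Closed w X Y δ)
    (ha : a ∈ X) (hδa : δ ≤ a) (hβ : β ∈ Y) (hδβ : δ ≤ β) :
    ∃ a' ∈ X, δ ≤ a' ∧ ∃ β' ∈ Y, δ ≤ β' ∧ ∃ K : Finset A, K.Nonempty ∧
      (∀ x ∈ w.L δ β, ∀ y ∈ K, x < y) ∧ (∀ ξ, ξ ∈ w.L δ β' ↔ ξ ∈ w.L δ β ∨ ξ ∈ K) ∧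
      (∀ x ∈ w.L δ β, w.e a' x = w.e a x) ∧ (∀ x ∈ w.L δ β, w.e β' x = w.e β x) ∧
      ∀ y ∈ K, w.e a' y = w.e β' y := by
  obtain ⟨ζ, hζ, hFζ, _, δ', a', β', h1, h2, h3, h4, h5, h6, h7, h8, h9, h10⟩ :=
    h.reflect ha hδa hβ hδβ
  refine ⟨a', h2, h1.le.trans h4, β', h3, h1.le.trans h5, w.L δ δ', ⟨_, w.mx_mem_L h1⟩,
    fun x hx y hy => (hFζ x hx).trans_le (h9 y hy), ?_, h7, h8, ?_⟩
  · intro ξ
    have hlt : ∀ x ∈ w.L δ' β', ∀ y ∈ w.L δ δ', x < y := by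
      intro x hx y hy
      rw [h6] at hx
      exact (hFζ x hx).trans_le (h9 y hy)
    rw [w.L_union h.ho h1 β' h5 hlt ξ, h6, or_comm]
  · intro y hy
    exact h10 y (h9 y hy) ((w.L_lt h.ho δ' y hy).trans h1)

/-- the step `>`. -/
theorem Closed.step_gt {w : Walk A} {X Y : Set A} {δ a β : A} (h : Closed w X Y δ)
    (ha : a ∈ X) (hδa : δ ≤ a) (hβ : β ∈ Y) (hδβ : δ ≤ β) :
    ∃ a' ∈ X, δ ≤ a' ∧ ∃ β' ∈ Y, δ ≤ β' ∧ ∃ K : Finset A, K.Nonempty ∧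
      (∀ x ∈ w.L δ β, ∀ y ∈ K, x < y) ∧ (∀ ξ, ξ ∈ w.L δ β' ↔ ξ ∈ w.L δ β ∨ ξ ∈ K) ∧
      (∀ x ∈ w.L δ β, w.e a' x = w.e a x) ∧ (∀ x ∈ w.L δ β, w.e β' x = w.e β x) ∧
      ∀ y ∈ K, w.e β' y < w.e a' y := by
  obtain ⟨ζ, hζ, hFζ, hK, δ', _, β', h1, _, h3, _, h5, h6, _, h8, h9, _⟩ :=
    h.reflect ha hδa hβ hδβ
  obtain ⟨a', ha', hγ, h11, h12⟩ := hK (w.L δ δ') h9 ((w.L δ δ').sup (w.e β')) δ
  refine ⟨a', ha', hγ.le, β', h3, h1.le.trans h5, w.L δ δ', ⟨_, w.mx_mem_L h1⟩,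
    fun x hx y hy => (hFζ x hx).trans_le (h9 y hy), ?_, h11, h8, ?_⟩
  · intro ξ
    have hlt : ∀ x ∈ w.L δ' β', ∀ y ∈ w.L δ δ', x < y := by
      intro x hx y hy
      rw [h6] at hx
      exact (hFζ x hx).trans_le (h9 y hy)
    rw [w.L_union h.ho h1 β' h5 hlt ξ, h6, or_comm]
  · intro y hy
    exact lt_of_le_of_lt (Finset.le_sup (f := w.e β') hy) (h12 y hy)

/-- the construction of long sequences with consecutive numbers of oscillations. -/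
theorem Closed.iterate {w : Walk A} {X Y : Set A} {δ : A} (h : Closed w X Y δ)
    (hX : ∃ a ∈ X, δ ≤ a) (hY : ∃ β ∈ Y, δ ≤ β) (N : ℕ) :
    ∃ a ∈ X, δ ≤ a ∧ ∃ b : ℕ → A, ∀ m ≤ N, b m ∈ Y ∧ δ ≤ b m ∧
      (∀ x ∈ w.L δ (b m), x ∈ w.L δ (b N)) ∧
      (∃ g ∈ w.L δ (b m), (∀ x ∈ w.L δ (b m), x ≤ g) ∧ w.e (b m) g < w.e a g) ∧
      osc (w.e a) (w.e (b m)) (w.L δ (b m)) = osc (w.e a) (w.e (b 0)) (w.L δ (b 0)) + m := by
  classical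
  induction N with
  | zero =>
    obtain ⟨a₀, ha₀, hδa₀⟩ := hX
    obtain ⟨β₀, hβ₀, hδβ₀⟩ := hY
    obtain ⟨a, ha, hδa, β, hβ, hδβ, K, hKne, hlt, hL, h1, h2, h3⟩ :=
      h.step_gt ha₀ hδa₀ hβ₀ hδβ₀
    refine ⟨a, ha, hδa, fun _ => β, fun m hm => ⟨hβ, hδβ, fun x hx => hx, ?_, ?_⟩⟩
    · have hmax := Finset.max'_mem K hKne
      refine ⟨K.max' hKne, (hL _).2 (Or.inr hmax), fun x hx => ?_, h3 _ hmax⟩
      rcases (hL x).1 hx with h4 | h4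
      · exact (hlt x h4 _ hmax).le
      · exact Finset.le_max' K x h4
    · have : m = 0 := by omega
      rw [this]
      rfl
  | succ N ih =>
    obtain ⟨a, ha, hδa, b, hb⟩ := ih
    obtain ⟨hbN1, hbN2, _, _, hbN5⟩ := hb N le_rfl
    obtain ⟨a1, ha1, hδa1, β1, hβ1, hδβ1, K1, hK1ne, hlt1, hL1, h11, h12, h13⟩ :=
      h.step_eq ha hδa hbN1 hbN2
    obtain ⟨a2, ha2, hδa2, β2, hβ2, hδβ2, K2, hK2ne, hlt2, hL2, h21, h22, h23⟩ :=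
      h.step_gt ha1 hδa1 hβ1 hδβ1
    have hsub1 : ∀ x ∈ w.L δ (b N), x ∈ w.L δ β1 := fun x hx => (hL1 x).2 (Or.inl hx)
    have hsub2 : ∀ x ∈ w.L δ β1, x ∈ w.L δ β2 := fun x hx => (hL2 x).2 (Or.inl hx)
    have hea : ∀ x ∈ w.L δ (b N), w.e a2 x = w.e a x := fun x hx =>
      (h21 x (hsub1 x hx)).trans (h11 x hx)
    have hosc : ∀ m ≤ N, osc (w.e a2) (w.e (b m)) (w.L δ (b m)) =
        osc (w.e a) (w.e (b m)) (w.L δ (b m)) := fun m hm =>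
      osc_congr (fun x hx => hea x ((hb m hm).2.2.1 x hx)) (fun _ _ => rfl)
    refine ⟨a2, ha2, hδa2, fun m => if m ≤ N then b m else β2, fun m hm => ?_⟩
    have hN1 : ¬ (N + 1 ≤ N) := by omega
    simp only [if_neg hN1, if_pos (Nat.zero_le N)]
    by_cases hmN : m ≤ N
    · simp only [if_pos hmN]
      obtain ⟨h1, h2, h3, ⟨g, hg1, hg2, hg3⟩, h5⟩ := hb m hmN
      refine ⟨h1, h2, fun x hx => hsub2 x (hsub1 x (h3 x hx)), ⟨g, hg1, hg2, ?_⟩, ?_⟩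
      · rw [hea g (h3 g hg1)]
        exact hg3
      · rw [hosc m hmN, hosc 0 (Nat.zero_le N), h5]
    · simp only [if_neg hmN]
      have hmN' : m = N + 1 := by omega
      refine ⟨hβ2, hδβ2, fun x hx => hx, ?_, ?_⟩
      · have hmax := Finset.max'_mem K2 hK2ne
        refine ⟨K2.max' hK2ne, (hL2 _).2 (Or.inr hmax), fun x hx => ?_, h23 _ hmax⟩
        rcases (hL2 x).1 hx with h4 | h4
        · exact (hlt2 x h4 _ hmax).le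
        · exact Finset.le_max' K2 x h4
      · have e1 : osc (w.e a2) (w.e β2) (w.L δ β2) = osc (w.e a2) (w.e β2) (w.L δ β1) + 1 := by
          apply osc_union_gt hL2 hlt2 h23 hK2ne
          have hmax := Finset.max'_mem K1 hK1ne
          have hg : K1.max' hK1ne ∈ w.L δ β1 := (hL1 _).2 (Or.inr hmax)
          refine ⟨K1.max' hK1ne, hg, fun x hx => ?_, ?_⟩
          · rcases (hL1 x).1 hx with h4 | h4
            · exact (hlt1 x h4 _ hmax).le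
            · exact Finset.le_max' K1 x h4
          · rw [h21 _ hg, h22 _ hg, h13 _ hmax]
        have e2 : osc (w.e a2) (w.e β2) (w.L δ β1) = osc (w.e a2) (w.e β2) (w.L δ (b N)) := by
          apply osc_union_le hL1 hlt1
          intro x hx
          have hg : x ∈ w.L δ β1 := (hL1 _).2 (Or.inr hx)
          rw [h21 _ hg, h22 _ hg, h13 _ hx]
        have e3 : osc (w.e a2) (w.e β2) (w.L δ (b N)) =
            osc (w.e a) (w.e (b N)) (w.L δ (b N)) :=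
          osc_congr hea (fun x hx => (h22 x (hsub1 x hx)).trans (h12 x hx))
        rw [e1, e2, e3, hbN5, hosc 0 (Nat.zero_le N), hmN']
        ring

/-- Moore's theorem (for sets of ordinals): consecutive values of the oscillation. -/
theorem moore (w : Walk A) (hc : ∀ a : A, (Iio a).Countable)
    (hunc : ¬ (univ : Set A).Countable) {X Y : Set A} (hX : Unb X) (hY : Unb Y) (N : ℕ) :
    ∃ α ∈ X, ∃ (b : ℕ → A) (k : ℕ), ∀ m ≤ N, b m ∈ Y ∧ α < b m ∧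
      osc (w.e α) (w.e (b m)) (w.L α (b m)) = k + m := by
  classical
  obtain ⟨δ, h⟩ := exists_closed w hc hunc X Y
  obtain ⟨a₀, ha₀, hδa₀⟩ := hX δ
  obtain ⟨β₀, hβ₀, hδβ₀⟩ := hY δ
  obtain ⟨a, ha, hδa, b, hb⟩ := h.iterate ⟨a₀, ha₀, hδa₀.le⟩ ⟨β₀, hβ₀, hδβ₀.le⟩ N
  set q : Finset (A × ℕ) := (w.L δ (b N)).image fun x => (x, w.e a x) with hq
  have hF : ∀ x ∈ w.L δ (b N), x < δ := w.L_lt h.ho (b N)
  have hqlt : ∀ x ∈ q, x.1 < δ := by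
    intro x hx
    obtain ⟨y, hy, rfl⟩ := Finset.mem_image.1 hx
    exact hF y hy
  have hmem : a ∈ Xq w X q := by
    refine ⟨ha, fun x hx => ?_⟩
    obtain ⟨y, hy, rfl⟩ := Finset.mem_image.1 hx
    rfl
  obtain ⟨_, hα⟩ := h.hX q hqlt ⟨a, hmem, hδa⟩
  -- the disagreements
  have hfin : (⋃ m ∈ Finset.range (N + 1), {ξ | ξ < δ ∧ w.e (b m) ξ ≠ w.e δ ξ}).Finite := by
    refine Set.Finite.biUnion (Finset.finite_toSet _) fun m hm => ?_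
    have hm' : m ≤ N := by
      have := Finset.mem_range.1 (Finset.mem_coe.1 hm)
      omega
    exact w.e_coherent' (hb m hm').2.1 le_rfl
  obtain ⟨ζ, hζ, hζ'⟩ := h.exists_bound ((w.L δ (b N)).finite_toSet.union hfin) (by
    rintro x (hx | hx)
    · exact hF x hx
    · obtain ⟨m, _, hx⟩ := mem_iUnion₂.1 hx
      exact hx.1)
  obtain ⟨η, hη, hη'⟩ := w.exists_L_ge hζ
  obtain ⟨α, ⟨hαX, hαq⟩, hηα, hαδ⟩ := hα (max η w.o) (max_lt hη h.ho)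
  have hoα : w.o < α := (le_max_right _ _).trans_lt hηα
  have hLζ : ∀ ξ ∈ w.L α δ, ζ ≤ ξ := hη' α ((le_max_left _ _).trans_lt hηα) hαδ
  have heα : ∀ x ∈ w.L δ (b N), w.e α x = w.e a x := fun x hx =>
    hαq (x, w.e a x) (Finset.mem_image_of_mem _ hx)
  refine ⟨α, hαX, b, osc (w.e a) (w.e (b 0)) (w.L δ (b 0)) +
    osc (w.e α) (w.e δ) (w.L α δ), fun m hm => ?_⟩
  obtain ⟨h1, h2, h3, ⟨g, hg1, hg2, hg3⟩, h5⟩ := hb m hm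
  refine ⟨h1, hαδ.trans_le h2, ?_⟩
  have hlt : ∀ x ∈ w.L δ (b m), ∀ y ∈ w.L α δ, x < y := fun x hx y hy =>
    (hζ' x (Or.inl (h3 x hx))).trans_le (hLζ y hy)
  have hL : ∀ x, x ∈ w.L α (b m) ↔ x ∈ w.L δ (b m) ∨ x ∈ w.L α δ := by
    intro x
    rw [w.L_union hoα hαδ (b m) h2 hlt x, or_comm]
  rw [osc_union_add hL hlt ⟨g, hg1, hg2, by rw [heα g (h3 g hg1)]; exact hg3⟩]
  have e1 : osc (w.e α) (w.e (b m)) (w.L δ (b m)) = osc (w.e a) (w.e (b m)) (w.L δ (b m)) :=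
    osc_congr (fun x hx => heα x (h3 x hx)) (fun _ _ => rfl)
  have e2 : osc (w.e α) (w.e (b m)) (w.L α δ) = osc (w.e α) (w.e δ) (w.L α δ) := by
    apply osc_congr (fun _ _ => rfl)
    intro x hx
    by_contra hne
    have hxδ : x < δ := (w.L_lt hoα δ x hx).trans hαδ
    have := hζ' x (Or.inr (mem_iUnion₂.2 ⟨m, by simp; omega, hxδ, hne⟩))
    exact absurd this (not_lt.2 (hLζ x hx))
  rw [e1, e2, h5]
  ring

end Pool.Agent.Lib.MP_8f36f1_h17
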