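import Mathlib
import Pool.Agent.Lib.MP_8f36f1_h17.Moore

open Set

universe u v

namespace Pool.Agent.Lib.MP_8f36f1_h17

variable {A : Type u} [LinearOrder A] [WellFoundedLT A]

/-- Moore's colouring. -/
noncomputable def col (w : Walk A) (α β : A) : ℕ :=
  padicValNat 2 (osc (w.e α) (w.e β) (w.L α β))

theorem padic_aux (n t : ℕ) : padicValNat 2 (2 ^ n * (2 * t + 1)) = n := by
  haveI : Fact (Nat.Prime 2) := ⟨Nat.prime_two⟩
  rw [padicValNat.mul (by positivity) (by omega), padicValNat.prime_pow]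
  have : padicValNat 2 (2 * t + 1) = 0 := by
    apply padicValNat.eq_zero_of_not_dvd
    omega
  rw [this]
  ring

theorem exists_color (w : Walk A) (hc : ∀ a : A, (Iio a).Countable)
    (hunc : ¬ (univ : Set A).Countable) {X Y : Set A} (hX : Unb X) (hY : Unb Y) (n : ℕ) :
    ∃ α ∈ X, ∃ β ∈ Y, α < β ∧ col w α β = n := by
  obtain ⟨α, hα, b, k, hb⟩ := moore w hc hunc hX hY (2 ^ (n + 1))
  have hpos : 0 < 2 ^ (n + 1) := by positivity
  have hmod := Nat.mod_lt k hpos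
  have hdiv := Nat.div_add_mod k (2 ^ (n + 1))
  have hpow : 2 ^ (n + 1) = 2 * 2 ^ n := by ring
  set r := k % 2 ^ (n + 1) with hr
  set t := k / 2 ^ (n + 1) with ht
  rcases le_or_gt r (2 ^ n) with h | h
  · obtain ⟨h1, h2, h3⟩ := hb (2 ^ n - r) (by omega)
    refine ⟨α, hα, b (2 ^ n - r), h1, h2, ?_⟩
    unfold col
    rw [h3]
    have : k + (2 ^ n - r) = 2 ^ n * (2 * t + 1) := by
      have e1 : 2 ^ n * (2 * t + 1) = 2 ^ (n + 1) * t + 2 ^ n := by ring
      rw [e1]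
      omega
    rw [this, padic_aux]
  · obtain ⟨h1, h2, h3⟩ := hb (2 ^ (n + 1) + 2 ^ n - r) (by omega)
    refine ⟨α, hα, b (2 ^ (n + 1) + 2 ^ n - r), h1, h2, ?_⟩
    unfold col
    rw [h3]
    have : k + (2 ^ (n + 1) + 2 ^ n - r) = 2 ^ n * (2 * (t + 1) + 1) := by
      have e1 : 2 ^ n * (2 * (t + 1) + 1) = 2 ^ (n + 1) * t + 2 ^ (n + 1) + 2 ^ n := by ring
      rw [e1]
      omega
    rw [this, padic_aux]

/-- all the points above some `δ` receive the colour `n` from points of `X` below `δ`. -/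
theorem exists_strong (w : Walk A) (hc : ∀ a : A, (Iio a).Countable)
    (hunc : ¬ (univ : Set A).Countable) {X : Set A} (hX : Unb X) (n : ℕ) :
    ∃ δ, ∀ β, δ ≤ β → ∃ α ∈ X, α < δ ∧ col w α β = n := by
  by_contra hcon
  push Not at hcon
  choose α hαX hα using hX
  have h1 : ∀ γ, ∃ b, α γ < b := fun γ => by
    obtain ⟨b, hb⟩ := exists_gt_countable hc hunc (countable_singleton (α γ))
    exact ⟨b, hb _ rfl⟩
  choose δ hδ using h1
  choose β hβ hβ' using fun γ => hcon (δ γ)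
  -- a separated unbounded set of indices
  let P : A → Prop := (wellFounded_lt (α := A)).fix (C := fun _ => Prop) fun γ rec =>
    ∀ γ' (h : γ' < γ), rec γ' h → β γ' < γ
  have hP : ∀ γ, P γ ↔ ∀ γ' < γ, P γ' → β γ' < γ := by
    intro γ
    have := (wellFounded_lt (α := A)).fix_eq (C := fun _ => Prop) (fun γ rec =>
      ∀ γ' (h : γ' < γ), rec γ' h → β γ' < γ) γ
    simp only [P]
    rw [this]
  have hunb : ∀ μ, ∃ γ, P γ ∧ μ < γ := by
    intro μ
    by_contra hcon2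
    push Not at hcon2
    have hcount : (Iic μ).Countable := by
      have : Iic μ = Iio μ ∪ {μ} := by
        ext y
        simp [le_iff_lt_or_eq]
      rw [this]
      exact (hc μ).union (countable_singleton μ)
    obtain ⟨b, hb⟩ := exists_gt_countable hc hunc ((hcount.image β).union hcount)
    have hμb : μ < b := hb μ (Or.inr le_rfl)
    have hPb : P b := by
      rw [hP]
      intro γ' _ h'
      exact hb _ (Or.inl ⟨γ', hcon2 γ' h', rfl⟩)
    exact absurd (hcon2 b hPb) (not_le.2 hμb)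
  have hX' : Unb (α '' {γ | P γ}) := by
    intro μ
    obtain ⟨γ, hγ, hμ⟩ := hunb μ
    exact ⟨α γ, ⟨γ, hγ, rfl⟩, hμ.trans (hα γ)⟩
  have hY' : Unb (β '' {γ | P γ}) := by
    intro μ
    obtain ⟨γ, hγ, hμ⟩ := hunb μ
    exact ⟨β γ, ⟨γ, hγ, rfl⟩, (hμ.trans (hα γ)).trans ((hδ γ).trans_le (hβ γ))⟩
  obtain ⟨_, ⟨γ, hγ, rfl⟩, _, ⟨γ', hγ', rfl⟩, hlt, hcol⟩ := exists_color w hc hunc hX' hY' n
  rcases lt_trichotomy γ γ' with h | h | h
  · have h2 := (hP γ').1 hγ' γ h hγ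
    have h3 : α γ < δ γ' := by
      have := (hδ γ).trans_le (hβ γ)
      exact ((this.trans h2).trans (hα γ')).trans (hδ γ')
    exact hβ' γ' (α γ) (hαX γ) h3 hcol
  · subst h
    exact hβ' γ (α γ) (hαX γ) (hδ γ) hcol
  · have h2 := (hP γ).1 hγ γ' h hγ'
    exact absurd hlt (not_lt.2 (h2.trans (hα γ)).le)

/-- all colours. -/
theorem exists_strong' (w : Walk A) (hc : ∀ a : A, (Iio a).Countable)
    (hunc : ¬ (univ : Set A).Countable) {X : Set A} (hX : Unb X) :
    ∃ δ, ∀ (n : ℕ) (β : A), δ ≤ β → ∃ α ∈ X, α < δ ∧ col w α β = n := by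
  choose δ hδ using fun n => exists_strong w hc hunc hX n
  obtain ⟨b, hb⟩ := exists_gt_countable hc hunc (countable_range δ)
  refine ⟨b, fun n β hβ => ?_⟩
  have h1 := hb _ ⟨n, rfl⟩
  obtain ⟨α, hα, h2, h3⟩ := hδ n β (h1.le.trans hβ)
  exact ⟨α, hα, h2.trans h1, h3⟩

end Pool.Agent.Lib.MP_8f36f1_h17
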