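import Mathlib
import Pool.Agent.Lib.MP_8f36f1_h17.AD

open Cardinal Set

universe u v

namespace Pool.Agent.Lib.MP_8f36f1_h17

variable {A : Type u}

/-- the set of points without `E i`-equivalent `r`-predecessor is small. -/
theorem small_minimal {I : Type u} {E : I → Setoid A} (hE : Measures E)
    (r : A → A → Prop) [hr : IsWellOrder A r] (i : I) :
    Small E {a | ∀ b, r b a → ¬ (E i) b a} := by
  apply small_of_countable_classes' hE i
  intro a ha
  refine (countable_singleton a).mono ?_
  rintro b ⟨hb, hab⟩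
  rcases trichotomous_of r b a with h | h | h
  · exact absurd ((E i).symm hab) (ha b h)
  · exact h
  · exact absurd hab (hb a h)

/-- The diagonal argument: a family which is not small is not measuring if the countable
sequences of its indices can be covered by less than `2 ^ ℵ₀` many countable sequences. -/
theorem not_measures_of_cover {I : Type u} (hA : #A = ℵ_ 1) (E : I → Setoid A)
    (hs : ¬ Small E univ) (𝓗 : Set (ℕ → I))
    (hcov : ∀ s : ℕ → I, ∃ h ∈ 𝓗, ∀ k, ∃ n, h n = s k)
    (hcard : #𝓗 < Cardinal.continuum) : ¬ Measures E := by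
  classical
  intro hE
  obtain ⟨r, hr, hc⟩ := exists_wo hA
  -- a real avoiding fewer than continuum many reals
  have hex : ∀ (g : 𝓗 → ℕ → Bool), ∃ x : ℕ → Bool, ∀ i, g i ≠ x := by
    intro g
    by_contra hcon
    push Not at hcon
    have hsurj : Function.Surjective
        (fun i : 𝓗 => (ULift.up (g i) : ULift.{u} (ℕ → Bool))) := by
      rintro ⟨x⟩
      obtain ⟨i, hi⟩ := hcon x
      exact ⟨i, by simp only [hi]⟩
    have := Cardinal.mk_le_of_surjective hsurj
    have h2 : #(ULift.{u} (ℕ → Bool)) = Cardinal.continuum := by simp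
    rw [h2] at this
    exact absurd this (not_le.2 hcard)
  choose X hX using hex
  -- the guess
  let G : (ℕ → I) → A → (A → ℕ → Bool) → ℕ → Bool := fun h a y k =>
    if hn : ∃ n, ∀ b b', r b a → r b' a → (E (h n)) b b' → y b k = y b' k then
      (if hp : ∃ b, r b a ∧ (E (h (Nat.find hn))) b a then y hp.choose k else true)
    else true
  let wf : WellFounded r := hr.wf
  let z : A → ℕ → Bool := wf.fix (C := fun _ => ℕ → Bool) fun a zs =>
    X fun h => G h.1 a (fun b => if hb : r b a then zs b hb else fun _ => true)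
  have hz : ∀ a, z a = X fun h => G h.1 a (fun b => if r b a then z b else fun _ => true) := by
    intro a
    have := wf.fix_eq (C := fun _ => ℕ → Bool) (fun a zs =>
      X fun h => G h.1 a (fun b => if hb : r b a then zs b hb else fun _ => true)) a
    simp only [z]
    rw [this]
    congr 1
  -- the sets to be measured
  choose ι hι using fun k : ℕ => hE.symm {a | z a k = true}
  obtain ⟨h, hh, hcovh⟩ := hcov ι
  have hbad : ∀ p : ℕ × ℕ, ∃ b b' : A, (¬ ∀ b b', (E (h p.1)) b b' → z b p.2 = z b' p.2) →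
      ((E (h p.1)) b b' ∧ z b p.2 ≠ z b' p.2) := by
    intro p
    by_cases hp : ∀ b b', (E (h p.1)) b b' → z b p.2 = z b' p.2
    · have hne : Nonempty A := by
        by_contra h
        rw [not_nonempty_iff] at h
        exact uncountable_of_card hA (Set.countable_univ_iff.2 inferInstance)
      exact ⟨Classical.arbitrary A, Classical.arbitrary A, fun h => absurd hp h⟩
    · have hp' := hp
      push Not at hp'
      obtain ⟨b, b', h1, h2⟩ := hp'
      exact ⟨b, b', fun _ => ⟨h1, h2⟩⟩
  choose β β' hβ using hbad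
  obtain ⟨a₀, ha₀⟩ := exists_above (r := r) hA hc
    (fun q : (ℕ × ℕ) ⊕ (ℕ × ℕ) => Sum.elim β β' q)
  have hsm1 : Small E (⋃ n, {a | ∀ b, r b a → ¬ (E (h n)) b a}) :=
    small_iUnion hE _ fun n => small_minimal hE r (h n)
  have hsm2 : Small E ({b | r b a₀} ∪ {a₀}) :=
    small_countable hE ((hc a₀).union (countable_singleton a₀))
  have hsm : Small E (⋃ n : ℕ, if n = 0 then (⋃ n, {a | ∀ b, r b a → ¬ (E (h n)) b a}) else
      ({b | r b a₀} ∪ {a₀})) := by
    apply small_iUnion hE
    intro n
    by_cases hn : n = 0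
    · simpa [hn] using hsm1
    · simpa [hn] using hsm2
  have hexa : ∃ a, r a₀ a ∧ ∀ n, ∃ b, r b a ∧ (E (h n)) b a := by
    by_contra hcon
    push Not at hcon
    apply hs
    refine hsm.mono ?_
    intro a _
    rcases trichotomous_of r a₀ a with h1 | h1 | h1
    · obtain ⟨n, hn⟩ := hcon a h1
      refine mem_iUnion.2 ⟨0, ?_⟩
      rw [if_pos rfl]
      exact mem_iUnion.2 ⟨n, hn⟩
    · refine mem_iUnion.2 ⟨1, ?_⟩
      rw [if_neg one_ne_zero]
      exact Or.inr h1.symm
    · refine mem_iUnion.2 ⟨1, ?_⟩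
      rw [if_neg one_ne_zero]
      exact Or.inl h1
  obtain ⟨a, ha₀a, hpre⟩ := hexa
  have hne := hX (fun h => G h.1 a (fun b => if r b a then z b else fun _ => true)) ⟨h, hh⟩
  rw [← hz a] at hne
  apply hne
  funext k
  have hn : ∃ n, ∀ b b', r b a → r b' a → (E (h n)) b b' →
      (if r b a then z b else fun _ => true) k = (if r b' a then z b' else fun _ => true) k := by
    obtain ⟨n, hn⟩ := hcovh k
    refine ⟨n, fun b b' hb hb' hbb => ?_⟩
    rw [if_pos hb, if_pos hb']
    rw [hn] at hbb
    exact Bool.eq_iff_iff.2 (hι k b b' hbb)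
  have hglob : ∀ b b', (E (h (Nat.find hn))) b b' → z b k = z b' k := by
    by_contra hcon
    obtain ⟨h1, h2⟩ := hβ (Nat.find hn, k) hcon
    have hb1 : r (β (Nat.find hn, k)) a :=
      trans_of r (ha₀ (Sum.inl (Nat.find hn, k))) ha₀a
    have hb2 : r (β' (Nat.find hn, k)) a :=
      trans_of r (ha₀ (Sum.inr (Nat.find hn, k))) ha₀a
    have h3 := Nat.find_spec hn _ _ hb1 hb2 h1
    rw [if_pos hb1, if_pos hb2] at h3
    exact h2 h3
  have hp : ∃ b, r b a ∧ (E (h (Nat.find hn))) b a := hpre _
  show G h a (fun b => if r b a then z b else fun _ => true) k = z a k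
  simp only [G]
  rw [dif_pos hn, dif_pos hp, if_pos hp.choose_spec.1]
  exact hglob _ _ hp.choose_spec.2

end Pool.Agent.Lib.MP_8f36f1_h17
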