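import Mathlib
import Pool.Agent.Lib.MP_8f36f1_h17.AD

open Cardinal Set

universe u v

namespace Pool.Agent.Lib.MP_8f36f1_h17

/-- `𝒟` is a cofinal family in `([R]^{≤ ℵ₁}, ⊆)`: its members are subsets of `R` with at most
`ℵ₁` points, and every such subset of `R` is contained in a member of `𝒟`. -/
def IsCofinalAleph1 {R : Type u} (𝒟 : Set (Set R)) : Prop :=
  (∀ D ∈ 𝒟, #D ≤ ℵ_ 1) ∧ ∀ S : Set R, #S ≤ ℵ_ 1 → ∃ D ∈ 𝒟, S ⊆ D

/-- `cof ([R]^{≤ ℵ₁}, ⊆)`. -/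
noncomputable def cofAleph1 (R : Type u) : Cardinal.{u} :=
  sInf {c | ∃ 𝒟 : Set (Set R), #𝒟 = c ∧ IsCofinalAleph1 𝒟}

theorem exists_cofAleph1 (R : Type u) :
    ∃ 𝒟 : Set (Set R), #𝒟 = cofAleph1 R ∧ IsCofinalAleph1 𝒟 := by
  have hne : {c | ∃ 𝒟 : Set (Set R), #𝒟 = c ∧ IsCofinalAleph1 𝒟}.Nonempty :=
    ⟨_, {D | #D ≤ ℵ_ 1}, rfl, fun _ h => h, fun S hS => ⟨S, hS, Subset.rfl⟩⟩
  exact csInf_mem hne

theorem cofAleph1_le {R : Type u} {𝒟 : Set (Set R)} (h : IsCofinalAleph1 𝒟) :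
    cofAleph1 R ≤ #𝒟 := by
  have h' : #𝒟 ∈ {c | ∃ 𝒟 : Set (Set R), #𝒟 = c ∧ IsCofinalAleph1 𝒟} := ⟨𝒟, rfl, h⟩
  exact csInf_le' h'

variable {A : Type u}

/-- A family of pairwise eventually different functions `A → A`. -/
theorem card_ad {I : Type u} {E : I → Setoid A} (hA : #A = ℵ_ 1) (hE : Measures E)
    (hs : ¬ Small E univ) (r : A → A → Prop) [hr : IsWellOrder A r]
    (hc : ∀ a, {b | r b a}.Countable) (𝒳 : Set (A → A))
    (hev : ∀ x ∈ 𝒳, ∀ y ∈ 𝒳, x ≠ y → ∃ a, ∀ b, r a b → x b ≠ y b) :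
    #𝒳 ≤ #I * (#I * ℵ₀) := by
  classical
  obtain ⟨g, hg⟩ := exists_dominating hA hE hs r hc
  choose ι hι using hg
  have hinj : ∀ b, ∃ f : A → ℕ, InjOn f {a | r a b} := fun b =>
    Set.countable_iff_exists_injOn.1 (hc b)
  choose f hf using hinj
  have key : #𝒳 ≤ #I * (#I * ℵ₀) := by
    have h := Cardinal.mk_le_mk_mul_of_mk_preimage_le (c := #I * ℵ₀) (fun x : 𝒳 => ι x.1) ?_
    · exact h
    intro i
    let Φ : (A → A) → (A → ℕ) := fun x a => f (g i a) (x a)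
    let 𝒴 : Set (A → ℕ) := Φ '' {x | x ∈ 𝒳 ∧ ι x = i}
    have hlt : ∀ x, ι x = i → ∀ a, r (x a) (g i a) := by
      rintro x rfl
      exact hι x
    have hne : ∀ x, ι x = i → ∀ y, ι y = i → ∀ b, x b ≠ y b → Φ x b ≠ Φ y b := by
      intro x hx y hy b hb h
      exact hb (hf (g i b) (hlt x hx b) (hlt y hy b) h)
    have h1 : #𝒴 ≤ #I * ℵ₀ := by
      apply card_ad_nat hA hE hs r hc 𝒴
      rintro _ ⟨x, ⟨hx, hxi⟩, rfl⟩ _ ⟨y, ⟨hy, hyi⟩, rfl⟩ hne'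
      have hxy : x ≠ y := fun h => hne' (by rw [h])
      obtain ⟨a, ha⟩ := hev x hx y hy hxy
      exact ⟨a, fun b hb => hne x hxi y hyi b (ha b hb)⟩
    have hinjΦ : InjOn Φ {x | x ∈ 𝒳 ∧ ι x = i} := by
      rintro x ⟨hx, hxi⟩ y ⟨hy, hyi⟩ h
      by_contra hxy
      obtain ⟨a, ha⟩ := hev x hx y hy hxy
      obtain ⟨b, hb⟩ := exists_above (r := r) hA hc (fun _ : Unit => a)
      exact hne x hxi y hyi b (ha b (hb ())) (congrFun h b)
    have h2 : #{x | x ∈ 𝒳 ∧ ι x = i} = #𝒴 := (Cardinal.mk_image_eq_of_injOn _ _ hinjΦ).symm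
    have h3 : #((fun x : 𝒳 => ι x.1) ⁻¹' {i}) ≤ #{x | x ∈ 𝒳 ∧ ι x = i} := by
      refine Cardinal.mk_le_of_injective
        (f := fun x => (⟨x.1.1, x.1.2, x.2⟩ : {x | x ∈ 𝒳 ∧ ι x = i})) ?_
      intro x y h
      have := congrArg Subtype.val h
      exact Subtype.ext (Subtype.ext this)
    exact h3.trans (h2.le.trans h1)
  exact key

/-- The covering bound. -/
theorem two_pow_le_cof {I : Type u} {E : I → Setoid A} (hA : #A = ℵ_ 1) (hE : Measures E)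
    (hs : ¬ Small E univ) (R : Type u) (hR : #R = Cardinal.continuum) (𝒟 : Set (Set R))
    (h𝒟 : IsCofinalAleph1 𝒟) : 2 ^ ℵ_ 1 ≤ #𝒟 * (#I * (#I * ℵ₀)) := by
  classical
  obtain ⟨r, hr, hc⟩ := exists_wo hA
  have hRe : Nonempty ((ULift.{u} (ℕ → Bool)) ≃ R) := by
    rw [← Cardinal.eq, hR]
    simp
  obtain ⟨e⟩ := hRe
  -- codes for initial segments
  have hcode : ∀ a : A, ∃ f : (A → Bool) → R, ∀ x y : A → Bool,
      f x = f y → ∀ b, r b a → x b = y b := by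
    intro a
    obtain ⟨g, hg⟩ := Set.countable_iff_exists_injOn.1 (hc a)
    refine ⟨fun x => e ⟨fun n => if h : ∃ b, r b a ∧ g b = n then x h.choose else true⟩, ?_⟩
    intro x y hxy b hb
    have h1 := congrFun (ULift.up_injective (e.injective hxy)) (g b)
    have hex : ∃ b', r b' a ∧ g b' = g b := ⟨b, hb, rfl⟩
    simp only [dif_pos hex] at h1
    have h2 := hg hex.choose_spec.1 hb hex.choose_spec.2
    rwa [h2] at h1
  choose f hf using hcode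
  -- every `x` is covered
  have hcov : ∀ x : A → Bool, ∃ D : 𝒟, ∀ a, f a x ∈ D.1 := by
    intro x
    have h1 : #(range fun a => f a x) ≤ ℵ_ 1 := Cardinal.mk_range_le.trans hA.le
    obtain ⟨D, hD, hsub⟩ := h𝒟.2 _ h1
    exact ⟨⟨D, hD⟩, fun a => hsub ⟨a, rfl⟩⟩
  choose δ hδ using hcov
  have h := Cardinal.mk_le_mk_mul_of_mk_preimage_le (c := #I * (#I * ℵ₀)) δ ?_
  · have h2 : #(A → Bool) = 2 ^ ℵ_ 1 := by simp [hA]
    rwa [h2] at h
  intro D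
  have hDA : Nonempty (D.1 ↪ A) := by
    rw [← Cardinal.le_def, hA]
    exact h𝒟.1 D.1 D.2
  obtain ⟨j⟩ := hDA
  have hAne : Nonempty A := by
    by_contra h
    rw [not_nonempty_iff] at h
    exact uncountable_of_card hA (Set.countable_univ_iff.2 inferInstance)
  let Φ : (A → Bool) → (A → A) := fun x a =>
    if h : f a x ∈ D.1 then j ⟨f a x, h⟩ else Classical.arbitrary A
  let 𝒳 : Set (A → A) := Φ '' (δ ⁻¹' {D})
  have hmem : ∀ x, δ x = D → ∀ a, f a x ∈ D.1 := by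
    rintro x rfl
    exact hδ x
  have hne : ∀ x, δ x = D → ∀ y, δ y = D → ∀ b, x b ≠ y b → ∀ a, r b a → Φ x a ≠ Φ y a := by
    intro x hx y hy b hb a hba h
    simp only [Φ, dif_pos (hmem x hx a), dif_pos (hmem y hy a)] at h
    have h1 := congrArg Subtype.val (j.injective h)
    exact hb (hf a x y h1 b hba)
  have h1 : #𝒳 ≤ #I * (#I * ℵ₀) := by
    apply card_ad hA hE hs r hc 𝒳
    rintro _ ⟨x, hx, rfl⟩ _ ⟨y, hy, rfl⟩ hne'
    have hxy : x ≠ y := fun h => hne' (by rw [h])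
    obtain ⟨b, hb⟩ := Function.ne_iff.1 hxy
    exact ⟨b, fun a ha => hne x hx y hy b hb a ha⟩
  have hinjΦ : InjOn Φ (δ ⁻¹' {D}) := by
    intro x hx y hy h
    by_contra hxy
    obtain ⟨b, hb⟩ := Function.ne_iff.1 hxy
    obtain ⟨a, ha⟩ := exists_above (r := r) hA hc (fun _ : Unit => b)
    exact hne x hx y hy b hb a (ha ()) (congrFun h a)
  exact (Cardinal.mk_image_eq_of_injOn _ _ hinjΦ).symm.le.trans h1

end Pool.Agent.Lib.MP_8f36f1_h17
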