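import Mathlib

open Cardinal Set

universe u

namespace Pool.Agent.Lib.MP_8f36f1_h17

/-- The members of `𝒰` have at most `ℵ₁` points, and every set with at most `ℵ₁` points is
covered by countably many members of `𝒰`. -/
def IsCov {K : Type u} (𝒰 : Set (Set K)) : Prop :=
  (∀ U ∈ 𝒰, #U ≤ ℵ_ 1) ∧
    ∀ S : Set K, #S ≤ ℵ_ 1 → ∃ U : ℕ → Set K, (∀ n, U n ∈ 𝒰) ∧ S ⊆ ⋃ n, U n

/-- The least size of a family `𝒰` of subsets of `K` with at most `ℵ₁` points such that every
subset of `K` with at most `ℵ₁` points is covered by countably many members of `𝒰`.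
This is Shelah's `cov (|K|, ℵ₂, ℵ₂, ℵ₁)`. -/
noncomputable def covNumber (K : Type u) : Cardinal.{u} :=
  sInf {c | ∃ 𝒰 : Set (Set K), #𝒰 = c ∧ IsCov 𝒰}

/-- `𝒩` is a family of countable subsets of `K` such that every subset of `K` with at most `ℵ₁`
points is covered by countably many sets all whose countable subsets are contained in
members of `𝒩`. -/
def IsMixedCov {K : Type u} (𝒩 : Set (Set K)) : Prop :=
  (∀ N ∈ 𝒩, N.Countable) ∧ ∀ S : Set K, #S ≤ ℵ_ 1 → ∃ T : ℕ → Set K, S ⊆ ⋃ n, T n ∧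
    ∀ n, ∀ C ⊆ T n, C.Countable → ∃ N ∈ 𝒩, C ⊆ N

end Pool.Agent.Lib.MP_8f36f1_h17
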