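import Mathlib
import Pool.Agent.Lib.MP_8f36f1_h17.Cov
import Pool.Agent.Lib.MP_8f36f1_h17.CovDefs

open Cardinal Set

universe u v

namespace Pool.Agent.Lib.MP_8f36f1_h17

/-- if all classes of one relation meet `W` in a small set, then `W` is small. -/
theorem small_of_classes {A : Type u} {I : Type v} {E : I → Setoid A}
    (i : I) (W : Set A) (hi : ∀ a ∈ W, Small E {b | b ∈ W ∧ (E i) a b}) : Small E W := by
  classical
  have h0 : ∀ a, Small E {b | b ∈ W ∧ a ∈ W ∧ (E i) a b} := by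
    intro a
    by_cases ha : a ∈ W
    · refine (hi a ha).mono ?_
      rintro b ⟨h1, _, h2⟩
      exact ⟨h1, h2⟩
    · refine (small_subsingleton E subsingleton_empty).mono ?_
      rintro b ⟨_, h, _⟩
      exact absurd h ha
  choose s hs using h0
  let q : A → Quotient (E i) := fun a => Quotient.mk (E i) a
  let r : Quotient (E i) → A := fun c => if h : ∃ a ∈ W, q a = c then h.choose else c.out
  have hr : ∀ a ∈ W, r (q a) ∈ W ∧ q (r (q a)) = q a := by
    intro a ha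
    have h : ∃ a' ∈ W, q a' = q a := ⟨a, ha, rfl⟩
    simp only [r, dif_pos h]
    exact h.choose_spec
  refine ⟨fun a => insert i (s (r (q a)) a), ?_⟩
  intro a ha b hb hab
  by_cases h : (E i) a b
  · have hq : q a = q b := Quotient.sound h
    obtain ⟨h1, h2⟩ := hr a ha
    have h3 : (E i) (r (q a)) a := Quotient.exact h2
    have h4 : (E i) (r (q a)) b := (E i).trans h3 h
    obtain ⟨j, hj1, hj2, hj3⟩ := hs (r (q a)) a ⟨ha, h1, h3⟩ b ⟨hb, h1, h4⟩ hab
    refine ⟨j, Finset.mem_insert_of_mem hj1, Finset.mem_insert_of_mem ?_, hj3⟩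
    rw [← hq]; exact hj2
  · exact ⟨i, Finset.mem_insert_self _ _, Finset.mem_insert_self _ _, h⟩

theorem exists_not_small {A : Type u} {I : Type v} {E : I → Setoid A} (hE : Measures E)
    {P : Set A} (hP : ¬ Small E P) (Q : ℕ → Set A) (hQ : P ⊆ ⋃ n, Q n) :
    ∃ n, ¬ Small E (P ∩ Q n) := by
  by_contra h
  push Not at h
  apply hP
  refine (small_iUnion hE _ h).mono ?_
  intro a ha
  obtain ⟨n, hn⟩ := mem_iUnion.1 (hQ ha)
  exact mem_iUnion.2 ⟨n, ha, hn⟩

/-- there is a family of at most `κ` functions `A → K` such that every function `A → K` agrees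
with a member of the family on a non-small subset of any given non-small set. -/
def Cap {A I : Type u} (E : I → Setoid A) (K : Type u) (κ : Cardinal.{u}) : Prop :=
  ∃ 𝓖 : Set (A → K), #𝓖 ≤ κ ∧ ∀ P : Set A, ¬ Small E P → ∀ F : A → K,
    ∃ g ∈ 𝓖, ¬ Small E {a | a ∈ P ∧ F a = g a}

theorem Cap.mono {A I : Type u} {E : I → Setoid A} {K : Type u} {κ κ' : Cardinal.{u}}
    (h : Cap E K κ) (hκ : κ ≤ κ') : Cap E K κ' := by
  obtain ⟨𝓖, h1, h2⟩ := h
  exact ⟨𝓖, h1.trans hκ, h2⟩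

theorem cap_self {A I : Type u} {E : I → Setoid A} (hA : #A = ℵ_ 1) (hE : Measures E)
    (hs : ¬ Small E univ) : Cap E A (#I * ℵ₀) := by
  classical
  obtain ⟨r, hr, hc⟩ := exists_wo hA
  obtain ⟨g, hg⟩ := exists_dominating hA hE hs r hc
  have hen : ∀ b : A, ∃ f : ℕ → A, ∀ c, r c b → ∃ n, f n = c := by
    intro b
    by_cases hne : {c | r c b}.Nonempty
    · obtain ⟨f, hf⟩ := (hc b).exists_eq_range hne
      refine ⟨f, fun c hcb => ?_⟩
      have : c ∈ {c | r c b} := hcb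
      rw [hf] at this
      exact this
    · exact ⟨fun _ => b, fun c hcb => absurd ⟨c, hcb⟩ hne⟩
  choose en hen using hen
  refine ⟨range (fun p : I × ℕ => fun a => en (g p.1 a) p.2), ?_, ?_⟩
  · refine Cardinal.mk_range_le.trans ?_
    simp
  · intro P hP F
    obtain ⟨i, hi⟩ := hg F
    choose k hk using fun a => hen (g i a) (F a) (hi a)
    obtain ⟨n, hn⟩ := exists_not_small hE hP (fun n => {a | k a = n})
      (fun a _ => mem_iUnion.2 ⟨k a, rfl⟩)
    refine ⟨_, ⟨(i, n), rfl⟩, fun h => hn (h.mono ?_)⟩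
    rintro a ⟨ha, hka⟩
    refine ⟨ha, ?_⟩
    have hka' : k a = n := hka
    show F a = en (g i a) n
    rw [← hka', hk]

theorem Cap.of_injective {A I K K' : Type u} {E : I → Setoid A} {κ : Cardinal.{u}}
    (h : Cap E K' κ) (j : K → K') (hj : Function.Injective j) (hne : Nonempty A) :
    Cap E K κ := by
  classical
  obtain ⟨𝓖, h1, h2⟩ := h
  by_cases hK : Nonempty K
  · refine ⟨(fun g : A → K' => fun a => Function.invFun j (g a)) '' 𝓖,
      Cardinal.mk_image_le.trans h1, ?_⟩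
    intro P hP F
    obtain ⟨g, hg, hgs⟩ := h2 P hP (fun a => j (F a))
    refine ⟨_, ⟨g, hg, rfl⟩, fun h => hgs (h.mono ?_)⟩
    rintro a ⟨ha, hFa⟩
    have hFa' : j (F a) = g a := hFa
    refine ⟨ha, ?_⟩
    show F a = Function.invFun j (g a)
    rw [← hFa', Function.leftInverse_invFun hj]
  · refine ⟨∅, by simp, ?_⟩
    intro P _ F
    exact absurd ⟨F hne.some⟩ hK

theorem cap_of_cov {A I K : Type u} {E : I → Setoid A} (hA : #A = ℵ_ 1) (hE : Measures E)
    (hs : ¬ Small E univ) {𝒰 : Set (Set K)} (h𝒰 : IsCov 𝒰) :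
    Cap E K (#𝒰 * (#I * ℵ₀)) := by
  classical
  have hne : Nonempty A := by
    by_contra h
    rw [not_nonempty_iff] at h
    exact uncountable_of_card hA (Set.countable_univ_iff.2 inferInstance)
  have h1 : ∀ U : 𝒰, Cap E U.1 (#I * ℵ₀) := by
    intro U
    have h2 : #U.1 ≤ #A := by
      rw [hA]
      exact h𝒰.1 U.1 U.2
    obtain ⟨j⟩ := Cardinal.le_def _ _ |>.1 h2
    exact (cap_self hA hE hs).of_injective j j.injective hne
  choose 𝓖 h𝓖c h𝓖 using h1
  refine ⟨⋃ U : 𝒰, (fun g : A → U.1 => fun a => (g a : K)) '' (𝓖 U), ?_, ?_⟩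
  · refine (Cardinal.mk_iUnion_le _).trans ?_
    exact mul_le_mul' le_rfl (ciSup_le' fun U => Cardinal.mk_image_le.trans (h𝓖c U))
  · intro P hP F
    obtain ⟨U, hU, hsub⟩ := h𝒰.2 (range F) (Cardinal.mk_range_le.trans hA.le)
    obtain ⟨n, hn⟩ := exists_not_small hE hP (fun n => {a | F a ∈ U n}) (fun a _ => by
      obtain ⟨n, hn⟩ := mem_iUnion.1 (hsub ⟨a, rfl⟩)
      exact mem_iUnion.2 ⟨n, hn⟩)
    have hne : (P ∩ {a | F a ∈ U n}).Nonempty := by
      by_contra h
      rw [Set.not_nonempty_iff_eq_empty] at h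
      exact hn (h ▸ small_subsingleton E subsingleton_empty)
    obtain ⟨a₁, _, ha₁⟩ := hne
    obtain ⟨F', hF'⟩ : ∃ F' : A → U n, ∀ a, F a ∈ U n → (F' a : K) = F a := by
      refine ⟨fun a => if h : F a ∈ U n then ⟨F a, h⟩ else ⟨F a₁, ha₁⟩, fun a ha => ?_⟩
      beta_reduce
      rw [dif_pos ha]
    obtain ⟨g, hg, hgs⟩ := h𝓖 ⟨U n, hU n⟩ _ hn F'
    refine ⟨fun a => (g a : K), mem_iUnion.2 ⟨⟨U n, hU n⟩, g, hg, rfl⟩,
      fun h => hgs (h.mono ?_)⟩
    rintro a ⟨⟨ha, hFa⟩, hFg⟩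
    refine ⟨ha, ?_⟩
    show F a = (g a : K)
    rw [← hF' a hFa, hFg]

end Pool.Agent.Lib.MP_8f36f1_h17
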