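import Mathlib
import Pool.Agent.Lib.MP_8f36f1_h17.Cov

open Cardinal Set

universe u v

namespace Pool.Agent.Lib.MP_8f36f1_h17

theorem countable_Iio_of_lt {α : Ordinal.{u}} (hα : α < Ordinal.omega 1) : Countable (Iio α) := by
  rw [← Cardinal.mk_le_aleph0_iff, Cardinal.mk_Iio_ordinal, Cardinal.lift_le_aleph0]
  have h : α.card < ℵ_ 1 := by
    rw [← Cardinal.lt_ord, Cardinal.ord_aleph]
    exact hα
  rwa [Cardinal.lt_aleph_one_iff] at h

theorem two_le : ((ℵ₀ : Cardinal.{u}) ≤ ℵ_ 1) := Cardinal.aleph0_lt_aleph_one.le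

theorem cof_step_univ {B : Type u} (hB : #B ≤ ℵ_ 1) :
    ∃ 𝒟 : Set (Set B), #𝒟 ≤ Cardinal.continuum ∧ IsCofinalAleph1 𝒟 := by
  refine ⟨{Set.univ}, ?_, ?_, ?_⟩
  · rw [Cardinal.mk_singleton]
    exact Cardinal.one_le_aleph0.trans Cardinal.aleph0_le_continuum
  · rintro D rfl
    rwa [Cardinal.mk_univ]
  · intro S _
    exact ⟨Set.univ, rfl, subset_univ _⟩

/-- For every cardinal `ℵ_α` with `α < ω₁` and `ℵ_α ≤ 𝔠`, the family of subsets of size `≤ ℵ₁` has
a cofinal subfamily of size `≤ 𝔠`. -/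
theorem exists_cofinal (α : Ordinal.{u}) : α < Ordinal.omega 1 → ℵ_ α ≤ Cardinal.continuum →
    ∀ B : Type u, #B ≤ ℵ_ α →
      ∃ 𝒟 : Set (Set B), #𝒟 ≤ Cardinal.continuum ∧ IsCofinalAleph1 𝒟 := by
  classical
  induction α using Ordinal.limitRecOn with
  | zero =>
    intro _ _ B hB
    rw [Cardinal.aleph_zero] at hB
    exact cof_step_univ (hB.trans two_le)
  | add_one β ih =>
    intro hβ hle B hB
    rw [← Order.succ_eq_add_one] at hβ hle hB
    have hβ' : β < Ordinal.omega 1 := (Order.lt_succ β).trans hβ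
    have hle' : ℵ_ β ≤ Cardinal.continuum :=
      (Cardinal.aleph_le_aleph.2 (Order.le_succ β)).trans hle
    by_cases hBβ : #B ≤ ℵ_ β
    · exact ih hβ' hle' B hBβ
    rcases eq_or_ne β 0 with rfl | hβ0
    · exact cof_step_univ (by simpa using hB)
    obtain ⟨r, hr, hr'⟩ := Cardinal.exists_ord_eq B
    have hinit : ∀ c, #{b | r b c} ≤ ℵ_ β := by
      intro c
      have h1 := Cardinal.card_typein_lt c hr'
      have h2 : #{b // r b c} < #B := by
        refine lt_of_eq_of_lt ?_ h1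
        rfl
      have h3 : #{b | r b c} < ℵ_ (Order.succ β) := h2.trans_le hB
      rwa [Order.succ_eq_add_one, ← Cardinal.succ_aleph, Order.lt_succ_iff] at h3
    choose 𝒟 h𝒟c h𝒟 using fun c => ih hβ' hle' _ (hinit c)
    refine ⟨⋃ c, (fun D : Set {b | r b c} => (Subtype.val '' D : Set B)) '' (𝒟 c), ?_, ?_, ?_⟩
    · refine (Cardinal.mk_iUnion_le _).trans ?_
      have h1 : (⨆ c, #((fun D : Set {b | r b c} => (Subtype.val '' D : Set B)) '' (𝒟 c))) ≤
          Cardinal.continuum :=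
        ciSup_le' fun c => Cardinal.mk_image_le.trans (h𝒟c c)
      calc _ ≤ Cardinal.continuum * Cardinal.continuum :=
            mul_le_mul' (hB.trans hle) h1
        _ = Cardinal.continuum := by simp
    · intro D hD
      obtain ⟨c, D', hD', rfl⟩ := mem_iUnion.1 hD
      exact Cardinal.mk_image_le.trans ((h𝒟 c).1 D' hD')
    · intro S hS
      have hbd : ∃ c, ∀ s ∈ S, r s c := by
        by_contra hcon
        push Not at hcon
        have hsub : (univ : Set B) ⊆ ⋃ s : S, ({b | r b s.1} ∪ {s.1}) := by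
          intro c _
          obtain ⟨s, hs, hsc⟩ := hcon c
          refine mem_iUnion.2 ⟨⟨s, hs⟩, ?_⟩
          rcases trichotomous_of r s c with h | h | h
          · exact absurd h hsc
          · exact Or.inr h.symm
          · exact Or.inl h
        have h1 : #B ≤ ℵ_ 1 * ℵ_ β := by
          rw [← Cardinal.mk_univ]
          refine (Cardinal.mk_le_mk_of_subset hsub).trans ?_
          refine (Cardinal.mk_iUnion_le _).trans ?_
          refine mul_le_mul' hS (ciSup_le' fun s => ?_)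
          refine (Cardinal.mk_union_le _ _).trans ?_
          rw [Cardinal.mk_singleton]
          exact Cardinal.add_le_of_le (Cardinal.aleph0_le_aleph β) (hinit _)
            (Cardinal.one_le_aleph0.trans (Cardinal.aleph0_le_aleph β))
        have h2 : ℵ_ 1 * ℵ_ β = ℵ_ β := by
          rw [Cardinal.aleph_mul_aleph]
          congr 1
          exact max_eq_right (Order.one_le_iff_ne_zero.2 hβ0)
        rw [h2] at h1
        exact hBβ h1
      obtain ⟨c, hc⟩ := hbd
      obtain ⟨D, hD, hSD⟩ := (h𝒟 c).2 (Subtype.val ⁻¹' S) (by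
        refine (Cardinal.mk_preimage_of_injective _ _ Subtype.val_injective).trans hS)
      refine ⟨Subtype.val '' D, mem_iUnion.2 ⟨c, D, hD, rfl⟩, ?_⟩
      intro s hs
      exact ⟨⟨s, hc s hs⟩, hSD hs, rfl⟩
  | limit α hα ih =>
    intro hα1 hle B hB
    have hcount := countable_Iio_of_lt hα1
    have hne : Nonempty (Iio α) := ⟨⟨0, hα.bot_lt⟩⟩
    obtain ⟨s, hs⟩ := exists_surjective_nat (Iio α)
    have hsum : ℵ_ α ≤ Cardinal.sum (fun n : ULift.{u} ℕ => ℵ_ (s n.down).1) := by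
      rw [Cardinal.aleph_limit hα]
      refine ciSup_le' fun a => ?_
      obtain ⟨n, hn⟩ := hs a
      rw [← hn]
      exact Cardinal.le_sum (fun n : ULift.{u} ℕ => ℵ_ (s n.down).1) ⟨n⟩
    have hemb : Nonempty (B ↪ Σ n : ULift.{u} ℕ, (ℵ_ (s n.down).1).out) := by
      rw [← Cardinal.le_def]
      refine (hB.trans hsum).trans ?_
      rw [Cardinal.mk_sigma]
      simp
    obtain ⟨j⟩ := hemb
    obtain ⟨C, hCdef⟩ : ∃ C : ULift.{u} ℕ → Set B, C = fun n => {b | (j b).1 = n} := ⟨_, rfl⟩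
    have hC : ∀ n, #(C n) ≤ ℵ_ (s n.down).1 := by
      intro n
      have hm' : ∀ b : B, b ∈ C n → (j b).1 = n := by
        intro b hb
        rw [hCdef] at hb
        exact hb
      have hm : ∀ b : C n, (j b.1).1 = n := fun b => hm' b.1 b.2
      have h1 : #(C n) ≤ #{p : Σ n : ULift.{u} ℕ, (ℵ_ (s n.down).1).out // p.1 = n} := by
        refine Cardinal.mk_le_of_injective (f := fun b : C n => ⟨j b.1, hm b⟩) ?_
        intro b b' h
        exact Subtype.ext (j.injective (congrArg Subtype.val h))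
      refine h1.trans ?_
      rw [Cardinal.mk_congr (Equiv.sigmaSubtype n), Cardinal.mk_out]
    have hlt : ∀ n : ULift.{u} ℕ, (s n.down).1 < α := fun n => (s n.down).2
    have hom : ∀ n : ULift.{u} ℕ, (s n.down).1 < Ordinal.omega 1 := fun n => (hlt n).trans hα1
    have hal : ∀ n : ULift.{u} ℕ, ℵ_ (s n.down).1 ≤ Cardinal.continuum := fun n =>
      (Cardinal.aleph_le_aleph.2 (hlt n).le).trans hle
    have hex : ∀ n : ULift.{u} ℕ, ∃ 𝒟 : Set (Set (C n)),
        #𝒟 ≤ Cardinal.continuum ∧ IsCofinalAleph1 𝒟 := by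
      intro n
      exact ih (s n.down).1 (hlt n) (hom n) (hal n) (C n) (hC n)
    choose 𝒟 h𝒟c h𝒟 using hex
    refine ⟨range fun D : (∀ n, 𝒟 n) => ⋃ n, (Subtype.val '' (D n).1 : Set B), ?_, ?_, ?_⟩
    · refine Cardinal.mk_range_le.trans ?_
      rw [Cardinal.mk_pi]
      refine (Cardinal.prod_le_prod _ _ h𝒟c).trans ?_
      simp
    · rintro _ ⟨D, rfl⟩
      refine (Cardinal.mk_iUnion_le _).trans ?_
      have h1 : (⨆ n, #(Subtype.val '' (D n).1 : Set B)) ≤ ℵ_ 1 :=
        ciSup_le' fun n => Cardinal.mk_image_le.trans ((h𝒟 n).1 _ (D n).2)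
      calc _ ≤ ℵ_ 1 * ℵ_ 1 := mul_le_mul' (by simp) h1
        _ = ℵ_ 1 := Cardinal.mul_eq_self (Cardinal.aleph0_le_aleph 1)
    · intro S hS
      have h1 : ∀ n, ∃ D : 𝒟 n, (Subtype.val ⁻¹' S : Set (C n)) ⊆ D.1 := by
        intro n
        obtain ⟨D, hD, hSD⟩ := (h𝒟 n).2 (Subtype.val ⁻¹' S)
          ((Cardinal.mk_preimage_of_injective _ _ Subtype.val_injective).trans hS)
        exact ⟨⟨D, hD⟩, hSD⟩
      choose D hD using h1
      refine ⟨_, ⟨D, rfl⟩, ?_⟩
      intro b hb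
      exact mem_iUnion.2 ⟨(j b).1, ⟨b, by rw [hCdef]; rfl⟩, hD _ hb, rfl⟩

end Pool.Agent.Lib.MP_8f36f1_h17
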