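import Mathlib
import Pool.Agent.Lib.MP_8f36f1_h17.Capture
import Pool.Agent.Lib.MP_8f36f1_h17.SmallCont

open Cardinal Set

universe u v

namespace Pool.Agent.Lib.MP_8f36f1_h17

theorem exists_covNumber (K : Type u) : ∃ 𝒰 : Set (Set K), #𝒰 = covNumber K ∧ IsCov 𝒰 := by
  have hne : {c | ∃ 𝒰 : Set (Set K), #𝒰 = c ∧ IsCov 𝒰}.Nonempty :=
    ⟨_, {D | #D ≤ ℵ_ 1}, rfl, fun _ h => h, fun S hS =>
      ⟨fun _ => S, fun _ => hS, fun x hx => mem_iUnion.2 ⟨0, hx⟩⟩⟩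
  exact csInf_mem hne

theorem covNumber_le {K : Type u} {𝒰 : Set (Set K)} (h : IsCov 𝒰) : covNumber K ≤ #𝒰 := by
  have h' : #𝒰 ∈ {c | ∃ 𝒰 : Set (Set K), #𝒰 = c ∧ IsCov 𝒰} := ⟨𝒰, rfl, h⟩
  exact csInf_le' h'

theorem isCov_univ {K : Type u} (hK : #K ≤ ℵ_ 1) : IsCov ({Set.univ} : Set (Set K)) := by
  refine ⟨?_, ?_⟩
  · rintro D rfl
    rwa [Cardinal.mk_univ]
  · intro S _
    exact ⟨fun _ => Set.univ, fun _ => rfl, fun x _ => mem_iUnion.2 ⟨0, mem_univ x⟩⟩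

/-- families of initial segments. -/
theorem isCov_of_bounded {K : Type u} (r : K → K → Prop)
    (hbd : ∀ S : Set K, #S ≤ ℵ_ 1 → ∃ c, ∀ s ∈ S, r s c)
    (𝒰 : ∀ c, Set (Set {b | r b c})) (h𝒰 : ∀ c, IsCov (𝒰 c)) :
    IsCov (⋃ c, (fun D : Set {b | r b c} => (Subtype.val '' D : Set K)) '' (𝒰 c)) := by
  refine ⟨?_, ?_⟩
  · intro D hD
    obtain ⟨c, D', hD', rfl⟩ := mem_iUnion.1 hD
    exact Cardinal.mk_image_le.trans ((h𝒰 c).1 D' hD')
  · intro S hS
    obtain ⟨c, hc⟩ := hbd S hS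
    obtain ⟨U, hU, hSU⟩ := (h𝒰 c).2 (Subtype.val ⁻¹' S)
      ((Cardinal.mk_preimage_of_injective _ _ Subtype.val_injective).trans hS)
    refine ⟨fun n => Subtype.val '' (U n), fun n => mem_iUnion.2 ⟨c, U n, hU n, rfl⟩, ?_⟩
    intro s hs
    have h1 : (⟨s, hc s hs⟩ : {b | r b c}) ∈ Subtype.val ⁻¹' S := hs
    obtain ⟨n, hn⟩ := mem_iUnion.1 (hSU h1)
    exact mem_iUnion.2 ⟨n, ⟨s, hc s hs⟩, hn, rfl⟩

/-- in a well order whose order type is an initial ordinal, small sets are bounded if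
the cardinality is not the supremum of `ℵ₁` smaller cardinals. -/
theorem bounded_of_not_le {K : Type u} (r : K → K → Prop) [hr : IsWellOrder K r]
    (S : Set K) (hS : ¬ (univ : Set K) ⊆ ⋃ s : S, ({b | r b s.1} ∪ {s.1})) :
    ∃ c, ∀ s ∈ S, r s c := by
  by_contra hcon
  push Not at hcon
  apply hS
  intro c _
  obtain ⟨s, hs, hsc⟩ := hcon c
  refine mem_iUnion.2 ⟨⟨s, hs⟩, ?_⟩
  rcases trichotomous_of r s c with h | h | h
  · exact absurd h hsc
  · exact Or.inr h.symm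
  · exact Or.inl h

/-- For `α < ω₁` and a set `K` of size at most `ℵ_α` the covering number is at most `ℵ_α`. -/
theorem exists_isCov (α : Ordinal.{u}) : α < Ordinal.omega 1 →
    ∀ K : Type u, #K ≤ ℵ_ α → ∃ 𝒰 : Set (Set K), #𝒰 ≤ ℵ_ α ∧ IsCov 𝒰 := by
  classical
  have hone : ∀ (K : Type u) (β : Ordinal.{u}), #({Set.univ} : Set (Set K)) ≤ ℵ_ β := by
    intro K β
    rw [Cardinal.mk_singleton]
    exact Cardinal.one_le_aleph0.trans (Cardinal.aleph0_le_aleph β)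
  induction α using Ordinal.limitRecOn with
  | zero =>
    intro _ K hK
    rw [Cardinal.aleph_zero] at hK
    exact ⟨_, hone K 0, isCov_univ (hK.trans two_le)⟩
  | add_one β ih =>
    intro hβ K hK
    rw [← Order.succ_eq_add_one] at hβ hK ⊢
    have hβ' : β < Ordinal.omega 1 := (Order.lt_succ β).trans hβ
    have hle : ℵ_ β ≤ ℵ_ (Order.succ β) := Cardinal.aleph_le_aleph.2 (Order.le_succ β)
    by_cases hKβ : #K ≤ ℵ_ β
    · obtain ⟨𝒰, h1, h2⟩ := ih hβ' K hKβ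
      exact ⟨𝒰, h1.trans hle, h2⟩
    rcases eq_or_ne β 0 with rfl | hβ0
    · exact ⟨_, hone K _, isCov_univ (by simpa using hK)⟩
    obtain ⟨r, hr, hr'⟩ := Cardinal.exists_ord_eq K
    have hinit : ∀ c, #{b | r b c} ≤ ℵ_ β := by
      intro c
      have h1 := Cardinal.card_typein_lt c hr'
      have h2 : #{b // r b c} < #K := by
        refine lt_of_eq_of_lt ?_ h1
        rfl
      have h3 : #{b | r b c} < ℵ_ (Order.succ β) := h2.trans_le hK
      rwa [Order.succ_eq_add_one, ← Cardinal.succ_aleph, Order.lt_succ_iff] at h3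
    choose 𝒰 h𝒰c h𝒰 using fun c => ih hβ' _ (hinit c)
    refine ⟨_, ?_, isCov_of_bounded r ?_ 𝒰 h𝒰⟩
    · refine (Cardinal.mk_iUnion_le _).trans ?_
      have h1 : (⨆ c, #((fun D : Set {b | r b c} => (Subtype.val '' D : Set K)) '' (𝒰 c))) ≤
          ℵ_ (Order.succ β) :=
        ciSup_le' fun c => Cardinal.mk_image_le.trans ((h𝒰c c).trans hle)
      calc _ ≤ ℵ_ (Order.succ β) * ℵ_ (Order.succ β) := mul_le_mul' hK h1
        _ = ℵ_ (Order.succ β) := Cardinal.mul_eq_self (Cardinal.aleph0_le_aleph _)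
    · intro S hS
      apply bounded_of_not_le r S
      intro hsub
      have h1 : #K ≤ ℵ_ 1 * ℵ_ β := by
        rw [← Cardinal.mk_univ]
        refine (Cardinal.mk_le_mk_of_subset hsub).trans ?_
        refine (Cardinal.mk_iUnion_le _).trans ?_
        refine mul_le_mul' hS (ciSup_le' fun s => ?_)
        refine (Cardinal.mk_union_le _ _).trans ?_
        rw [Cardinal.mk_singleton]
        exact Cardinal.add_le_of_le (Cardinal.aleph0_le_aleph β) (hinit _)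
          (Cardinal.one_le_aleph0.trans (Cardinal.aleph0_le_aleph β))
      have h2 : ℵ_ 1 * ℵ_ β = ℵ_ β := by
        rw [Cardinal.aleph_mul_aleph]
        congr 1
        exact max_eq_right (Order.one_le_iff_ne_zero.2 hβ0)
      rw [h2] at h1
      exact hKβ h1
  | limit α hα ih =>
    intro hα1 K hK
    have hcount := countable_Iio_of_lt hα1
    have hne : Nonempty (Iio α) := ⟨⟨0, hα.bot_lt⟩⟩
    obtain ⟨s, hs⟩ := exists_surjective_nat (Iio α)
    have hsum : ℵ_ α ≤ Cardinal.sum (fun n : ULift.{u} ℕ => ℵ_ (s n.down).1) := by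
      rw [Cardinal.aleph_limit hα]
      refine ciSup_le' fun a => ?_
      obtain ⟨n, hn⟩ := hs a
      rw [← hn]
      exact Cardinal.le_sum (fun n : ULift.{u} ℕ => ℵ_ (s n.down).1) ⟨n⟩
    have hemb : Nonempty (K ↪ Σ n : ULift.{u} ℕ, (ℵ_ (s n.down).1).out) := by
      rw [← Cardinal.le_def]
      refine (hK.trans hsum).trans ?_
      rw [Cardinal.mk_sigma]
      simp
    obtain ⟨j⟩ := hemb
    obtain ⟨C, hCdef⟩ : ∃ C : ULift.{u} ℕ → Set K, C = fun n => {b | (j b).1 = n} := ⟨_, rfl⟩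
    have hC : ∀ n, #(C n) ≤ ℵ_ (s n.down).1 := by
      intro n
      have hm' : ∀ b : K, b ∈ C n → (j b).1 = n := by
        intro b hb
        rw [hCdef] at hb
        exact hb
      have hm : ∀ b : C n, (j b.1).1 = n := fun b => hm' b.1 b.2
      have h1 : #(C n) ≤ #{p : Σ n : ULift.{u} ℕ, (ℵ_ (s n.down).1).out // p.1 = n} := by
        refine Cardinal.mk_le_of_injective (f := fun b : C n => ⟨j b.1, hm b⟩) ?_
        intro b b' h
        exact Subtype.ext (j.injective (congrArg Subtype.val h))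
      refine h1.trans ?_
      rw [Cardinal.mk_congr (Equiv.sigmaSubtype n), Cardinal.mk_out]
    have hlt : ∀ n : ULift.{u} ℕ, (s n.down).1 < α := fun n => (s n.down).2
    have hom : ∀ n : ULift.{u} ℕ, (s n.down).1 < Ordinal.omega 1 := fun n => (hlt n).trans hα1
    have hex : ∀ n : ULift.{u} ℕ, ∃ 𝒰 : Set (Set (C n)), #𝒰 ≤ ℵ_ α ∧ IsCov 𝒰 := by
      intro n
      obtain ⟨𝒰, h1, h2⟩ := ih (s n.down).1 (hlt n) (hom n) (C n) (hC n)
      exact ⟨𝒰, h1.trans (Cardinal.aleph_le_aleph.2 (hlt n).le), h2⟩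
    choose 𝒰 h𝒰c h𝒰 using hex
    refine ⟨⋃ n, (fun D : Set (C n) => (Subtype.val '' D : Set K)) '' (𝒰 n), ?_, ?_, ?_⟩
    · refine (Cardinal.mk_iUnion_le _).trans ?_
      have h1 : (⨆ n, #((fun D : Set (C n) => (Subtype.val '' D : Set K)) '' (𝒰 n))) ≤ ℵ_ α :=
        ciSup_le' fun n => Cardinal.mk_image_le.trans (h𝒰c n)
      calc _ ≤ ℵ_ α * ℵ_ α := mul_le_mul' (by simp) h1
        _ = ℵ_ α := Cardinal.mul_eq_self (Cardinal.aleph0_le_aleph _)
    · intro D hD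
      obtain ⟨c, D', hD', rfl⟩ := mem_iUnion.1 hD
      exact Cardinal.mk_image_le.trans ((h𝒰 c).1 D' hD')
    · intro S hS
      have h1 : ∀ n, ∃ U : ℕ → Set (C n), (∀ m, U m ∈ 𝒰 n) ∧
          (Subtype.val ⁻¹' S : Set (C n)) ⊆ ⋃ m, U m := by
        intro n
        exact (h𝒰 n).2 (Subtype.val ⁻¹' S)
          ((Cardinal.mk_preimage_of_injective _ _ Subtype.val_injective).trans hS)
      choose U hU hSU using h1
      refine ⟨fun m => Subtype.val '' (U ⟨(Nat.unpair m).1⟩ (Nat.unpair m).2),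
        fun m => mem_iUnion.2 ⟨_, _, hU _ _, rfl⟩, ?_⟩
      intro b hb
      have hbC : b ∈ C (j b).1 := by rw [hCdef]; rfl
      have h2 : (⟨b, hbC⟩ : C (j b).1) ∈ Subtype.val ⁻¹' S := hb
      obtain ⟨m, hm⟩ := mem_iUnion.1 (hSU _ h2)
      have hpair : ∀ (n' : ULift.{u} ℕ) (m : ℕ), ∃ k : ℕ,
          (Subtype.val '' (U ⟨(Nat.unpair k).1⟩ (Nat.unpair k).2) : Set K) =
            Subtype.val '' (U n' m) := by
        rintro ⟨n'⟩ m
        refine ⟨Nat.pair n' m, ?_⟩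
        rw [Nat.unpair_pair]
      obtain ⟨k, hk⟩ := hpair (j b).1 m
      refine mem_iUnion.2 ⟨k, ?_⟩
      show b ∈ (Subtype.val '' (U ⟨(Nat.unpair k).1⟩ (Nat.unpair k).2) : Set K)
      rw [hk]
      exact ⟨⟨b, hbC⟩, hm, rfl⟩

theorem covNumber_le_aleph {α : Ordinal.{u}} (hα : α < Ordinal.omega 1) {K : Type u}
    (hK : #K ≤ ℵ_ α) : covNumber K ≤ ℵ_ α := by
  obtain ⟨𝒰, h1, h2⟩ := exists_isCov α hα K hK
  exact (covNumber_le h2).trans h1

theorem Cap.of_covNumber {A I : Type u} {E : I → Setoid A} (hA : #A = ℵ_ 1) (hE : Measures E)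
    (hs : ¬ Small E univ) (K : Type u) : Cap E K (covNumber K * (#I * ℵ₀)) := by
  obtain ⟨𝒰, h1, h2⟩ := exists_covNumber K
  rw [← h1]
  exact cap_of_cov hA hE hs h2

end Pool.Agent.Lib.MP_8f36f1_h17
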