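import Mathlib
import Pool.Agent.Lib.MP_8f36f1_h17.Cont
import Pool.Agent.Lib.MP_8f36f1_h17.Color
import Pool.Agent.Lib.MP_8f36f1_h17.CovNum

open Cardinal Set

universe u v

namespace Pool.Agent.Lib.MP_8f36f1_h17

/-- The diagonal argument with Moore's colouring. -/
theorem diag {A : Type u} [LinearOrder A] [WellFoundedLT A] {I : Type u} (hA : #A = ℵ_ 1)
    (hc : ∀ a : A, (Iio a).Countable) (w : Walk A) (E : I → Setoid A)
    (hs : ¬ Small E univ) (𝒬 : Set ((ℕ → A) × (ℕ → I))) (hcard : #𝒬 < Cardinal.continuum)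
    (hcap : ∀ F : A → I, ∃ X : Set A, ¬ X.Countable ∧ ∀ δ, ∃ Q ∈ 𝒬,
      (∀ l, Q.2 l = F (Q.1 l)) ∧ ∀ α ∈ X, α < δ → ∃ l, Q.1 l = α) : ¬ Measures E := by
  classical
  intro hE
  have hex : ∀ (g : 𝒬 → ℕ → Bool), ∃ x : ℕ → Bool, ∀ i, g i ≠ x := by
    intro g
    by_contra hcon
    push Not at hcon
    have hsurj : Function.Surjective
        (fun i : 𝒬 => (ULift.up (g i) : ULift.{u} (ℕ → Bool))) := by
      rintro ⟨x⟩
      obtain ⟨i, hi⟩ := hcon x
      exact ⟨i, by simp only [hi]⟩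
    have := Cardinal.mk_le_of_surjective hsurj
    have h2 : #(ULift.{u} (ℕ → Bool)) = Cardinal.continuum := by simp
    rw [h2] at this
    exact absurd this (not_le.2 hcard)
  choose X hX using hex
  -- the guess
  let G : ((ℕ → A) × (ℕ → I)) → A → (A → ℕ → Bool) → ℕ → Bool := fun Q a y n =>
    if hl : ∃ l, col w (Q.1 l) a = n ∧ ∃ b, b < a ∧ (E (Q.2 l)) b a then
      y (Nat.find_spec hl).2.choose (col w (Q.1 (Nat.find hl)) (Nat.find_spec hl).2.choose)
    else true
  let wf : WellFounded ((· < ·) : A → A → Prop) := wellFounded_lt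
  let z : A → ℕ → Bool := wf.fix (C := fun _ => ℕ → Bool) fun a zs =>
    X fun h => G h.1 a (fun b => if hb : b < a then zs b hb else fun _ => true)
  have hz : ∀ a, z a = X fun h => G h.1 a (fun b => if b < a then z b else fun _ => true) := by
    intro a
    have := wf.fix_eq (C := fun _ => ℕ → Bool) (fun a zs =>
      X fun h => G h.1 a (fun b => if hb : b < a then zs b hb else fun _ => true)) a
    simp only [z]
    rw [this]
    congr 1
  choose ι hι using fun ξ : A => hE.symm {b | z b (col w ξ b) = true}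
  obtain ⟨Y, hYu, hY⟩ := hcap ι
  have hYunb : Unb Y := unb_of_uncountable hc hYu
  obtain ⟨δ, hδ⟩ := exists_strong' w hc (uncountable_of_card hA) hYunb
  obtain ⟨Q, hQ, hQ2, hQcov⟩ := hY δ
  have hsm1 : Small E (⋃ l, {a | ∀ b, b < a → ¬ (E (Q.2 l)) b a}) :=
    small_iUnion hE _ fun l => small_minimal hE (fun x y : A => x < y) (Q.2 l)
  have hsm2 : Small E (Iio δ) := small_countable hE (hc δ)
  have hsm : Small E (⋃ n : ℕ, if n = 0 then (⋃ l, {a | ∀ b, b < a → ¬ (E (Q.2 l)) b a}) else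
      (Iio δ)) := by
    apply small_iUnion hE
    intro n
    by_cases hn : n = 0
    · simpa [hn] using hsm1
    · simpa [hn] using hsm2
  have hexa : ∃ a, δ ≤ a ∧ ∀ l, ∃ b, b < a ∧ (E (Q.2 l)) b a := by
    by_contra hcon
    push Not at hcon
    apply hs
    refine hsm.mono ?_
    intro a _
    rcases le_or_gt δ a with h1 | h1
    · obtain ⟨n, hn⟩ := hcon a h1
      refine mem_iUnion.2 ⟨0, ?_⟩
      rw [if_pos rfl]
      exact mem_iUnion.2 ⟨n, hn⟩
    · refine mem_iUnion.2 ⟨1, ?_⟩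
      rw [if_neg one_ne_zero]
      exact h1
  obtain ⟨a, hδa, hpre⟩ := hexa
  have hne := hX (fun h => G h.1 a (fun b => if b < a then z b else fun _ => true)) ⟨Q, hQ⟩
  rw [← hz a] at hne
  apply hne
  funext n
  obtain ⟨α, hαY, hαδ, hcol⟩ := hδ n a hδa
  obtain ⟨l, hl⟩ := hQcov α hαY hαδ
  have hl' : ∃ l, col w (Q.1 l) a = n ∧ ∃ b, b < a ∧ (E (Q.2 l)) b a :=
    ⟨l, by rw [hl]; exact hcol, hpre l⟩
  show G Q a (fun b => if b < a then z b else fun _ => true) n = z a n
  simp only [G]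
  rw [dif_pos hl']
  have hn := (Nat.find_spec hl').1
  have key : ∀ b, b < a → (E (Q.2 (Nat.find hl'))) b a →
      z b (col w (Q.1 (Nat.find hl')) b) = z a n := by
    intro b _ hb2
    rw [hQ2] at hb2
    have h3 : z b (col w (Q.1 (Nat.find hl')) b) = z a (col w (Q.1 (Nat.find hl')) a) :=
      Bool.eq_iff_iff.2 (hι (Q.1 (Nat.find hl')) _ _ hb2)
    rw [h3, hn]
  rw [if_pos (Nat.find_spec hl').2.choose_spec.1]
  exact key _ (Nat.find_spec hl').2.choose_spec.1 (Nat.find_spec hl').2.choose_spec.2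

/-- A non-small measuring family with fewer than `2 ^ ℵ₀` relations: the functions into the index
set cannot be captured by fewer than `2 ^ ℵ₀` functions. -/
theorem not_measures_of_cap {A I : Type u} (hA : #A = ℵ_ 1) (E : I → Setoid A)
    (hs : ¬ Small E univ) (hI : #I < Cardinal.continuum) {κ : Cardinal.{u}}
    (hκ : κ < Cardinal.continuum) (hcap : Cap E I κ) : ¬ Measures E := by
  classical
  intro hE
  have hcont : (ℵ₀ : Cardinal.{u}) < Cardinal.continuum := Cardinal.aleph0_lt_continuum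
  rcases le_or_gt #I ℵ₀ with hI0 | hI0
  · -- countable index set
    have hIne : Nonempty I := ⟨(hE ∅).choose⟩
    have hcount : Countable I := Cardinal.mk_le_aleph0_iff.1 hI0
    obtain ⟨f, hf⟩ := exists_surjective_nat I
    refine not_measures_of_cover hA E hs {f} ?_ ?_ hE
    · intro s
      exact ⟨f, rfl, fun k => hf (s k)⟩
    · rw [Cardinal.mk_singleton]
      exact Cardinal.one_lt_aleph0.trans hcont
  · have hI1 : ℵ_ 1 ≤ #I := by
      rw [← Cardinal.succ_aleph0, Order.succ_le_iff]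
      exact hI0
    have h1c : (ℵ_ 1 : Cardinal.{u}) < Cardinal.continuum := hI1.trans_lt hI
    obtain ⟨r, hr, hc⟩ := exists_wo hA
    let _ : LinearOrder A := linearOrderOfSTO r
    have _ : WellFoundedLT A := ⟨hr.wf⟩
    have hc' : ∀ a : A, (Iio a).Countable := hc
    have hne : Nonempty A := by
      by_contra h
      rw [not_nonempty_iff] at h
      exact uncountable_of_card hA (Set.countable_univ_iff.2 inferInstance)
    obtain ⟨w⟩ := Walk.exists_walk hc' hne
    obtain ⟨𝓖, h𝓖c, h𝓖⟩ := hcap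
    -- enumerations
    have hB : ∀ p : I × A × A, ∃ B : ℕ → A,
        range B = {p.2.1} ∪ ({b | (E p.1) p.2.1 b} ∩ Iio p.2.2) := by
      intro p
      have h1 : ({p.2.1} ∪ ({b | (E p.1) p.2.1 b} ∩ Iio p.2.2)).Countable :=
        (countable_singleton _).union ((hc' p.2.2).mono inter_subset_right)
      obtain ⟨f, hf⟩ := h1.exists_eq_range ⟨p.2.1, Or.inl rfl⟩
      exact ⟨f, hf.symm⟩
    choose B hB using hB
    refine diag hA hc' w E hs
      (range fun q : 𝓖 × I × A × A => (B q.2, fun n => q.1.1 (B q.2 n))) ?_ ?_ hE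
    · refine Cardinal.mk_range_le.trans_lt ?_
      simp only [Cardinal.mk_prod, Cardinal.lift_id]
      rw [hA]
      exact Cardinal.mul_lt_of_lt hcont.le (h𝓖c.trans_lt hκ)
        (Cardinal.mul_lt_of_lt hcont.le hI (Cardinal.mul_lt_of_lt hcont.le h1c h1c))
    · intro F
      obtain ⟨g, hg, hgs⟩ := h𝓖 univ hs F
      obtain ⟨i, hi⟩ := hE.symm {a | a ∈ (Set.univ : Set A) ∧ F a = g a}
      have hex : ∃ a₀ ∈ {a | a ∈ (Set.univ : Set A) ∧ F a = g a}, ¬ {b | (E i) a₀ b}.Countable := by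
        by_contra hcon
        push Not at hcon
        apply hgs
        apply small_of_countable_classes' hE i
        intro a ha
        exact (hcon a ha).mono fun b hb => hb.2
      obtain ⟨a₀, ha₀, hunc⟩ := hex
      refine ⟨_, hunc, fun δ => ⟨_, ⟨(⟨g, hg⟩, i, a₀, δ), rfl⟩, ?_, ?_⟩⟩
      · intro l
        show g (B (i, a₀, δ) l) = F (B (i, a₀, δ) l)
        have h1 : B (i, a₀, δ) l ∈ range (B (i, a₀, δ)) := ⟨l, rfl⟩
        rw [hB] at h1
        rcases h1 with h1 | h1
        · have h2 : B (i, a₀, δ) l = a₀ := h1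
          rw [h2]
          exact ha₀.2.symm
        · exact ((hi _ _ h1.1).1 ha₀).2.symm
      · intro α hα hαδ
        have h1 : α ∈ range (B (i, a₀, δ)) := by
          rw [hB]
          exact Or.inr ⟨hα, hαδ⟩
        exact h1

/-- The bound obtained from capturing functions with values in a set of size continuum. -/
theorem two_pow_le_of_cap {A I : Type u} (hA : #A = ℵ_ 1) (E : I → Setoid A)
    (hE : Measures E) (K : Type u) (hK : #K = Cardinal.continuum) {κ : Cardinal.{u}}
    (hs : ¬ Small E univ) (hcap : Cap E K κ) : 2 ^ ℵ_ 1 ≤ κ * (#I * ℵ_ 1) := by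
  classical
  obtain ⟨r, hr, hc⟩ := exists_wo hA
  have hRe : Nonempty ((ULift.{u} (ℕ → Bool)) ≃ K) := by
    rw [← Cardinal.eq, hK]
    simp
  obtain ⟨e⟩ := hRe
  have hcode : ∀ a : A, ∃ f : (A → Bool) → K, ∀ x y : A → Bool,
      f x = f y → ∀ b, r b a → x b = y b := by
    intro a
    obtain ⟨g, hg⟩ := Set.countable_iff_exists_injOn.1 (hc a)
    refine ⟨fun x => e ⟨fun n => if h : ∃ b, r b a ∧ g b = n then x h.choose else true⟩, ?_⟩
    intro x y hxy b hb
    have h1 := congrFun (ULift.up_injective (e.injective hxy)) (g b)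
    have hex : ∃ b', r b' a ∧ g b' = g b := ⟨b, hb, rfl⟩
    simp only [dif_pos hex] at h1
    have h2 := hg hex.choose_spec.1 hb hex.choose_spec.2
    rwa [h2] at h1
  choose f hf using hcode
  obtain ⟨𝓖, h𝓖c, h𝓖⟩ := hcap
  have hcov : ∀ x : A → Bool, ∃ q : 𝓖 × I × A, ¬ {b | (E q.2.1) q.2.2 b}.Countable ∧
      ∀ b, (E q.2.1) q.2.2 b → f b x = q.1.1 b := by
    intro x
    obtain ⟨g, hg, hgs⟩ := h𝓖 univ hs (fun a => f a x)
    obtain ⟨i, hi⟩ := hE.symm {a | a ∈ (Set.univ : Set A) ∧ f a x = g a}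
    have hex : ∃ a₀ ∈ {a | a ∈ (Set.univ : Set A) ∧ f a x = g a}, ¬ {b | (E i) a₀ b}.Countable := by
      by_contra hcon
      push Not at hcon
      apply hgs
      apply small_of_countable_classes' hE i
      intro a ha
      exact (hcon a ha).mono fun b hb => hb.2
    obtain ⟨a₀, ha₀, hunc⟩ := hex
    exact ⟨(⟨g, hg⟩, i, a₀), hunc, fun b hb => ((hi _ _ hb).1 ha₀).2⟩
  choose q hq1 hq2 using hcov
  have hinj : Function.Injective q := by
    intro x y hxy
    funext b
    have hex : ∃ a ∈ {c | (E (q x).2.1) (q x).2.2 c}, r b a := by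
      by_contra hcon
      push Not at hcon
      apply hq1 x
      refine ((hc b).union (countable_singleton b)).mono ?_
      intro c hcc
      rcases trichotomous_of r b c with h | h | h
      · exact absurd h (hcon c hcc)
      · exact Or.inr h.symm
      · exact Or.inl h
    obtain ⟨a, ha, hba⟩ := hex
    have h1 := hq2 x a ha
    have h2 := hq2 y a (by rw [← hxy]; exact ha)
    rw [← hxy] at h2
    exact hf a x y (h1.trans h2.symm) b hba
  have h1 := Cardinal.mk_le_of_injective hinj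
  have h2 : #(A → Bool) = 2 ^ ℵ_ 1 := by simp [hA]
  rw [h2] at h1
  refine h1.trans ?_
  simp only [Cardinal.mk_prod, Cardinal.lift_id]
  rw [hA]
  exact mul_le_mul' h𝓖c le_rfl

end Pool.Agent.Lib.MP_8f36f1_h17
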