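import Mathlib
import Pool.Agent.Lib.MP_8f36f1_h17.Diag

open Cardinal Set

universe u v

namespace Pool.Agent.Lib.MP_8f36f1_h17

/-- a non-small measuring family of least size. -/
theorem exists_minimal {A I : Type u} (E : I → Setoid A) (hA : #A = ℵ_ 1) (hE : Measures E)
    (hs : ¬ Small E univ) :
    ∃ (A' I' : Type u) (E' : I' → Setoid A'), #A' = ℵ_ 1 ∧ #I' ≤ #I ∧ Measures E' ∧
      ¬ Small E' univ ∧ ∀ (A'' I'' : Type u) (E'' : I'' → Setoid A''), #A'' = ℵ_ 1 →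
        #I'' < #I' → Measures E'' → Small E'' univ := by
  classical
  obtain ⟨𝓑, h𝓑⟩ : ∃ 𝓑 : Set Cardinal.{u}, 𝓑 = {c | ∃ (A I : Type u) (E : I → Setoid A),
      #A = ℵ_ 1 ∧ #I = c ∧ Measures E ∧ ¬ Small E Set.univ} := ⟨_, rfl⟩
  have hne : 𝓑.Nonempty := ⟨#I, by rw [h𝓑]; exact ⟨A, I, E, hA, rfl, hE, hs⟩⟩
  have hmem := csInf_mem hne
  have hle : sInf 𝓑 ≤ #I := csInf_le' (by rw [h𝓑]; exact ⟨A, I, E, hA, rfl, hE, hs⟩)
  have hmin : ∀ c ∈ 𝓑, sInf 𝓑 ≤ c := fun c hc => csInf_le' hc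
  have hmem' : sInf 𝓑 ∈ {c | ∃ (A I : Type u) (E : I → Setoid A),
      #A = ℵ_ 1 ∧ #I = c ∧ Measures E ∧ ¬ Small E Set.univ} := by
    rw [← h𝓑]
    exact hmem
  obtain ⟨A', I', E', h1, h2, h3, h4⟩ := hmem'
  refine ⟨A', I', E', h1, h2.le.trans hle, h3, h4, ?_⟩
  intro A'' I'' E'' hA'' hlt hE''
  by_contra hs''
  have h5 := hmin (#I'') (by rw [h𝓑]; exact ⟨A'', I'', E'', hA'', rfl, hE'', hs''⟩)
  rw [← h2] at h5
  exact absurd h5 (not_le.2 hlt)

theorem card_of_not_small {A : Type u} {I : Type v} {E : I → Setoid A} (hA : #A = ℵ_ 1)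
    (hE : Measures E) {P : Set A} (hP : ¬ Small E P) : #P = ℵ_ 1 := by
  apply le_antisymm
  · rw [← hA]
    exact Cardinal.mk_set_le _
  · rw [← Cardinal.succ_aleph0, Order.succ_le_iff]
    by_contra h
    push Not at h
    exact hP (small_countable hE (Cardinal.le_aleph0_iff_set_countable.1 h))

/-- the cofinality of the least size is greater than `ω₁`. -/
theorem not_union_of_minimal {A I : Type u} (E : I → Setoid A) (hA : #A = ℵ_ 1)
    (hE : Measures E) (hs : ¬ Small E univ)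
    (hmin : ∀ (A'' I'' : Type u) (E'' : I'' → Setoid A''), #A'' = ℵ_ 1 →
      #I'' < #I → Measures E'' → Small E'' univ) (J : A → Set I)
    (hJ : ∀ ξ, #(J ξ) < #I) : ∃ i, ∀ ξ, i ∉ J ξ := by
  classical
  by_contra hcon
  push Not at hcon
  obtain ⟨P, hP, hPs⟩ := ulam hA hE hs
  have key : ∀ ξ, ∃ Z : Set A, ∀ i ∈ J ξ, ∃ a b, a ∈ P ξ ∧ b ∈ P ξ ∧ (E i) a b ∧ a ∈ Z ∧
      b ∉ Z := by
    intro ξ
    by_contra hno
    push Not at hno
    apply hPs ξ
    have h1 : Measures (fun i : J ξ => (E i.1).comap (Subtype.val : P ξ → A)) := by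
      intro Z
      obtain ⟨i, hi, h⟩ := hno (Subtype.val '' Z)
      refine ⟨⟨i, hi⟩, fun a b hab ha => ?_⟩
      obtain ⟨b', hb', hbb⟩ := h a.1 b.1 a.2 b.2 hab ⟨a, ha, rfl⟩
      have : b' = b := Subtype.ext hbb
      rwa [← this]
    obtain ⟨s, hs'⟩ := hmin (P ξ) (J ξ) _ (card_of_not_small hA hE (hPs ξ)) (hJ ξ) h1
    refine ⟨fun a => if h : a ∈ P ξ then (s ⟨a, h⟩).map (Function.Embedding.subtype _) else ∅,
      ?_⟩
    intro a ha b hb hab
    obtain ⟨j, hj1, hj2, hj3⟩ := hs' ⟨a, ha⟩ (mem_univ _) ⟨b, hb⟩ (mem_univ _)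
      (fun h => hab (congrArg Subtype.val h))
    refine ⟨j.1, ?_, ?_, hj3⟩
    · beta_reduce
      rw [dif_pos ha, Finset.mem_map]
      exact ⟨j, hj1, rfl⟩
    · beta_reduce
      rw [dif_pos hb, Finset.mem_map]
      exact ⟨j, hj2, rfl⟩
  choose Z hZ using key
  obtain ⟨i, hi⟩ := hE {a | ∃ ξ, a ∈ P ξ ∧ a ∈ Z ξ}
  obtain ⟨ξ, hξ⟩ := hcon i
  obtain ⟨a, b, ha, hb, hab, haZ, hbZ⟩ := hZ ξ i hξ
  obtain ⟨ξ', h1, h2⟩ := hi a b hab ⟨ξ, ha, haZ⟩
  have : ξ' = ξ := by
    by_contra hne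
    exact Set.disjoint_left.1 (hP ξ' ξ hne) h1 hb
  rw [this] at h2
  exact hbZ h2

/-- a non-small measuring family is uncountable. -/
theorem aleph_one_le {A I : Type u} {E : I → Setoid A} (hA : #A = ℵ_ 1) (hE : Measures E)
    (hs : ¬ Small E univ) : ℵ_ 1 ≤ #I := by
  rw [← Cardinal.succ_aleph0, Order.succ_le_iff]
  by_contra h
  push Not at h
  have hIne : Nonempty I := ⟨(hE ∅).choose⟩
  have hcount : Countable I := Cardinal.mk_le_aleph0_iff.1 h
  obtain ⟨f, hf⟩ := exists_surjective_nat I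
  refine not_measures_of_cover hA E hs {f} ?_ ?_ hE
  · intro s
    exact ⟨f, rfl, fun k => hf (s k)⟩
  · rw [Cardinal.mk_singleton]
    exact Cardinal.one_lt_aleph0.trans Cardinal.aleph0_lt_continuum

/-- the covering number of a set which is not a union of `ℵ₁` smaller sets. -/
theorem covNumber_le_self {A K : Type u} (hA : #A = ℵ_ 1) (hK : ℵ_ 1 ≤ #K)
    (hreg : ∀ J : A → Set K, (∀ ξ, #(J ξ) < #K) → ∃ i, ∀ ξ, i ∉ J ξ)
    (hcov : ∀ L : Type u, #L < #K → covNumber L ≤ #K) : covNumber K ≤ #K := by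
  classical
  have hω : ℵ₀ ≤ #K := (Cardinal.aleph0_le_aleph 1).trans hK
  obtain ⟨r, hr, hr'⟩ := Cardinal.exists_ord_eq K
  have hinit : ∀ c, #{b | r b c} < #K := by
    intro c
    have h1 := Cardinal.card_typein_lt c hr'
    refine lt_of_eq_of_lt ?_ h1
    rfl
  choose 𝒰 h𝒰c h𝒰 using fun c => exists_covNumber {b | r b c}
  have hbd : IsCov (⋃ c, (fun D : Set {b | r b c} => (Subtype.val '' D : Set K)) '' (𝒰 c)) := by
    refine isCov_of_bounded r ?_ 𝒰 h𝒰
    intro S hS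
    apply bounded_of_not_le r S
    intro hsub
    have hKne : Nonempty K := by
      rw [← Cardinal.mk_ne_zero_iff]
      intro h
      rw [h] at hω
      exact absurd hω (not_le.2 Cardinal.aleph0_pos)
    have hSne : Nonempty S := by
      obtain ⟨k⟩ := hKne
      obtain ⟨s, _⟩ := mem_iUnion.1 (hsub (mem_univ k))
      exact ⟨s⟩
    have hsur : ∃ f : A → S, Function.Surjective f := by
      have h1 : #S ≤ #A := by
        rw [hA]
        exact hS
      obtain ⟨j⟩ := (Cardinal.le_def _ _).1 h1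
      exact ⟨Function.invFun j, Function.invFun_surjective j.injective⟩
    obtain ⟨f, hf⟩ := hsur
    obtain ⟨i, hi⟩ := hreg (fun ξ => {b | r b (f ξ).1} ∪ {(f ξ).1}) (fun ξ => by
      refine lt_of_le_of_lt (Cardinal.mk_union_le _ _) ?_
      rw [Cardinal.mk_singleton]
      exact Cardinal.add_lt_of_lt hω (hinit _) (Cardinal.one_lt_aleph0.trans_le hω))
    obtain ⟨s, hs⟩ := mem_iUnion.1 (hsub (mem_univ i))
    obtain ⟨ξ, hξ⟩ := hf s
    apply hi ξ
    rw [hξ]
    exact hs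
  refine (covNumber_le hbd).trans ?_
  refine (Cardinal.mk_iUnion_le _).trans ?_
  have h1 : (⨆ c, #((fun D : Set {b | r b c} => (Subtype.val '' D : Set K)) '' (𝒰 c))) ≤ #K :=
    ciSup_le' fun c => Cardinal.mk_image_le.trans ((h𝒰c c).le.trans (hcov _ (hinit c)))
  calc _ ≤ #K * #K := mul_le_mul' le_rfl h1
    _ = #K := Cardinal.mul_eq_self hω

/-- the main estimate under a covering hypothesis. -/
theorem two_pow_le_of_covering {A I : Type u} (E : I → Setoid A) (hA : #A = ℵ_ 1)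
    (hE : Measures E) (hs : ¬ Small E univ)
    (H : ∀ K : Type u, #K ≤ Cardinal.continuum → covNumber K ≤ Order.succ #K) :
    2 ^ ℵ_ 1 ≤ #I := by
  classical
  obtain ⟨A', I', E', hA', hI', hE', hs', hmin⟩ := exists_minimal E hA hE hs
  refine le_trans ?_ hI'
  have h1 := aleph_one_le hA' hE' hs'
  have hω : ℵ₀ ≤ #I' := (Cardinal.aleph0_le_aleph 1).trans h1
  have hself : #I' ≤ Cardinal.continuum → covNumber I' ≤ #I' := by
    intro hle
    refine covNumber_le_self hA' h1 (fun J hJ => not_union_of_minimal E' hA' hE' hs' hmin J hJ) ?_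
    intro L hL
    exact (H L (hL.le.trans hle)).trans (Order.succ_le_of_lt hL)
  have hprod : ∀ c : Cardinal.{u}, c ≤ #I' → c * (#I' * ℵ₀) ≤ #I' := by
    intro c hc
    calc c * (#I' * ℵ₀) ≤ #I' * (#I' * #I') := mul_le_mul' hc (mul_le_mul' le_rfl hω)
      _ = #I' := by rw [Cardinal.mul_eq_self hω, Cardinal.mul_eq_self hω]
  rcases lt_or_ge (#I') Cardinal.continuum with hlt | hge
  · exfalso
    have hcap := Cap.of_covNumber hA' hE' hs' I'
    exact not_measures_of_cap hA' E' hs' hlt ((hprod _ (hself hlt.le)).trans_lt hlt) hcap hE'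
  · have hK : ∃ K : Type u, #K = Cardinal.continuum ∧ covNumber K ≤ #I' := by
      rcases hge.eq_or_lt with heq | hgt
      · exact ⟨I', heq.symm, hself heq.symm.le⟩
      · refine ⟨Quotient.out (Cardinal.continuum : Cardinal.{u}), Cardinal.mk_out _, ?_⟩
        refine (H _ (Cardinal.mk_out _).le).trans ?_
        rw [Cardinal.mk_out]
        exact Order.succ_le_of_lt hgt
    obtain ⟨K, hK, hKc⟩ := hK
    have hcap := Cap.of_covNumber hA' hE' hs' K
    refine (two_pow_le_of_cap hA' E' hE' K hK hs' hcap).trans ?_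
    calc covNumber K * (#I' * ℵ₀) * (#I' * ℵ_ 1) ≤ #I' * (#I' * #I') :=
          mul_le_mul' (hprod _ hKc) (mul_le_mul' le_rfl h1)
      _ = #I' := by rw [Cardinal.mul_eq_self hω, Cardinal.mul_eq_self hω]

/-- the covering hypothesis holds below `ℵ_{ω₁}`. -/
theorem covering_of_lt (h : (Cardinal.continuum : Cardinal.{u}) < ℵ_ (Ordinal.omega 1)) :
    ∀ K : Type u, #K ≤ Cardinal.continuum → covNumber K ≤ Order.succ #K := by
  intro K hK
  rcases lt_or_ge (#K) ℵ₀ with hfin | hinf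
  · refine (covNumber_le (isCov_univ (K := K) (hfin.le.trans two_le))).trans ?_
    rw [Cardinal.mk_singleton, Cardinal.one_le_iff_ne_zero]
    exact ne_of_gt (lt_of_le_of_lt zero_le (Order.lt_succ #K))
  · obtain ⟨β, hβ⟩ := Cardinal.mem_range_aleph_iff.2 hinf
    have hβ1 : β < Ordinal.omega 1 := by
      have := hK.trans_lt h
      rw [← hβ, Cardinal.aleph_lt_aleph] at this
      exact this
    have h1 := covNumber_le_aleph hβ1 (K := K) hβ.ge
    rw [hβ] at h1
    exact h1.trans (Order.le_succ _)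

end Pool.Agent.Lib.MP_8f36f1_h17
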