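import Mathlib
import Pool.Agent.Lib.MP_8f36f1_h17.Minimal

open Cardinal Set

universe u v

namespace Pool.Agent.Lib.MP_8f36f1_h17

/-- The diagonal argument, the guesses being allowed to contain errors. -/
theorem diag' {A : Type u} [LinearOrder A] [WellFoundedLT A] {I : Type u} (hA : #A = ℵ_ 1)
    (hc : ∀ a : A, (Iio a).Countable) (w : Walk A) (E : I → Setoid A)
    (hs : ¬ Small E univ) (𝒬 : Set ((ℕ → A) × (ℕ → I))) (hcard : #𝒬 < Cardinal.continuum)
    (hcap : ∀ F : A → I, ∃ X : Set A, ¬ X.Countable ∧ ∀ δ, ∃ Q ∈ 𝒬,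
      ∀ α ∈ X, α < δ → ∃ l, Q.1 l = α ∧ Q.2 l = F α) : ¬ Measures E := by
  classical
  intro hE
  have hex : ∀ (g : 𝒬 → ℕ → Bool), ∃ x : ℕ → Bool, ∀ i, g i ≠ x := by
    intro g
    by_contra hcon
    push Not at hcon
    have hsurj : Function.Surjective
        (fun i : 𝒬 => (ULift.up (g i) : ULift.{u} (ℕ → Bool))) := by
      rintro ⟨x⟩
      obtain ⟨i, hi⟩ := hcon x
      exact ⟨i, by simp only [hi]⟩
    have := Cardinal.mk_le_of_surjective hsurj
    have h2 : #(ULift.{u} (ℕ → Bool)) = Cardinal.continuum := by simp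
    rw [h2] at this
    exact absurd this (not_le.2 hcard)
  choose X hX using hex
  -- the entry `l` of `Q` is acceptable at `a` for the place `n`
  let Ok : ((ℕ → A) × (ℕ → I)) → A → (A → ℕ → Bool) → ℕ → ℕ → Prop := fun Q a y n l =>
    col w (Q.1 l) a = n ∧ (∃ b, b < a ∧ (E (Q.2 l)) b a) ∧
      ∀ b b', b < a → b' < a → (E (Q.2 l)) b b' → y b (col w (Q.1 l) b) = y b' (col w (Q.1 l) b')
  -- the guess
  let G : ((ℕ → A) × (ℕ → I)) → A → (A → ℕ → Bool) → ℕ → Bool := fun Q a y n =>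
    if hl : ∃ l, Ok Q a y n l then
      y (Nat.find_spec hl).2.1.choose (col w (Q.1 (Nat.find hl)) (Nat.find_spec hl).2.1.choose)
    else true
  let wf : WellFounded ((· < ·) : A → A → Prop) := wellFounded_lt
  let z : A → ℕ → Bool := wf.fix (C := fun _ => ℕ → Bool) fun a zs =>
    X fun h => G h.1 a (fun b => if hb : b < a then zs b hb else fun _ => true)
  have hz : ∀ a, z a = X fun h => G h.1 a (fun b => if b < a then z b else fun _ => true) := by
    intro a
    have := wf.fix_eq (C := fun _ => ℕ → Bool) (fun a zs =>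
      X fun h => G h.1 a (fun b => if hb : b < a then zs b hb else fun _ => true)) a
    simp only [z]
    rw [this]
    congr 1
  choose ι hι using fun ξ : A => hE.symm {b | z b (col w ξ b) = true}
  obtain ⟨Y, hYu, hY⟩ := hcap ι
  have hYunb : Unb Y := unb_of_uncountable hc hYu
  obtain ⟨δ, hδ⟩ := exists_strong' w hc (uncountable_of_card hA) hYunb
  obtain ⟨Q, hQ, hQcov⟩ := hY δ
  -- witnesses for the errors
  have hbad : ∀ l : ℕ, ∃ b b' : A,
      (¬ ∀ b b', (E (Q.2 l)) b b' → z b (col w (Q.1 l) b) = z b' (col w (Q.1 l) b')) →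
      ((E (Q.2 l)) b b' ∧ z b (col w (Q.1 l) b) ≠ z b' (col w (Q.1 l) b')) := by
    intro l
    by_cases hp : ∀ b b', (E (Q.2 l)) b b' → z b (col w (Q.1 l) b) = z b' (col w (Q.1 l) b')
    · exact ⟨δ, δ, fun h => absurd hp h⟩
    · have hp' := hp
      push Not at hp'
      obtain ⟨b, b', h1, h2⟩ := hp'
      exact ⟨b, b', fun _ => ⟨h1, h2⟩⟩
  choose β β' hβ using hbad
  obtain ⟨a₀, ha₀⟩ := exists_gt_countable hc (uncountable_of_card hA)
    (((countable_range β).union (countable_range β')).union (countable_singleton δ))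
  have hsm1 : Small E (⋃ l, {a | ∀ b, b < a → ¬ (E (Q.2 l)) b a}) :=
    small_iUnion hE _ fun l => small_minimal hE (fun x y : A => x < y) (Q.2 l)
  have hsm2 : Small E (Iio a₀) := small_countable hE (hc a₀)
  have hsm : Small E (⋃ n : ℕ, if n = 0 then (⋃ l, {a | ∀ b, b < a → ¬ (E (Q.2 l)) b a}) else
      (Iio a₀)) := by
    apply small_iUnion hE
    intro n
    by_cases hn : n = 0
    · simpa [hn] using hsm1
    · simpa [hn] using hsm2
  have hexa : ∃ a, a₀ ≤ a ∧ ∀ l, ∃ b, b < a ∧ (E (Q.2 l)) b a := by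
    by_contra hcon
    push Not at hcon
    apply hs
    refine hsm.mono ?_
    intro a _
    rcases le_or_gt a₀ a with h1 | h1
    · obtain ⟨n, hn⟩ := hcon a h1
      refine mem_iUnion.2 ⟨0, ?_⟩
      rw [if_pos rfl]
      exact mem_iUnion.2 ⟨n, hn⟩
    · refine mem_iUnion.2 ⟨1, ?_⟩
      rw [if_neg one_ne_zero]
      exact h1
  obtain ⟨a, ha₀a, hpre⟩ := hexa
  have hδa : δ ≤ a := (ha₀ δ (Or.inr rfl)).le.trans ha₀a
  have hβa : ∀ l, β l < a ∧ β' l < a := fun l =>
    ⟨(ha₀ _ (Or.inl (Or.inl ⟨l, rfl⟩))).trans_le ha₀a,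
      (ha₀ _ (Or.inl (Or.inr ⟨l, rfl⟩))).trans_le ha₀a⟩
  have hne := hX (fun h => G h.1 a (fun b => if b < a then z b else fun _ => true)) ⟨Q, hQ⟩
  rw [← hz a] at hne
  apply hne
  funext n
  obtain ⟨α, hαY, hαδ, hcol⟩ := hδ n a hδa
  obtain ⟨l, hl1, hl2⟩ := hQcov α hαY hαδ
  have hl' : ∃ l, Ok Q a (fun b => if b < a then z b else fun _ => true) n l := by
    refine ⟨l, by rw [hl1]; exact hcol, hpre l, ?_⟩
    intro b b' hb hb' hbb
    simp only [if_pos hb, if_pos hb']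
    rw [hl2] at hbb
    rw [hl1]
    exact Bool.eq_iff_iff.2 (hι α b b' hbb)
  show G Q a (fun b => if b < a then z b else fun _ => true) n = z a n
  simp only [G]
  rw [dif_pos hl']
  have hn := (Nat.find_spec hl').1
  have hglob : ∀ b b', (E (Q.2 (Nat.find hl'))) b b' →
      z b (col w (Q.1 (Nat.find hl')) b) = z b' (col w (Q.1 (Nat.find hl')) b') := by
    by_contra hcon
    obtain ⟨h1, h2⟩ := hβ (Nat.find hl') hcon
    have h3 := (Nat.find_spec hl').2.2 _ _ (hβa (Nat.find hl')).1 (hβa (Nat.find hl')).2 h1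
    simp only [if_pos (hβa (Nat.find hl')).1, if_pos (hβa (Nat.find hl')).2] at h3
    exact h2 h3
  rw [if_pos (Nat.find_spec hl').2.1.choose_spec.1]
  have h4 := hglob _ _ (Nat.find_spec hl').2.1.choose_spec.2
  rw [h4, hn]

theorem continuum_le_of_mixedCov {A I : Type u} (hA : #A = ℵ_ 1) (E : I → Setoid A)
    (hE : Measures E) (hs : ¬ Small E univ) (hI : #I < Cardinal.continuum) (𝒩 : Set (Set I))
    (h𝒩 : IsMixedCov 𝒩) : Cardinal.continuum ≤ #𝒩 := by
  classical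
  by_contra hlt
  push Not at hlt
  have h1c : (ℵ_ 1 : Cardinal.{u}) < Cardinal.continuum := (aleph_one_le hA hE hs).trans_lt hI
  have hcont : (ℵ₀ : Cardinal.{u}) < Cardinal.continuum := Cardinal.aleph0_lt_continuum
  obtain ⟨r, hr, hc⟩ := exists_wo hA
  let _ : LinearOrder A := linearOrderOfSTO r
  have _ : WellFoundedLT A := ⟨hr.wf⟩
  have hc' : ∀ a : A, (Iio a).Countable := hc
  have hne : Nonempty A := by
    by_contra h
    rw [not_nonempty_iff] at h
    exact uncountable_of_card hA (Set.countable_univ_iff.2 inferInstance)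
  obtain ⟨w⟩ := Walk.exists_walk hc' hne
  have hIne : Nonempty I := ⟨(hE ∅).choose⟩
  -- enumerations
  have hB : ∀ p : 𝒩 × A, ∃ B : ℕ → A × I, (Iio p.2) ×ˢ p.1.1 ⊆ range B := by
    intro p
    have h1 : ((Iio p.2) ×ˢ p.1.1).Countable := (hc' p.2).prod (h𝒩.1 p.1.1 p.1.2)
    by_cases hne' : ((Iio p.2) ×ˢ p.1.1).Nonempty
    · obtain ⟨f, hf⟩ := h1.exists_eq_range hne'
      exact ⟨f, hf.le⟩
    · rw [Set.not_nonempty_iff_eq_empty] at hne'
      exact ⟨fun _ => (hne.some, hIne.some), by rw [hne']; exact empty_subset _⟩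
  choose B hB using hB
  refine diag' hA hc' w E hs
    (range fun q : 𝒩 × A => (fun n => (B q n).1, fun n => (B q n).2)) ?_ ?_ hE
  · refine Cardinal.mk_range_le.trans_lt ?_
    simp only [Cardinal.mk_prod, Cardinal.lift_id]
    rw [hA]
    exact Cardinal.mul_lt_of_lt hcont.le hlt h1c
  · intro F
    obtain ⟨T, hT1, hT2⟩ := h𝒩.2 (range F) (Cardinal.mk_range_le.trans hA.le)
    have hex : ∃ n, ¬ (F ⁻¹' (T n)).Countable := by
      by_contra hcon
      push Not at hcon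
      apply uncountable_of_card hA
      refine (countable_iUnion hcon).mono ?_
      intro a _
      obtain ⟨n, hn⟩ := mem_iUnion.1 (hT1 ⟨a, rfl⟩)
      exact mem_iUnion.2 ⟨n, hn⟩
    obtain ⟨n, hn⟩ := hex
    refine ⟨_, hn, fun δ => ?_⟩
    obtain ⟨N, hN, hsub⟩ := hT2 n (F '' (F ⁻¹' (T n) ∩ Iio δ))
      (by
        rintro _ ⟨a, ha, rfl⟩
        exact ha.1) (((hc' δ).mono inter_subset_right).image F)
    refine ⟨_, ⟨(⟨N, hN⟩, δ), rfl⟩, ?_⟩
    intro α hα hαδ
    have h1 : (α, F α) ∈ range (B (⟨N, hN⟩, δ)) :=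
      hB (⟨N, hN⟩, δ) ⟨hαδ, hsub ⟨α, ⟨hα, hαδ⟩, rfl⟩⟩
    obtain ⟨l, hl⟩ := h1
    refine ⟨l, ?_, ?_⟩
    · show (B (⟨N, hN⟩, δ) l).1 = α
      rw [hl]
    · show (B (⟨N, hN⟩, δ) l).2 = F α
      rw [hl]

end Pool.Agent.Lib.MP_8f36f1_h17
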