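import Mathlib
import Pool.Agent.Lib.MP_8f36f1_h17.Fwd
import Pool.Agent.Lib.MP_8f36f1_h17.Mixed

open Cardinal Set

universe u

namespace Pool.Agent.Lib.MP_8f36f1_h17.BelowContinuum

open Pool.Agent.Lib.MP_8f36f1_h17

/-- In ZFC: let a family `F` of fewer than `2 ^ ℵ₀` basic functions witness the normality of
`Y` and let `Y` be not separated. Then every family `𝒩` of countable subsets of `F` which is a
mixed covering of `F` has at least `2 ^ ℵ₀` members. -/
theorem result (X : Type u) [TopologicalSpace X] (Y : Set X) (B : Y → Set (Set X))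
    (F : Set (Y → Set X)) (hY : Setting Y B) (hF : WitnessingFamily B F)
    (hlt : #F < 2 ^ ℵ₀) (hsep : ¬ Separated Y) (𝒩 : Set (Set F)) (h𝒩 : IsMixedCov 𝒩) :
    2 ^ ℵ₀ ≤ #𝒩 := by
  have hns : ¬ Small (linkFamily F) univ := fun h => hsep (separated_of_small hY hF h)
  rw [Cardinal.two_power_aleph0] at hlt ⊢
  exact continuum_le_of_mixedCov hY.card (linkFamily F) (measures_linkFamily hF) hns hlt 𝒩 h𝒩

end Pool.Agent.Lib.MP_8f36f1_h17.BelowContinuum
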