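import Mathlib
import Pool.Agent.Lib.MP_8f36f1_h17.Defs

open Cardinal Set

universe u

namespace Pool.Agent.Lib.MP_8f36f1_h17

variable {A D I : Type u}

/-- The underlying set of the space built from `S`. -/
def Sp (_ : I → A → Set D) : Type u := A ⊕ D

/-- points of the closed discrete set. -/
def Sp.l (S : I → A → Set D) (a : A) : Sp S := (Sum.inl a : A ⊕ D)

/-- isolated points. -/
def Sp.r (S : I → A → Set D) (d : D) : Sp S := (Sum.inr d : A ⊕ D)

variable (S : I → A → Set D)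

theorem Sp.l_inj {a b : A} : Sp.l S a = Sp.l S b ↔ a = b := Sum.inl.injEq a b ▸ Iff.rfl

theorem Sp.r_inj {a b : D} : Sp.r S a = Sp.r S b ↔ a = b := Sum.inr.injEq a b ▸ Iff.rfl

theorem Sp.l_ne_r {a : A} {d : D} : Sp.l S a ≠ Sp.r S d := Sum.inl_ne_inr

theorem Sp.cases (x : Sp S) : (∃ a, x = Sp.l S a) ∨ ∃ d, x = Sp.r S d := by
  rcases x with a | d
  · exact Or.inl ⟨a, rfl⟩
  · exact Or.inr ⟨d, rfl⟩

/-- basic neighbourhoods. -/
def nb (a : A) (s : Finset I) (T : Finset D) : Set (Sp S) :=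
  {x | x = Sp.l S a ∨ ∃ d, x = Sp.r S d ∧ (∀ i ∈ s, d ∈ S i a) ∧ d ∉ T}

theorem l_mem_nb {a b : A} {s : Finset I} {T : Finset D} :
    Sp.l S b ∈ nb S a s T ↔ b = a := by
  constructor
  · rintro (h | ⟨d, h, _⟩)
    · exact (Sp.l_inj S).1 h
    · exact absurd h (Sp.l_ne_r S)
  · rintro rfl
    exact Or.inl rfl

theorem r_mem_nb {a : A} {d : D} {s : Finset I} {T : Finset D} :
    Sp.r S d ∈ nb S a s T ↔ (∀ i ∈ s, d ∈ S i a) ∧ d ∉ T := by
  constructor
  · rintro (h | ⟨d', h, h1⟩)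
    · exact absurd h.symm (Sp.l_ne_r S)
    · rw [Sp.r_inj] at h
      subst h
      exact h1
  · intro h
    exact Or.inr ⟨d, rfl, h⟩

theorem nb_anti {a : A} {s s' : Finset I} {T T' : Finset D} (hs : s ⊆ s') (hT : T ⊆ T') :
    nb S a s' T' ⊆ nb S a s T := by
  rintro x (h | ⟨d, h, h1, h2⟩)
  · exact Or.inl h
  · exact Or.inr ⟨d, h, fun i hi => h1 i (hs hi), fun h => h2 (hT h)⟩

instance : TopologicalSpace (Sp S) where
  IsOpen O := ∀ a, Sp.l S a ∈ O → ∃ s T, nb S a s T ⊆ O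
  isOpen_univ := fun _ _ => ⟨∅, ∅, subset_univ _⟩
  isOpen_inter := by
    classical
    intro O O' h h' a ha
    obtain ⟨s, T, hsT⟩ := h a ha.1
    obtain ⟨s', T', hsT'⟩ := h' a ha.2
    refine ⟨s ∪ s', T ∪ T', subset_inter ?_ ?_⟩
    · exact (nb_anti S Finset.subset_union_left Finset.subset_union_left).trans hsT
    · exact (nb_anti S Finset.subset_union_right Finset.subset_union_right).trans hsT'
  isOpen_sUnion := by
    intro 𝒪 h a ha
    obtain ⟨O, hO, haO⟩ := ha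
    obtain ⟨s, T, hsT⟩ := h O hO a haO
    exact ⟨s, T, hsT.trans (subset_sUnion_of_mem hO)⟩

theorem sp_isOpen_iff {O : Set (Sp S)} :
    IsOpen O ↔ ∀ a, Sp.l S a ∈ O → ∃ s T, nb S a s T ⊆ O := Iff.rfl

theorem isOpen_nb (a : A) (s : Finset I) (T : Finset D) : IsOpen (nb S a s T) := by
  rw [sp_isOpen_iff]
  intro b hb
  rw [l_mem_nb] at hb
  subst hb
  exact ⟨s, T, Subset.rfl⟩

instance sp_t1 : T1Space (Sp S) := by
  classical
  refine ⟨fun x => ?_⟩
  rw [← isOpen_compl_iff, sp_isOpen_iff]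
  intro b hb
  rcases Sp.cases S x with ⟨a, rfl⟩ | ⟨d, rfl⟩
  · refine ⟨∅, ∅, ?_⟩
    intro y hy hya
    rw [mem_singleton_iff] at hya
    subst hya
    rw [l_mem_nb] at hy
    subst hy
    exact hb rfl
  · refine ⟨∅, {d}, ?_⟩
    intro y hy hya
    rw [mem_singleton_iff] at hya
    subst hya
    rw [r_mem_nb] at hy
    exact hy.2 (by simp)

/-- `S` measures all subsets of `A`. -/
def SMeasures : Prop :=
  ∀ Z : Set A, ∃ i, ∀ a ∈ Z, ∀ b ∉ Z, Disjoint (S i a) (S i b)

theorem sp_normal (hS : SMeasures S) : NormalSpace (Sp S) := by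
  classical
  refine ⟨fun H K hH hK hHK => ?_⟩
  obtain ⟨i, hi⟩ := hS {a | Sp.l S a ∈ H}
  have h1 : ∀ a, Sp.l S a ∈ H → ∃ s T, nb S a s T ⊆ Kᶜ := by
    intro a ha
    exact (sp_isOpen_iff S).1 hK.isOpen_compl a (Set.disjoint_left.1 hHK ha)
  have h2 : ∀ a, Sp.l S a ∈ K → ∃ s T, nb S a s T ⊆ Hᶜ := by
    intro a ha
    exact (sp_isOpen_iff S).1 hH.isOpen_compl a (Set.disjoint_right.1 hHK ha)
  choose! s T hsT using h1
  choose! t T' htT' using h2
  have hins : ∀ (a : A) (s : Finset I) (T : Finset D), nb S a (insert i s) T ⊆ nb S a s T :=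
    fun a s T => nb_anti S (Finset.subset_insert _ _) (Finset.Subset.refl _)
  refine ⟨H ∪ ⋃ a ∈ {a | Sp.l S a ∈ H}, nb S a (insert i (s a)) (T a),
    K ∪ ⋃ a ∈ {a | Sp.l S a ∈ K}, nb S a (insert i (t a)) (T' a), ?_, ?_,
    subset_union_left, subset_union_left, ?_⟩
  · rw [sp_isOpen_iff]
    intro c hc
    have hcH : Sp.l S c ∈ H := by
      rcases hc with hc | hc
      · exact hc
      · rw [mem_iUnion₂] at hc
        obtain ⟨a, ha, hca⟩ := hc
        rw [l_mem_nb] at hca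
        subst hca
        exact ha
    refine ⟨insert i (s c), T c, ?_⟩
    refine Subset.trans ?_ subset_union_right
    exact subset_biUnion_of_mem (u := fun a => nb S a (insert i (s a)) (T a)) hcH
  · rw [sp_isOpen_iff]
    intro c hc
    have hcK : Sp.l S c ∈ K := by
      rcases hc with hc | hc
      · exact hc
      · rw [mem_iUnion₂] at hc
        obtain ⟨a, ha, hca⟩ := hc
        rw [l_mem_nb] at hca
        subst hca
        exact ha
    refine ⟨insert i (t c), T' c, ?_⟩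
    refine Subset.trans ?_ subset_union_right
    exact subset_biUnion_of_mem (u := fun a => nb S a (insert i (t a)) (T' a)) hcK
  · rw [Set.disjoint_left]
    rintro x (hx | hx) (hx' | hx')
    · exact Set.disjoint_left.1 hHK hx hx'
    · rw [mem_iUnion₂] at hx'
      obtain ⟨b, hb, hxb⟩ := hx'
      exact htT' b hb (hins _ _ _ hxb) hx
    · rw [mem_iUnion₂] at hx
      obtain ⟨a, ha, hxa⟩ := hx
      exact hsT a ha (hins _ _ _ hxa) hx'
    · rw [mem_iUnion₂] at hx hx'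
      obtain ⟨a, ha, hxa⟩ := hx
      obtain ⟨b, hb, hxb⟩ := hx'
      have hbH : Sp.l S b ∉ H := Set.disjoint_right.1 hHK hb
      rcases Sp.cases S x with ⟨c, rfl⟩ | ⟨d, rfl⟩
      · rw [l_mem_nb] at hxa hxb
        subst hxa
        subst hxb
        exact hbH ha
      · rw [r_mem_nb] at hxa hxb
        exact Set.disjoint_left.1 (hi a ha b hbH) (hxa.1 i (Finset.mem_insert_self _ _))
          (hxb.1 i (Finset.mem_insert_self _ _))

/-- the closed discrete set. -/
def spY : Set (Sp S) := range (Sp.l S)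

/-- the point of `A` below a point of `spY`. -/
noncomputable def pt (y : spY S) : A := y.2.choose

theorem pt_spec (y : spY S) : Sp.l S (pt S y) = y := y.2.choose_spec

theorem pt_inj {y z : spY S} (h : pt S y = pt S z) : y = z := by
  apply Subtype.ext
  rw [← pt_spec, ← pt_spec, h]

/-- the base at `y`. -/
def spB (y : spY S) : Set (Set (Sp S)) := {U | ∃ s T, U = nb S (pt S y) s T}

theorem spY_card : #(spY S) = #A := Cardinal.mk_range_eq _ (fun _ _ h => (Sp.l_inj S).1 h)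

theorem sp_setting (hA : #A = ℵ_ 1) : Setting (spY S) (spB S) where
  closed := by
    rw [← isOpen_compl_iff, sp_isOpen_iff]
    intro a ha
    exact absurd ⟨a, rfl⟩ ha
  discrete := by
    rw [discreteTopology_subtype_iff']
    intro y hy
    obtain ⟨a, rfl⟩ := hy
    refine ⟨nb S a ∅ ∅, isOpen_nb S _ _ _, ?_⟩
    ext x
    constructor
    · rintro ⟨hx, ⟨b, rfl⟩⟩
      rw [l_mem_nb] at hx
      rw [hx]; rfl
    · intro hx
      rw [mem_singleton_iff] at hx
      subst hx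
      exact ⟨(l_mem_nb S).2 rfl, ⟨a, rfl⟩⟩
  card := by rw [spY_card, hA]
  isOpen := by
    rintro y U ⟨s, T, rfl⟩
    exact isOpen_nb S _ _ _
  mem := by
    rintro y U ⟨s, T, rfl⟩
    rw [← pt_spec S y, l_mem_nb]
  only := by
    rintro y U ⟨s, T, rfl⟩ z ⟨b, rfl⟩ hz
    rw [l_mem_nb] at hz
    rw [hz, pt_spec]
  base := by
    intro y V hV hy
    rw [← pt_spec S y] at hy
    obtain ⟨s, T, h⟩ := (sp_isOpen_iff S).1 hV _ hy
    exact ⟨_, ⟨s, T, rfl⟩, h⟩

/-- the family of basic functions. -/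
def spF : Set (spY S → Set (Sp S)) := range fun i y => nb S (pt S y) {i} ∅

theorem spF_card : #(spF S) ≤ #I := Cardinal.mk_range_le

theorem sp_witnessing (hS : SMeasures S) : WitnessingFamily (spB S) (spF S) := by
  refine ⟨?_, ?_⟩
  · rintro _ ⟨i, rfl⟩ y
    exact ⟨{i}, ∅, rfl⟩
  · intro Z
    obtain ⟨i, hi⟩ := hS {a | ∃ y ∈ Z, pt S y = a}
    refine ⟨_, ⟨i, rfl⟩, ?_⟩
    unfold Witnesses
    rw [Set.disjoint_left]
    intro x hx hx'
    rw [mem_iUnion₂] at hx hx'
    obtain ⟨y, hy, hxy⟩ := hx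
    obtain ⟨z, hz, hxz⟩ := hx'
    rcases Sp.cases S x with ⟨c, rfl⟩ | ⟨d, rfl⟩
    · rw [l_mem_nb] at hxy hxz
      apply hz
      have : y = z := pt_inj S (hxy.symm.trans hxz)
      rwa [← this]
    · rw [r_mem_nb] at hxy hxz
      refine Set.disjoint_left.1 (hi (pt S y) ⟨y, hy, rfl⟩ (pt S z) ?_)
        (hxy.1 i (by simp)) (hxz.1 i (by simp))
      rintro ⟨w, hw, hwz⟩
      apply hz
      rwa [← pt_inj S hwz]

end Pool.Agent.Lib.MP_8f36f1_h17
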