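import Mathlib
import Pool.Agent.Lib.MP_8f36f1_h17.Fwd
import Pool.Agent.Lib.MP_8f36f1_h17.Space

open Cardinal Set

universe u

namespace Pool.Agent.Lib.MP_8f36f1_h17

variable {A I : Type u}

/-- isolated points for the second construction. -/
structure PairPt (E : I → Setoid A) : Type u where
  a : A
  b : A
  s : Finset I
  t : Finset I
  n : ℕ
  ne : a ≠ b
  rel : ∀ i ∈ s, i ∈ t → (E i) a b

/-- the sets `S i a`. -/
def pairS (E : I → Setoid A) (i : I) (a : A) : Set (PairPt E) :=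
  {d | (d.a = a ∧ i ∈ d.s) ∨ (d.b = a ∧ i ∈ d.t)}

theorem pairS_measures {E : I → Setoid A} (hE : Measures E) : SMeasures (pairS E) := by
  intro Z
  obtain ⟨i, hi⟩ := hE.symm Z
  refine ⟨i, fun a ha b hb => ?_⟩
  rw [Set.disjoint_left]
  rintro d (⟨h1, h2⟩ | ⟨h1, h2⟩) (⟨h3, h4⟩ | ⟨h3, h4⟩)
  · exact hb (by rw [← h3, h1]; exact ha)
  · have := (hi _ _ (d.rel i h2 h4)).1 (by rw [h1]; exact ha)
    rw [h3] at this
    exact hb this
  · have := (hi _ _ (d.rel i h4 h2)).2 (by rw [h1]; exact ha)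
    rw [h3] at this
    exact hb this
  · exact hb (by rw [← h3, h1]; exact ha)

theorem pairS_not_separated {E : I → Setoid A} (hE : ¬ Small E univ) :
    ¬ Separated (spY (pairS E)) := by
  classical
  rintro ⟨U, hU, hdisj⟩
  apply hE
  let y : A → spY (pairS E) := fun a => ⟨Sp.l _ a, ⟨a, rfl⟩⟩
  have h1 : ∀ a, ∃ s T, nb (pairS E) a s T ⊆ U (y a) := fun a =>
    (sp_isOpen_iff _).1 (hU (y a)).1 a (hU (y a)).2
  choose s T hsT using h1
  refine ⟨s, fun a _ b _ hab => ?_⟩
  by_contra hcon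
  push Not at hcon
  have hyab : y a ≠ y b := by
    intro h
    have := congrArg Subtype.val h
    exact hab ((Sp.l_inj _).1 this)
  -- pick a tag avoiding the finite sets
  have hinf : ∃ n : ℕ, (⟨a, b, s a, s b, n, hab, hcon⟩ : PairPt E) ∉ T a ∪ T b := by
    by_contra h
    push Not at h
    have hinj : Function.Injective
        (fun n : ℕ => (⟨a, b, s a, s b, n, hab, hcon⟩ : PairPt E)) := by
      intro m n hmn
      simpa using hmn
    exact (Set.infinite_of_injective_forall_mem hinj h) (Finset.finite_toSet (T a ∪ T b))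
  obtain ⟨n, hn⟩ := hinf
  rw [Finset.mem_union, not_or] at hn
  refine Set.disjoint_left.1 (hdisj _ _ hyab)
    (hsT a ((r_mem_nb _).2 ⟨fun i hi => Or.inl ⟨rfl, hi⟩, hn.1⟩))
    (hsT b ((r_mem_nb _).2 ⟨fun i hi => Or.inr ⟨rfl, hi⟩, hn.2⟩))

/-- transport of `Measures` along an equivalence. -/
theorem Measures.comap {A' : Type u} {E : I → Setoid A} (hE : Measures E) (e : A' ≃ A) :
    Measures (fun i => (E i).comap e) := by
  intro Z
  obtain ⟨i, hi⟩ := hE (e '' Z)
  refine ⟨i, fun a b hab ha => ?_⟩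
  have := hi (e a) (e b) hab ⟨a, ha, rfl⟩
  obtain ⟨c, hc, hcb⟩ := this
  rwa [← e.injective hcb]

theorem Small.of_comap {A' : Type u} {E : I → Setoid A} (e : A' ≃ A)
    (h : Small (fun i => (E i).comap e) univ) : Small E univ := by
  obtain ⟨s, hs⟩ := h
  refine ⟨fun a => s (e.symm a), fun a _ b _ hab => ?_⟩
  obtain ⟨i, h1, h2, h3⟩ := hs (e.symm a) (mem_univ _) (e.symm b) (mem_univ _)
    (fun h => hab (e.symm.injective h))
  refine ⟨i, h1, h2, fun h => h3 ?_⟩
  show (E i) (e (e.symm a)) (e (e.symm b))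
  rw [e.apply_symm_apply, e.apply_symm_apply]
  exact h

end Pool.Agent.Lib.MP_8f36f1_h17
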