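import Mathlib
import Pool.Agent.Lib.MP_8f36f1_h17.Minimal

open Cardinal Set

universe u v

namespace Pool.Agent.Lib.MP_8f36f1_h17

/-- the covering number of a set which is not a union of `ℵ₁` smaller sets. -/
theorem covNumber_le_of_regular {A K : Type u} {μ : Cardinal.{u}} (hA : #A = ℵ_ 1)
    (hK : ℵ_ 1 ≤ #K) (hKμ : #K ≤ μ)
    (hreg : ∀ J : A → Set K, (∀ ξ, #(J ξ) < #K) → ∃ i, ∀ ξ, i ∉ J ξ)
    (hcov : ∀ L : Type u, #L < #K → covNumber L ≤ μ) : covNumber K ≤ μ := by
  classical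
  have hω : ℵ₀ ≤ #K := (Cardinal.aleph0_le_aleph 1).trans hK
  obtain ⟨r, hr, hr'⟩ := Cardinal.exists_ord_eq K
  have hinit : ∀ c, #{b | r b c} < #K := by
    intro c
    have h1 := Cardinal.card_typein_lt c hr'
    refine lt_of_eq_of_lt ?_ h1
    rfl
  choose 𝒰 h𝒰c h𝒰 using fun c => exists_covNumber {b | r b c}
  have hbd : IsCov (⋃ c, (fun D : Set {b | r b c} => (Subtype.val '' D : Set K)) '' (𝒰 c)) := by
    refine isCov_of_bounded r ?_ 𝒰 h𝒰
    intro S hS
    apply bounded_of_not_le r S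
    intro hsub
    have hKne : Nonempty K := by
      rw [← Cardinal.mk_ne_zero_iff]
      intro h
      rw [h] at hω
      exact absurd hω (not_le.2 Cardinal.aleph0_pos)
    have hSne : Nonempty S := by
      obtain ⟨k⟩ := hKne
      obtain ⟨s, _⟩ := mem_iUnion.1 (hsub (mem_univ k))
      exact ⟨s⟩
    have hsur : ∃ f : A → S, Function.Surjective f := by
      have h1 : #S ≤ #A := by
        rw [hA]
        exact hS
      obtain ⟨j⟩ := (Cardinal.le_def _ _).1 h1
      exact ⟨Function.invFun j, Function.invFun_surjective j.injective⟩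
    obtain ⟨f, hf⟩ := hsur
    obtain ⟨i, hi⟩ := hreg (fun ξ => {b | r b (f ξ).1} ∪ {(f ξ).1}) (fun ξ => by
      refine lt_of_le_of_lt (Cardinal.mk_union_le _ _) ?_
      rw [Cardinal.mk_singleton]
      exact Cardinal.add_lt_of_lt hω (hinit _) (Cardinal.one_lt_aleph0.trans_le hω))
    obtain ⟨s, hs⟩ := mem_iUnion.1 (hsub (mem_univ i))
    obtain ⟨ξ, hξ⟩ := hf s
    apply hi ξ
    rw [hξ]
    exact hs
  refine (covNumber_le hbd).trans ?_
  refine (Cardinal.mk_iUnion_le _).trans ?_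
  have h1 : (⨆ c, #((fun D : Set {b | r b c} => (Subtype.val '' D : Set K)) '' (𝒰 c))) ≤ μ :=
    ciSup_le' fun c => Cardinal.mk_image_le.trans ((h𝒰c c).le.trans (hcov _ (hinit c)))
  calc _ ≤ μ * μ := mul_le_mul' hKμ h1
    _ = μ := Cardinal.mul_eq_self (hω.trans hKμ)

/-- countable unions. -/
theorem covNumber_le_of_iUnion {K : Type u} {μ : Cardinal.{u}} (hμ : ℵ₀ ≤ μ) (C : ℕ → Set K)
    (hC : ∀ k, ∃ n, k ∈ C n) (hcov : ∀ n, covNumber (C n) ≤ μ) : covNumber K ≤ μ := by
  classical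
  choose 𝒰 h𝒰c h𝒰 using fun n => exists_covNumber (C n)
  have h0 : IsCov (⋃ n : ULift.{u} ℕ,
      (fun D : Set (C n.down) => (Subtype.val '' D : Set K)) '' (𝒰 n.down)) := by
    refine ⟨?_, ?_⟩
    · intro D hD
      obtain ⟨c, D', hD', rfl⟩ := mem_iUnion.1 hD
      exact Cardinal.mk_image_le.trans ((h𝒰 c.down).1 D' hD')
    · intro S hS
      have h1 : ∀ n, ∃ U : ℕ → Set (C n), (∀ m, U m ∈ 𝒰 n) ∧
          (Subtype.val ⁻¹' S : Set (C n)) ⊆ ⋃ m, U m := by
        intro n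
        exact (h𝒰 n).2 (Subtype.val ⁻¹' S)
          ((Cardinal.mk_preimage_of_injective _ _ Subtype.val_injective).trans hS)
      choose U hU hSU using h1
      refine ⟨fun m => Subtype.val '' (U (Nat.unpair m).1 (Nat.unpair m).2),
        fun m => mem_iUnion.2 ⟨⟨(Nat.unpair m).1⟩, _, hU _ _, rfl⟩, ?_⟩
      intro b hb
      obtain ⟨n, hn⟩ := hC b
      have h2 : (⟨b, hn⟩ : C n) ∈ Subtype.val ⁻¹' S := hb
      obtain ⟨m, hm⟩ := mem_iUnion.1 (hSU _ h2)
      have hpair : ∃ k : ℕ, (Subtype.val '' (U (Nat.unpair k).1 (Nat.unpair k).2) : Set K) =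
          Subtype.val '' (U n m) := by
        refine ⟨Nat.pair n m, ?_⟩
        rw [Nat.unpair_pair]
      obtain ⟨k, hk⟩ := hpair
      refine mem_iUnion.2 ⟨k, ?_⟩
      show b ∈ (Subtype.val '' (U (Nat.unpair k).1 (Nat.unpair k).2) : Set K)
      rw [hk]
      exact ⟨⟨b, hn⟩, hm, rfl⟩
  refine (covNumber_le h0).trans ?_
  refine (Cardinal.mk_iUnion_le _).trans ?_
  have h1 : (⨆ n : ULift.{u} ℕ,
      #((fun D : Set (C n.down) => (Subtype.val '' D : Set K)) '' (𝒰 n.down))) ≤ μ :=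
    ciSup_le' fun c => Cardinal.mk_image_le.trans ((h𝒰c c.down).le.trans (hcov c.down))
  calc _ ≤ μ * μ := mul_le_mul' (by simpa using hμ) h1
    _ = μ := Cardinal.mul_eq_self hμ

/-- The least cardinality of a set whose covering number is greater than `μ` has
cofinality `ω₁`. -/
theorem cof_eq_aleph_one {K : Type u} {μ : Cardinal.{u}} (hKμ : #K ≤ μ) (hμ : ℵ_ 1 ≤ μ)
    (hgt : μ < covNumber K) (hmin : ∀ L : Type u, #L < #K → covNumber L ≤ μ) :
    (#K).ord.cof = ℵ_ 1 := by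
  classical
  have hωμ : ℵ₀ ≤ μ := two_le.trans hμ
  have hK1 : ℵ_ 1 < #K := by
    by_contra h
    push Not at h
    have h1 := covNumber_le (isCov_univ (K := K) h)
    rw [Cardinal.mk_singleton] at h1
    exact absurd (h1.trans (Cardinal.one_le_aleph0.trans hωμ)) (not_le.2 hgt)
  have hω : ℵ₀ ≤ #K := two_le.trans hK1.le
  apply le_antisymm
  · by_contra hcof
    push Not at hcof
    obtain ⟨A, hA⟩ : ∃ A : Type u, #A = ℵ_ 1 := ⟨_, Cardinal.mk_out _⟩
    have h1 := covNumber_le_of_regular hA hK1.le hKμ (fun J hJ => by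
      by_contra hcon
      push Not at hcon
      have h2 : (⨆ ξ, #(J ξ)) < #K := by
        apply Cardinal.iSup_lt_of_lt_cof_ord _ hJ
        rw [hA]
        exact hcof
      have h3 : #K ≤ #A * ⨆ ξ, #(J ξ) := by
        rw [← Cardinal.mk_univ]
        refine (Cardinal.mk_le_mk_of_subset (t := ⋃ ξ, J ξ) ?_).trans (Cardinal.mk_iUnion_le _)
        intro k _
        obtain ⟨ξ, hξ⟩ := hcon k
        exact mem_iUnion.2 ⟨ξ, hξ⟩
      exact absurd h3 (not_le.2 (Cardinal.mul_lt_of_lt hω (by rw [hA]; exact hK1) h2))) hmin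
    exact absurd h1 (not_le.2 hgt)
  · rw [← Cardinal.succ_aleph0, Order.succ_le_iff]
    by_contra hcof
    push Not at hcof
    obtain ⟨s, hs, hs'⟩ := Order.exists_cof_eq (#K).ord.ToType
    rw [Ordinal.cof_toType] at hs'
    have hsc : s.Countable := by
      rw [← Cardinal.le_aleph0_iff_set_countable, hs']
      exact hcof
    have hcard : #((#K).ord.ToType) = #K := Cardinal.mk_ord_toType _
    obtain ⟨e⟩ := Cardinal.eq.1 hcard
    have hne : s.Nonempty := by
      have h1 : Nonempty (#K).ord.ToType := by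
        rw [← Cardinal.mk_ne_zero_iff, hcard]
        intro h
        rw [h] at hω
        exact absurd hω (not_le.2 Cardinal.aleph0_pos)
      exact hs.nonempty
    obtain ⟨f, hf⟩ := hsc.exists_eq_range hne
    have hC : ∀ n, #{k : K | e.symm k ≤ f n} < #K := by
      intro n
      have h1 : #{k : K | e.symm k ≤ f n} = #(Iic (f n)) := by
        apply Cardinal.mk_congr
        exact e.symm.subtypeEquiv (fun k => Iff.rfl)
      have h2 : Iic (f n) = Iio (f n) ∪ {f n} := by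
        ext y
        simp [le_iff_lt_or_eq]
      rw [h1, h2]
      refine (Cardinal.mk_union_le _ _).trans_lt ?_
      rw [Cardinal.mk_singleton]
      exact Cardinal.add_lt_of_lt hω (Cardinal.mk_Iio_toType_ord_lt _)
        (Cardinal.one_lt_aleph0.trans_le hω)
    have h1 := covNumber_le_of_iUnion hωμ (fun n => {k : K | e.symm k ≤ f n}) (fun k => by
      obtain ⟨y, hy, hky⟩ := hs (e.symm k)
      rw [hf] at hy
      obtain ⟨n, rfl⟩ := hy
      exact ⟨n, hky⟩) (fun n => hmin _ (hC n))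
    exact absurd h1 (not_le.2 hgt)

/-- Main theorem, unconditional form. -/
theorem exists_gap {A I : Type u} (E : I → Setoid A) (hA : #A = ℵ_ 1)
    (hE : Measures E) (hs : ¬ Small E univ) (hlt : #I < 2 ^ ℵ_ 1) :
    ∃ K L : Type u, (#K).ord.cof = ℵ_ 1 ∧ ℵ_ (Ordinal.omega 1) ≤ #K ∧
      #K ≤ Cardinal.continuum ∧ #K < #L ∧ #L ≤ #I ∧ #L < covNumber K := by
  classical
  obtain ⟨A', I', E', hA', hI', hE', hs', hmin⟩ := exists_minimal E hA hE hs
  have hlt' := hI'.trans_lt hlt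
  have h1 := aleph_one_le hA' hE' hs'
  have hω : ℵ₀ ≤ #I' := (Cardinal.aleph0_le_aleph 1).trans h1
  have hprod : ∀ c : Cardinal.{u}, c ≤ #I' → c * (#I' * ℵ₀) ≤ #I' := by
    intro c hc
    calc c * (#I' * ℵ₀) ≤ #I' * (#I' * #I') := mul_le_mul' hc (mul_le_mul' le_rfl hω)
      _ = #I' := by rw [Cardinal.mul_eq_self hω, Cardinal.mul_eq_self hω]
  -- the covering numbers of small sets cannot all be small
  have key : ∃ K : Type u, #K ≤ Cardinal.continuum ∧ #K < #I' ∧ #I' < covNumber K := by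
    by_contra hcon
    push Not at hcon
    have hself : #I' ≤ Cardinal.continuum → covNumber I' ≤ #I' := by
      intro hle
      exact covNumber_le_of_regular hA' h1 le_rfl
        (fun J hJ => not_union_of_minimal E' hA' hE' hs' hmin J hJ)
        (fun L hL => hcon L (hL.le.trans hle) hL)
    rcases lt_or_ge (#I') Cardinal.continuum with hlt2 | hge
    · have hcap := Cap.of_covNumber hA' hE' hs' I'
      exact not_measures_of_cap hA' E' hs' hlt2 ((hprod _ (hself hlt2.le)).trans_lt hlt2) hcap hE'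
    · have hK : ∃ K : Type u, #K = Cardinal.continuum ∧ covNumber K ≤ #I' := by
        rcases hge.eq_or_lt with heq | hgt
        · exact ⟨I', heq.symm, hself heq.symm.le⟩
        · refine ⟨Quotient.out (Cardinal.continuum : Cardinal.{u}), Cardinal.mk_out _, ?_⟩
          apply hcon
          · exact (Cardinal.mk_out _).le
          · rw [Cardinal.mk_out]
            exact hgt
      obtain ⟨K, hK, hKc⟩ := hK
      have hcap := Cap.of_covNumber hA' hE' hs' K
      have h2 : 2 ^ ℵ_ 1 ≤ #I' := by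
        refine (two_pow_le_of_cap hA' E' hE' K hK hs' hcap).trans ?_
        calc covNumber K * (#I' * ℵ₀) * (#I' * ℵ_ 1) ≤ #I' * (#I' * #I') :=
              mul_le_mul' (hprod _ hKc) (mul_le_mul' le_rfl h1)
          _ = #I' := by rw [Cardinal.mul_eq_self hω, Cardinal.mul_eq_self hω]
      exact absurd h2 (not_le.2 hlt')
  obtain ⟨K₀, hK₀1, hK₀2, hK₀3⟩ := key
  -- take the least possible cardinality
  obtain ⟨𝓑, h𝓑⟩ : ∃ 𝓑 : Set Cardinal.{u}, 𝓑 = {c | ∃ K : Type u, #K = c ∧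
      #I' < covNumber K} := ⟨_, rfl⟩
  have hmem₀ : #K₀ ∈ 𝓑 := by rw [h𝓑]; exact ⟨K₀, rfl, hK₀3⟩
  have hmem : sInf 𝓑 ∈ 𝓑 := csInf_mem ⟨_, hmem₀⟩
  have hle : sInf 𝓑 ≤ #K₀ := csInf_le' hmem₀
  have hminB : ∀ c ∈ 𝓑, sInf 𝓑 ≤ c := fun c hc => csInf_le' hc
  have hmem' := hmem
  rw [h𝓑] at hmem'
  obtain ⟨K, hK1, hK2⟩ := hmem'
  rw [← h𝓑] at hK1
  have hKmin : ∀ L : Type u, #L < #K → covNumber L ≤ #I' := by
    intro L hL
    by_contra hcon
    push Not at hcon
    have h3 := hminB (#L) (by rw [h𝓑]; exact ⟨L, rfl, hcon⟩)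
    rw [← hK1] at h3
    exact absurd h3 (not_le.2 hL)
  have hKK₀ : #K ≤ #K₀ := hK1.le.trans hle
  have hKI : #K < #I' := hKK₀.trans_lt hK₀2
  have hcof := cof_eq_aleph_one hKI.le h1 hK2 hKmin
  refine ⟨K, I', hcof, ?_, hKK₀.trans hK₀1, hKI, hI', hK2⟩
  by_contra hcon
  push Not at hcon
  have hinf : ℵ₀ ≤ #K := by
    by_contra h
    push Not at h
    have h3 := covNumber_le (isCov_univ (K := K) (h.le.trans two_le))
    rw [Cardinal.mk_singleton] at h3
    exact absurd (h3.trans (Cardinal.one_le_aleph0.trans hω)) (not_le.2 hK2)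
  obtain ⟨β, hβ⟩ := Cardinal.mem_range_aleph_iff.2 hinf
  have hβ1 : β < Ordinal.omega 1 := by
    rw [← hβ, Cardinal.aleph_lt_aleph] at hcon
    exact hcon
  have h3 := covNumber_le_aleph hβ1 (K := K) hβ.ge
  rw [hβ] at h3
  exact absurd (h3.trans hKI.le) (not_le.2 hK2)

end Pool.Agent.Lib.MP_8f36f1_h17
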