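import Mathlib
import Pool.Agent.Lib.MP_8f36f1_h17.Fwd

open Cardinal Set

universe u

namespace Pool.Agent.Lib.MP_8f36f1_h17

/-- `Z` splits `C`: both `C ∩ Z` and `C \ Z` are uncountable. -/
def Splits {A : Type u} (Z C : Set A) : Prop := ¬ (C ∩ Z).Countable ∧ ¬ (C \ Z).Countable

/-- `R` is a reaping family: its members are uncountable subsets of `A` and no single set
splits all of them. -/
def IsReaping {A : Type u} (R : Set (Set A)) : Prop :=
  (∀ C ∈ R, ¬ C.Countable) ∧ ∀ Z : Set A, ∃ C ∈ R, ¬ Splits Z C

/-- the reaping number of the uncountable subsets of `A`: the least cardinality of a reaping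
family. For `A` of cardinality `ℵ₁` this is the cardinal invariant `𝔯(ω₁)`. -/
noncomputable def reapingNumber (A : Type u) : Cardinal.{u} :=
  sInf {c | ∃ R : Set (Set A), #R = c ∧ IsReaping R}

theorem reapingNumber_le {A : Type u} {R : Set (Set A)} (hR : IsReaping R) :
    reapingNumber A ≤ #R := by
  have h : #R ∈ {c | ∃ R : Set (Set A), #R = c ∧ IsReaping R} := ⟨R, rfl, hR⟩
  exact csInf_le' h

theorem reapingNumber_le_of_not_small {A I : Type u} {E : I → Setoid A}
    (hE : Measures E) (hs : ¬ Small E univ) : reapingNumber A ≤ #I := by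
  have h1 : ∀ i, ∃ a, ¬ {b | (E i) a b}.Countable := by
    intro i
    by_contra h
    push Not at h
    exact hs (small_of_countable_classes hE i h)
  choose a ha using h1
  let R : Set (Set A) := range fun i => {b | (E i) (a i) b}
  have hR : IsReaping R := by
    refine ⟨?_, ?_⟩
    · rintro _ ⟨i, rfl⟩
      exact ha i
    · intro Z
      obtain ⟨i, hi⟩ := hE.symm Z
      refine ⟨_, ⟨i, rfl⟩, ?_⟩
      rintro ⟨h1, h2⟩
      by_cases haZ : a i ∈ Z
      · apply h2
        convert countable_empty
        rw [Set.sdiff_eq_empty]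
        intro b hb
        exact (hi _ _ hb).1 haZ
      · apply h1
        convert countable_empty
        rw [← Set.disjoint_iff_inter_eq_empty, Set.disjoint_left]
        intro b hb hbZ
        exact haZ ((hi _ _ hb).2 hbZ)
  exact (reapingNumber_le hR).trans Cardinal.mk_range_le

theorem reapingNumber_le_of_equiv {A A' : Type u} (e : A ≃ A') :
    reapingNumber A ≤ reapingNumber A' := by
  by_cases hne : {c | ∃ R : Set (Set A'), #R = c ∧ IsReaping R}.Nonempty
  · obtain ⟨R, hRc, hR⟩ := csInf_mem hne
    have hle : #((fun C => e ⁻¹' C) '' R) ≤ reapingNumber A' :=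
      Cardinal.mk_image_le.trans hRc.le
    refine (reapingNumber_le (R := (fun C => e ⁻¹' C) '' R) ⟨?_, ?_⟩).trans hle
    · rintro _ ⟨C, hC, rfl⟩ h
      apply hR.1 C hC
      have := h.image e
      rwa [e.image_preimage] at this
    · intro Z
      obtain ⟨C, hC, hZ⟩ := hR.2 (e '' Z)
      refine ⟨_, ⟨C, hC, rfl⟩, ?_⟩
      rintro ⟨h1, h2⟩
      apply hZ
      refine ⟨fun h => h1 ?_, fun h => h2 ?_⟩
      · have := h.preimage e.injective
        rwa [preimage_inter, e.preimage_image] at this
      · have := h.preimage e.injective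
        rwa [preimage_diff, e.preimage_image] at this
  · -- `A'` then is countable, and so is `A`
    have hA' : (univ : Set A').Countable := by
      by_contra hunc
      apply hne
      refine ⟨_, {C | ¬ C.Countable}, rfl, fun _ h => h, fun Z => ?_⟩
      by_cases hZ : Z.Countable
      · refine ⟨Zᶜ, ?_, ?_⟩
        · intro h
          apply hunc
          rw [← union_compl_self Z]
          exact hZ.union h
        · rintro ⟨h, _⟩
          apply h
          simp
      · refine ⟨Z, hZ, ?_⟩
        rintro ⟨_, h⟩
        apply h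
        simp
    have hA : (univ : Set A).Countable := by
      have := hA'.preimage e.injective
      simpa using this
    have hno : {c | ∃ R : Set (Set A), #R = c ∧ IsReaping R} = ∅ := by
      rw [Set.eq_empty_iff_forall_notMem]
      rintro c ⟨R, _, hR⟩
      obtain ⟨C, hC, _⟩ := hR.2 ∅
      exact hR.1 C hC (hA.mono (subset_univ _))
    unfold reapingNumber
    rw [hno, Cardinal.sInf_empty]
    exact zero_le

end Pool.Agent.Lib.MP_8f36f1_h17
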