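import Mathlib
import Pool.Agent.Lib.MP_8f36f1_h17.CharB
import Pool.Agent.Lib.MP_8f36f1_h17.Reap
import Pool.Agent.Lib.MP_8f36f1_h17.Cov

open Cardinal Set

universe u

namespace Pool.Agent.Lib.MP_8f36f1_h17



/-- The least size of a family of functions `A → A` such that every function `A → A` is
everywhere bounded by a member of the family. For a well ordered set `A` of type `ω₁` this is
the dominating number `𝔡(ω₁)`. -/
noncomputable def dominatingNumber (A : Type u) [LinearOrder A] : Cardinal.{u} :=
  sInf {c | ∃ G : Set (A → A), #G = c ∧ ∀ x : A → A, ∃ g ∈ G, ∀ a, x a ≤ g a}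

/-- The members of `𝒳` are pairwise eventually different. -/
def EventuallyDifferent {A : Type u} [LinearOrder A] (𝒳 : Set (A → A)) : Prop :=
  ∀ x ∈ 𝒳, ∀ y ∈ 𝒳, x ≠ y → ∃ a, ∀ b, a < b → x b ≠ y b

theorem small_of_finite {A I : Type u} [Finite I] {E : I → Setoid A} (hE : Measures E) :
    Small E univ := by
  classical
  haveI := Fintype.ofFinite I
  refine ⟨fun _ => Finset.univ, fun a _ b _ hab => ?_⟩
  obtain ⟨i, hi⟩ := hE {a}
  exact ⟨i, Finset.mem_univ _, Finset.mem_univ _, fun h => hab (hi a b h rfl).symm⟩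

/-- Let a family `F` of basic functions witness the normality of `Y` and let `Y` be not
separated. Then `F` has at least `𝔯(ω₁)` members, at least `𝔡(ω₁)` members, and at least as many
members as any family of pairwise eventually different functions `ω₁ → ω₁`. -/
theorem lower_bounds (X : Type u) [TopologicalSpace X] (Y : Set X) (B : Y → Set (Set X))
    (F : Set (Y → Set X)) (hY : Setting Y B) (hF : WitnessingFamily B F)
    (hsep : ¬ Separated Y) (A : Type u) [LinearOrder A] [WellFoundedLT A] (hA : #A = ℵ_ 1)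
    (hc : ∀ a : A, {b | b < a}.Countable) :
    reapingNumber A ≤ #F ∧ dominatingNumber A ≤ #F ∧
      ∀ 𝒳 : Set (A → A), EventuallyDifferent 𝒳 → #𝒳 ≤ #F := by
  have hAY : #A = #Y := hA.trans hY.card.symm
  obtain ⟨e⟩ := Cardinal.eq.1 hAY
  have hM : Measures (fun f : F => (linkFamily F f).comap e) :=
    (measures_linkFamily hF).comap e
  have hns : ¬ Small (fun f : F => (linkFamily F f).comap e) univ := fun h =>
    hsep (separated_of_small hY hF (Small.of_comap e h))
  have hinf : ℵ₀ ≤ #F := by
    by_contra h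
    push Not at h
    haveI : Finite F := Cardinal.lt_aleph0_iff_finite.1 h
    exact hns (small_of_finite hM)
  refine ⟨reapingNumber_le_of_not_small hM hns, ?_, ?_⟩
  · obtain ⟨g, hg⟩ := exists_dominating hA hM hns (fun a b : A => a < b) hc
    have h1 : #(range g) ∈ {c | ∃ G : Set (A → A), #G = c ∧
        ∀ x : A → A, ∃ g ∈ G, ∀ a, x a ≤ g a} := by
      refine ⟨range g, rfl, fun x => ?_⟩
      obtain ⟨i, hi⟩ := hg x
      exact ⟨g i, ⟨i, rfl⟩, fun a => (hi a).le⟩
    have h2 : dominatingNumber A ≤ #(range g) := csInf_le' h1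
    exact h2.trans Cardinal.mk_range_le
  · intro 𝒳 h𝒳
    have h := card_ad hA hM hns (fun a b : A => a < b) hc 𝒳 h𝒳
    rwa [Cardinal.mul_eq_left hinf hinf Cardinal.aleph0_ne_zero, Cardinal.mul_eq_self hinf] at h

end Pool.Agent.Lib.MP_8f36f1_h17
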