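import Mathlib
import Pool.Agent.Lib.MP_8f36f1_h17.Ulam

open Cardinal Set

universe u v

namespace Pool.Agent.Lib.MP_8f36f1_h17

/-- Counting: relations with countably many classes measure few sets. -/
theorem two_pow_le_mul_of_thin {A I : Type u} (hA : #A = ℵ_ 1) (E : I → Setoid A)
    (hE : Measures E) (hthin : ∀ i, Countable (Quotient (E i))) :
    2 ^ ℵ_ 1 ≤ #I * Cardinal.continuum := by
  classical
  choose ι hι using fun Z => hE.symm Z
  choose c hc using fun i => @exists_injective_nat (Quotient (E i)) (hthin i)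
  have hle : #(Set A) ≤ #(I × ULift.{u} (Set ℕ)) := by
    refine Cardinal.mk_le_of_injective
      (f := fun Z => (ι Z, ⟨(fun a => c (ι Z) (Quotient.mk _ a)) '' Z⟩)) ?_
    have key : ∀ Z Z' : Set A, ι Z = ι Z' →
        (fun a => c (ι Z) (Quotient.mk _ a)) '' Z = (fun a => c (ι Z') (Quotient.mk _ a)) '' Z' →
        Z' ⊆ Z := by
      intro Z Z' h1 h2 a ha
      have h3 : c (ι Z') (Quotient.mk _ a) ∈ (fun a => c (ι Z) (Quotient.mk _ a)) '' Z := by
        rw [h2]; exact ⟨a, ha, rfl⟩
      obtain ⟨b, hb, hb2⟩ := h3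
      have h4 : ∀ i, ι Z = i → c (ι Z) (Quotient.mk _ b) = c i (Quotient.mk _ a) →
          (E (ι Z)) b a := by
        rintro i rfl h
        exact Quotient.exact (hc _ h)
      exact (hι Z b a (h4 _ h1 hb2)).1 hb
    intro Z Z' h
    simp only [Prod.mk.injEq, ULift.up.injEq] at h
    apply Set.Subset.antisymm
    · exact key Z' Z h.1.symm h.2.symm
    · exact key Z Z' h.1 h.2
  have h2 : #(I × ULift.{u} (Set ℕ)) = #I * Cardinal.continuum := by simp
  rwa [Cardinal.mk_set, hA, h2] at hle

/-- The diagonal argument: fewer than continuum many relations with countably many classes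
do not measure all the subsets of a set of size `ℵ₁`. -/
theorem not_measures_of_thin {A I : Type u} (hA : #A = ℵ_ 1) (E : I → Setoid A)
    (hthin : ∀ i, Countable (Quotient (E i))) (hI : #I < Cardinal.continuum) :
    ¬ Measures E := by
  classical
  intro hE
  obtain ⟨r, hr, hc⟩ := exists_wo hA
  have hcard : #A = #(A × ULift.{u} ℕ) := by
    rw [Cardinal.mk_prod]
    simp only [hA, Cardinal.lift_id, Cardinal.mk_uLift, Cardinal.mk_nat, Cardinal.lift_aleph0]
    rw [Cardinal.mul_aleph0_eq]
    exact Cardinal.aleph0_le_aleph 1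
  obtain ⟨e⟩ := Cardinal.eq.1 hcard
  -- every relation is decided by a proper initial part
  have hζ : ∀ i, ∃ ζ : A, ∀ p : A, ∃ q : A × ULift.{u} ℕ, r q.1 ζ ∧ (E i) (e.symm q) p := by
    intro i
    have := hthin i
    have hbound : ∃ ζ, ∀ c : Quotient (E i), r (e (Quotient.out c)).1 ζ := by
      by_contra hcon
      push Not at hcon
      apply uncountable_of_card hA
      have hsub : (univ : Set A) ⊆ ⋃ c : Quotient (E i),
          ({b | r b (e (Quotient.out c)).1} ∪ {(e (Quotient.out c)).1}) := by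
        intro a _
        obtain ⟨p, hp⟩ := hcon a
        refine mem_iUnion.2 ⟨p, ?_⟩
        rcases trichotomous_of r (e (Quotient.out p)).1 a with h | h | h
        · exact absurd h hp
        · exact Or.inr h.symm
        · exact Or.inl h
      exact (countable_iUnion fun p => (hc _).union (countable_singleton _)).mono hsub
    obtain ⟨ζ, hζ⟩ := hbound
    refine ⟨ζ, fun p => ⟨e (Quotient.out (Quotient.mk (E i) p)), hζ _, ?_⟩⟩
    rw [e.symm_apply_apply]
    exact Quotient.exact (Quotient.out_eq _)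
  choose ζ rep hrep1 hrep2 using hζ
  -- the recursion
  have hex : ∀ (g : I → ℕ → Bool), ∃ x : ℕ → Bool, ∀ i, g i ≠ x := by
    intro g
    by_contra hcon
    push Not at hcon
    have hsurj : Function.Surjective (fun i : I => (ULift.up (g i) : ULift.{u} (ℕ → Bool))) := by
      rintro ⟨x⟩
      obtain ⟨i, hi⟩ := hcon x
      exact ⟨i, by simp only [hi]⟩
    have := Cardinal.mk_le_of_surjective hsurj
    have h2 : #(ULift.{u} (ℕ → Bool)) = Cardinal.continuum := by simp
    rw [h2] at this
    exact absurd this (not_le.2 hI)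
  choose X hX using hex
  let wf : WellFounded r := hr.wf
  let z : A → ℕ → Bool := wf.fix (C := fun _ => ℕ → Bool) fun a zs =>
    X fun i n => if h : r (rep i (e.symm (a, ⟨n⟩))).1 a then zs _ h (rep i (e.symm (a, ⟨n⟩))).2.down
      else true
  have hz : ∀ a, z a = X fun i n => if r (rep i (e.symm (a, ⟨n⟩))).1 a then
      z (rep i (e.symm (a, ⟨n⟩))).1 (rep i (e.symm (a, ⟨n⟩))).2.down else true := by
    intro a
    have := wf.fix_eq (C := fun _ => ℕ → Bool) (fun a zs =>
      X fun i n => if h : r (rep i (e.symm (a, ⟨n⟩))).1 a then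
        zs _ h (rep i (e.symm (a, ⟨n⟩))).2.down else true) a
    simp only [z]
    rw [this]
    congr 1
  obtain ⟨i, hi⟩ := hE.symm {p | z (e p).1 (e p).2.down = true}
  have h1 := hX (fun i n => if r (rep i (e.symm (ζ i, ⟨n⟩))).1 (ζ i) then
      z (rep i (e.symm (ζ i, ⟨n⟩))).1 (rep i (e.symm (ζ i, ⟨n⟩))).2.down else true)
  have h2 := hX (fun j n => if r (rep j (e.symm (ζ i, ⟨n⟩))).1 (ζ i) then
      z (rep j (e.symm (ζ i, ⟨n⟩))).1 (rep j (e.symm (ζ i, ⟨n⟩))).2.down else true) i
  rw [← hz (ζ i)] at h2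
  apply h2
  funext n
  rw [if_pos (hrep1 i _)]
  have h3 := hi _ _ (hrep2 i (e.symm (ζ i, ⟨n⟩)))
  simp only [mem_ofPred_eq, Equiv.apply_symm_apply] at h3
  exact Bool.eq_iff_iff.2 h3

theorem two_pow_le_of_thin {A I : Type u} (hA : #A = ℵ_ 1) (E : I → Setoid A)
    (hE : Measures E) (hthin : ∀ i, Countable (Quotient (E i))) :
    2 ^ ℵ_ 1 ≤ #I := by
  by_contra hlt
  push Not at hlt
  have h1 := two_pow_le_mul_of_thin hA E hE hthin
  rcases le_or_gt Cardinal.continuum #I with h | h
  · rw [Cardinal.mul_eq_max (Cardinal.aleph0_le_continuum.trans h)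
      Cardinal.aleph0_le_continuum, max_eq_left h] at h1
    exact absurd h1 (not_le.2 hlt)
  · exact not_measures_of_thin hA E hthin h hE

end Pool.Agent.Lib.MP_8f36f1_h17
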